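import Mathlib

set_option autoImplicit false
set_option linter.deprecated false

namespace Pool.Agent.P.MP_39acbb_lc

open Cardinal Set

universe u

/-- `T` is well ordered in the order type of an infinite regular cardinal. -/
structure Reg (T : Type u) [LinearOrder T] : Prop where
  reg : (#T).IsRegular
  init : ∀ a : T, #(Iio a) < #T
  bdd : ∀ s : Set T, #s < #T → ∃ b, ∀ a ∈ s, a < b

lemma bdd_toType {θ : Cardinal.{u}} (s : Set θ.ord.ToType) (hs : #s < θ.ord.cof) :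
    ∃ b, ∀ a ∈ s, a < b := by
  rw [← not_isCofinal_iff]
  intro h
  have := Order.cof_le h
  rw [Ordinal.cof_toType] at this
  exact absurd hs (not_lt.2 this)

lemma reg_toType {κ : Cardinal.{u}} (hκ : κ.IsRegular) : Reg κ.ord.ToType where
  reg := by rwa [mk_ord_toType]
  init a := by rw [mk_ord_toType]; exact mk_Iio_toType_ord_lt a
  bdd s hs := bdd_toType s (by rw [hκ.cof_ord]; rwa [mk_ord_toType] at hs)

lemma mk_Iic_lt {T : Type u} [LinearOrder T] {κ : Cardinal.{u}} (hκ : ℵ₀ ≤ κ) {a : T}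
    (h : #(Iio a) < κ) : #(Iic a) < κ := by
  rw [← Iio_insert]
  exact mk_insert_le.trans_lt (add_lt_of_lt hκ h (one_lt_aleph0.trans_le hκ))

section small
variable {κ : Cardinal.{u}} {Y : Type u}

lemma sm_union (hκ : ℵ₀ ≤ κ) {s t : Set Y} (hs : #s < κ) (ht : #t < κ) : #(s ∪ t : Set Y) < κ :=
  (mk_union_le s t).trans_lt (add_lt_of_lt hκ hs ht)

lemma sm_biUnion (hκ : κ.IsRegular) {I : Type u} {s : Set I} {t : I → Set Y} (hs : #s < κ)
    (ht : ∀ i ∈ s, #(t i) < κ) : #(⋃ i ∈ s, t i : Set Y) < κ :=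
  (card_biUnion_lt_iff_forall_of_isRegular hκ hs).2 ht

lemma sm_image {I : Type u} {s : Set I} (f : I → Y) (hs : #s < κ) : #(f '' s) < κ :=
  mk_image_le.trans_lt hs

lemma sm_single (hκ : ℵ₀ ≤ κ) (y : Y) : #({y} : Set Y) < κ := by
  rw [mk_singleton]; exact one_lt_aleph0.trans_le hκ

lemma sm_finite (hκ : ℵ₀ ≤ κ) {s : Set Y} (hs : s.Finite) : #s < κ :=
  hs.lt_aleph0.trans_le hκ

lemma sm_mono {s t : Set Y} (h : s ⊆ t) (ht : #t < κ) : #s < κ :=
  (mk_le_mk_of_subset h).trans_lt ht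

lemma sm_prod (hκ : ℵ₀ ≤ κ) {Y' : Type u} {s : Set Y} {t : Set Y'} (hs : #s < κ) (ht : #t < κ) :
    #(s ×ˢ t : Set (Y × Y')) < κ := by
  rw [mk_setProd]; exact mul_lt_of_lt hκ hs ht

lemma le_biUnion (hκ : ℵ₀ ≤ κ) {I : Type u} {s : Set I} {t : I → Set Y} (hs : #s ≤ κ)
    (ht : ∀ i ∈ s, #(t i) ≤ κ) : #(⋃ i ∈ s, t i : Set Y) ≤ κ := by
  have h1 : #s < Order.succ κ := Order.lt_succ_of_le hs
  have := sm_biUnion (isRegular_succ hκ) h1 (fun i hi => Order.lt_succ_of_le (ht i hi))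
  exact Order.le_of_lt_succ this

lemma le_union (hκ : ℵ₀ ≤ κ) {s t : Set Y} (hs : #s ≤ κ) (ht : #t ≤ κ) : #(s ∪ t : Set Y) ≤ κ :=
  (mk_union_le s t).trans (add_le_of_le hκ hs ht)

end small

namespace Reg
variable {T : Type u} [LinearOrder T] (h : Reg T)
include h

lemma inf : ℵ₀ ≤ #T := h.reg.aleph0_le

lemma iic (a : T) : #(Iic a) < #T := mk_Iic_lt h.inf (h.init a)

lemma nonempty : Nonempty T := by
  obtain ⟨b, -⟩ := h.bdd ∅ (by rw [mk_emptyCollection]; exact h.reg.pos)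
  exact ⟨b⟩

lemma exists_gt (a : T) : ∃ b, a < b := by
  obtain ⟨b, hb⟩ := h.bdd {a} (sm_single h.inf a)
  exact ⟨b, hb a rfl⟩

end Reg

/-- Recursive construction of an increasing chain of sets. -/
lemma chain_rec {T Y : Type u} [LinearOrder T] [WellFoundedLT T] (q : Set Y) (Pr : Set Y → Prop)
    (D : T → Set Y → Set Y → Prop)
    (hU : ∀ (γ : T) (r : T → Set Y), (∀ β < γ, Pr (r β) ∧ q ⊆ r β ∧ ∀ β' < β, r β' ⊆ r β) →
      Pr (q ∪ ⋃ β ∈ Iio γ, r β))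
    (step : ∀ γ s, Pr s → ∃ s', Pr s' ∧ s ⊆ s' ∧ D γ s s') :
    ∃ r : T → Set Y, ∀ γ, Pr (r γ) ∧ q ⊆ r γ ∧ (∀ β < γ, r β ⊆ r γ) ∧
      D γ (q ∪ ⋃ β ∈ Iio γ, r β) (r γ) := by
  classical
  have step' : ∀ γ s, ∃ s', Pr s → (Pr s' ∧ s ⊆ s' ∧ D γ s s') := by
    intro γ s
    by_cases hs : Pr s
    · obtain ⟨s', h'⟩ := step γ s hs
      exact ⟨s', fun _ => h'⟩
    · exact ⟨s, fun h => absurd h hs⟩
  choose f hf using step'
  let r : T → Set Y := (wellFounded_lt (α := T)).fix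
    (fun γ rec => f γ (q ∪ ⋃ β, ⋃ (hβ : β < γ), rec β hβ))
  have hr : ∀ γ, r γ = f γ (q ∪ ⋃ β ∈ Iio γ, r β) := by
    intro γ
    show (wellFounded_lt (α := T)).fix _ γ = _
    rw [WellFounded.fix_eq]
    rfl
  refine ⟨r, fun γ => ?_⟩
  induction γ using WellFoundedLT.induction with
  | ind γ ih =>
    have h1 := hU γ r (fun β hβ => ⟨(ih β hβ).1, (ih β hβ).2.1, (ih β hβ).2.2.1⟩)
    have h2 := hf γ _ h1
    rw [← hr γ] at h2
    refine ⟨h2.1, subset_union_left.trans h2.2.1, fun β hβ => ?_, h2.2.2⟩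
    exact fun y hy => h2.2.1 (Or.inr (mem_iUnion₂.2 ⟨β, hβ, hy⟩))

/-- `κ ^ {<κ} = κ`, in the form that is used. -/
def Cnt (κ : Cardinal.{u}) : Prop :=
  ∀ (Y : Type u) (S : Set Y), #S ≤ κ → #{c : Set Y | c ⊆ S ∧ #c < κ} ≤ κ

/-- Closing off. -/
lemma close_off {κ : Cardinal.{u}} (hκ : κ.IsRegular) (hc : Cnt κ) {Θ G : Type u} (hG : #G ≤ κ)
    (W : Set (Θ × G) → Set Θ) (hW : ∀ c : Set (Θ × G), #c < κ → #(W c) ≤ κ) (S₀ : Set Θ)
    (hS₀ : #S₀ ≤ κ) :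
    ∃ S : Set Θ, S₀ ⊆ S ∧ #S ≤ κ ∧
      ∀ c : Set (Θ × G), #c < κ → (∀ p ∈ c, p.1 ∈ S) → W c ⊆ S := by
  have hT := reg_toType hκ
  have hk : #κ.ord.ToType = κ := mk_ord_toType κ
  obtain ⟨r, hr⟩ := chain_rec (T := κ.ord.ToType) S₀ (fun s => #s ≤ κ)
    (fun _ s s' => ∀ c : Set (Θ × G), #c < κ → (∀ p ∈ c, p.1 ∈ s) → W c ⊆ s')
    (fun γ r h => le_union hκ.aleph0_le hS₀ (le_biUnion hκ.aleph0_le
      ((hT.init γ).le.trans hk.le) (fun β hβ => (h β hβ).1)))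
    (fun γ s hs => by
      refine ⟨s ∪ ⋃ c ∈ {c : Set (Θ × G) | c ⊆ s ×ˢ (Set.univ : Set G) ∧ #c < κ}, W c, ?_, subset_union_left, ?_⟩
      · refine le_union hκ.aleph0_le hs (le_biUnion hκ.aleph0_le (hc _ _ ?_) fun c h => hW c h.2)
        rw [mk_setProd, mk_univ]
        exact mul_le_of_le hκ.aleph0_le hs hG
      · intro c h1 h2
        exact fun y hy => Or.inr (mem_iUnion₂.2 ⟨c, ⟨fun p hp => ⟨h2 p hp, mem_univ _⟩, h1⟩, hy⟩))
  obtain ⟨a₀⟩ := hT.nonempty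
  refine ⟨⋃ γ ∈ (Set.univ : Set κ.ord.ToType), r γ, ?_, ?_, ?_⟩
  · exact (hr a₀).2.1.trans (subset_biUnion_of_mem (u := r) (mem_univ _))
  · exact le_biUnion hκ.aleph0_le (by rw [mk_univ, hk]) fun γ _ => (hr γ).1
  · intro c h1 h2
    have h3 : ∀ p : c, ∃ γ, p.1.1 ∈ r γ := fun p => by
      obtain ⟨γ, -, hγ⟩ := mem_iUnion₂.1 (h2 p.1 p.2)
      exact ⟨γ, hγ⟩
    choose lv hlv using h3
    obtain ⟨b, hb⟩ := hT.bdd (range lv) (by rw [hk]; exact mk_range_le.trans_lt h1)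
    refine ((hr b).2.2.2 c h1 fun p hp => ?_).trans (subset_biUnion_of_mem (u := r) (mem_univ _))
    exact Or.inr (mem_iUnion₂.2 ⟨lv ⟨p, hp⟩, hb _ ⟨_, rfl⟩, hlv ⟨p, hp⟩⟩)

/-- Bookkeeping. -/
lemma book {θ : Cardinal.{u}} (hθ : ℵ₀ ≤ θ) {Y : Type u} [Nonempty Y] (hY : #Y ≤ θ) :
    ∃ f : θ.ord.ToType → Y, ∀ y b, ∃ η, b < η ∧ f η = y := by
  have h1 : #(Y × θ.ord.ToType) ≤ #θ.ord.ToType := by
    rw [mk_prod, lift_id, lift_id, mk_ord_toType]
    exact mul_le_of_le hθ hY le_rfl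
  obtain ⟨e⟩ := (le_def _ _).1 h1
  have : Nonempty θ.ord.ToType := by
    rw [← mk_ne_zero_iff, mk_ord_toType]; exact (aleph0_pos.trans_le hθ).ne'
  refine ⟨fun η => (Function.invFun e η).1, fun y b => ?_⟩
  by_contra hcon
  push Not at hcon
  have h2 : ∀ x, e (y, x) ∈ Iic b := fun x => by
    by_contra h
    refine hcon (e (y, x)) (not_le.1 h) ?_
    rw [Function.leftInverse_invFun e.injective]
  have h3 : #θ.ord.ToType ≤ #(Iic b) :=
    mk_le_of_injective (f := fun x => (⟨e (y, x), h2 x⟩ : Iic b)) fun x x' h => by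
      have := e.injective (congrArg Subtype.val h)
      exact (Prod.ext_iff.1 this).2
  rw [mk_ord_toType] at h3
  exact absurd (mk_Iic_lt hθ (mk_Iio_toType_ord_lt b)) (not_lt.2 h3)

/-! ### Boolean groups -/

section Bool
variable {G : Type u} [AddCommGroup G]

lemma closure_rep (h2 : ∀ x : G, x + x = 0) {I : Type*} (k : I → G) (A : Set I) {x : G}
    (hx : x ∈ AddSubgroup.closure (k '' A)) : ∃ F : Finset I, (↑F : Set I) ⊆ A ∧ x = ∑ i ∈ F, k i := by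
  classical
  induction hx using AddSubgroup.closure_induction with
  | mem x hx =>
    obtain ⟨i, hi, rfl⟩ := hx
    exact ⟨{i}, by simpa using hi, by simp⟩
  | zero => exact ⟨∅, by simp, by simp⟩
  | add x y _ _ hx hy =>
    obtain ⟨F, hF, rfl⟩ := hx
    obtain ⟨F', hF', rfl⟩ := hy
    refine ⟨(F \ F') ∪ (F' \ F), ?_, ?_⟩
    · intro i hi
      simp only [Finset.coe_union, Finset.coe_sdiff, mem_union, mem_diff] at hi
      rcases hi with hi | hi
      · exact hF hi.1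
      · exact hF' hi.1
    · rw [Finset.sum_union disjoint_sdiff_sdiff, ← Finset.sum_sdiff (Finset.inter_subset_left (s₁ := F) (s₂ := F')),
        ← Finset.sum_sdiff (Finset.inter_subset_right (s₁ := F) (s₂ := F')), Finset.sdiff_inter_self_left,
        Finset.sdiff_inter_self_right]
      have := h2 (∑ i ∈ F ∩ F', k i)
      rw [add_add_add_comm, this, add_zero]
  | neg x _ hx =>
    obtain ⟨F, hF, rfl⟩ := hx
    exact ⟨F, hF, neg_eq_of_add_eq_zero_left (h2 _)⟩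

lemma top_lemma (h2 : ∀ x : G, x + x = 0) {I : Type*} [LinearOrder I] (k : I → G) (A : Set I)
    (H : I → AddSubgroup G) (hk : ∀ i ∈ A, ∀ j, i < j → k i ∈ H j) {x : G}
    (hx : x ∈ AddSubgroup.closure (k '' A)) : x = 0 ∨ ∃ i ∈ A, x - k i ∈ H i := by
  classical
  obtain ⟨F, hF, rfl⟩ := closure_rep h2 k A hx
  rcases F.eq_empty_or_nonempty with rfl | hne
  · left; simp
  · right
    refine ⟨F.max' hne, hF (F.max'_mem hne), ?_⟩
    rw [← Finset.add_sum_erase F k (F.max'_mem hne), add_sub_cancel_left]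
    refine AddSubgroup.sum_mem _ fun i hi => hk i (hF (Finset.mem_of_mem_erase hi)) _ ?_
    exact lt_of_le_of_ne (F.le_max' i (Finset.mem_of_mem_erase hi)) (Finset.ne_of_mem_erase hi)

lemma closure_finite (h2 : ∀ x : G, x + x = 0) {s : Set G} (hs : s.Finite) :
    (AddSubgroup.closure s : Set G).Finite := by
  classical
  refine (hs.toFinset.powerset.finite_toSet.image (fun F => ∑ i ∈ F, i)).subset fun x hx => ?_
  obtain ⟨F, hF, rfl⟩ := closure_rep h2 id s (x := x) (by rwa [image_id])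
  refine ⟨F, ?_, rfl⟩
  rw [Finset.mem_coe, Finset.mem_powerset]
  intro i hi
  exact hs.mem_toFinset.2 (hF hi)

end Bool

end Pool.Agent.P.MP_39acbb_lc
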