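import Pool.Agent.P.MP_39acbb_lc.Cols

set_option autoImplicit false
set_option linter.deprecated false

namespace Pool.Agent.P.MP_39acbb_lc

open Cardinal Set

universe u

lemma cnt_aleph0 : Cnt (ℵ₀ : Cardinal.{u}) := by
  intro Y S hS
  rw [le_aleph0_iff_set_countable] at hS ⊢
  refine (countable_setOf_finite_subset hS).mono fun c hc => ?_
  exact ⟨lt_aleph0_iff_set_finite.1 hc.2, hc.1⟩

section step
variable {Θ G : Type u} [LinearOrder Θ] [AddCommGroup G]

lemma good_finite {K : Θ → AddSubgroup G} {η : Θ} {X : Set G} (hg : Good ℵ₀ K η X)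
    {s : Set G} (hs : s.Finite) (q : Set (Θ × G)) (hq : Cond ℵ₀ q) (hqη : ∀ p ∈ q, p.1 < η) :
    ∃ o : Set (Θ × G), Cond ℵ₀ o ∧ (∀ p ∈ o, p.1 < η) ∧ q ⊆ o ∧
      ∀ g ∈ U K o, ∀ h ∈ s, g + h ∉ X := by
  induction s, hs using Set.Finite.induction_on with
  | empty => exact ⟨q, hq, hqη, subset_rfl, fun _ _ _ h => absurd h (notMem_empty _)⟩
  | @insert h s _ _ ih =>
    obtain ⟨o, o1, o2, o3, o4⟩ := ih
    obtain ⟨o', p1, p2, p3, p4⟩ := hg (tr o h) (o1.tr h) (fun p hp => o2 (p.1, p.2 - h) (mem_tr.1 hp))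
    have hsub : o ⊆ tr o' (-h) := fun p hp => mem_tr.2 (p3 (mem_tr.2 (by simpa using hp)))
    refine ⟨tr o' (-h), p1.tr _, fun p hp => p2 (p.1, p.2 - -h) (mem_tr.1 hp), o3.trans hsub, ?_⟩
    rintro g hg h' (rfl | hh')
    · exact p4 _ (by simpa using mem_U_tr.1 hg)
    · exact o4 g (U_anti K hsub hg) h' hh'

/-- what is asked of a new column -/
def Nice (K : Θ → AddSubgroup G) (η : Θ) (X : Set G) (a : G) (K₁ : AddSubgroup G) : Prop :=
  (∀ q : Set (Θ × G), Cond ℵ₀ q → (∀ p ∈ q, p.1 < η) → ∀ c, {g | g ∈ U K q ∧ g - c ∈ K₁}.Infinite) ∧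
    (Good ℵ₀ K η X → ∀ c, {g | g ∈ X ∧ g - c ∈ K₁}.Finite) ∧ (a ≠ 0 → a ∉ K₁)

lemma Nice_congr {K K' : Θ → AddSubgroup G} {η : Θ} (h : ∀ ζ < η, K ζ = K' ζ) (X : Set G) (a : G)
    (K₁ : AddSubgroup G) : Nice K η X a K₁ ↔ Nice K' η X a K₁ := by
  refine and_congr (forall_congr' fun q => forall_congr' fun _ => forall_congr' fun hq => ?_) ?_
  · rw [U_congr h hq]
  · rw [Good_congr h]

lemma exists_nice_col [Countable G] (h2 : ∀ x : G, x + x = 0) (K : Θ → AddSubgroup G) (η : Θ)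
    (hη : (Iio η).Countable) (X : Set G) (a : G)
    (hinf : ∀ q : Set (Θ × G), Cond ℵ₀ q → (∀ p ∈ q, p.1 < η) → (U K q).Infinite) :
    ∃ K₁, Nice K η X a K₁ := by
  classical
  have hct : {q : Set (Θ × G) | Cond ℵ₀ q ∧ ∀ p ∈ q, p.1 < η}.Countable := by
    refine (countable_setOf_finite_subset (hη.prod (countable_univ (α := G)))).mono fun c hc => ?_
    exact ⟨lt_aleph0_iff_set_finite.1 hc.1.1, fun p hp => ⟨hc.2 p hp, trivial⟩⟩
  obtain ⟨e, he⟩ := hct.exists_eq_range ⟨∅, ⟨sm_finite le_rfl finite_empty,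
    fun _ _ _ h => absurd h (notMem_empty _)⟩, fun _ h => absurd h (notMem_empty _)⟩
  have he1 : ∀ n, Cond ℵ₀ (e n) ∧ ∀ p ∈ e n, p.1 < η := fun n => by
    have : e n ∈ range e := ⟨n, rfl⟩
    rwa [← he] at this
  obtain ⟨gs, hgs⟩ := exists_surjective_nat G
  have step : ∀ (n : ℕ) (s : Finset G), ∃ k, k ∈ U K (e n.unpair.1) ∧
      k ∉ AddSubgroup.closure (s : Set G) ∧
      (Good ℵ₀ K η X → ∀ h ∈ AddSubgroup.closure (s : Set G), k + h ∉ X) := fun n s => by
    have hfin := closure_finite h2 s.finite_toSet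
    by_cases hg : Good ℵ₀ K η X
    · obtain ⟨o, o1, o2, o3, o4⟩ := good_finite hg hfin _ (he1 n.unpair.1).1 (he1 _).2
      obtain ⟨k, hk1, hk2⟩ := (hinf o o1 o2).exists_notMem_finite hfin
      exact ⟨k, U_anti K o3 hk1, hk2, fun _ h hh => o4 k hk1 h hh⟩
    · obtain ⟨k, hk1, hk2⟩ := (hinf _ (he1 n.unpair.1).1 (he1 _).2).exists_notMem_finite hfin
      exact ⟨k, hk1, hk2, fun h => absurd h hg⟩
  choose kf k1 k2 k3 using step
  let s : ℕ → Finset G := fun n =>
    Nat.rec (motive := fun _ => Finset G) {a} (fun n s => insert (kf n s) (insert (gs n) s)) n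
  have hs : ∀ n, s (n + 1) = insert (kf n (s n)) (insert (gs n) (s n)) := fun _ => rfl
  have hsm : Monotone s := monotone_nat_of_le_succ fun n x hx => by
    rw [hs]; exact Finset.mem_insert_of_mem (Finset.mem_insert_of_mem hx)
  let k : ℕ → G := fun n => kf n (s n)
  let H : ℕ → AddSubgroup G := fun n => AddSubgroup.closure ((s n : Finset G) : Set G)
  have hH : Monotone H := fun n m h => AddSubgroup.closure_mono (Finset.coe_subset.2 (hsm h))
  have hkH : ∀ i j, i < j → k i ∈ H j := fun i j h =>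
    hH h (AddSubgroup.subset_closure (by rw [hs]; exact Finset.mem_insert_self _ _))
  have hgH : ∀ i j, i < j → gs i ∈ H j := fun i j h =>
    hH h (AddSubgroup.subset_closure (by
      rw [hs]; exact Finset.mem_insert_of_mem (Finset.mem_insert_self _ _)))
  have haH : ∀ j, a ∈ H j := fun j =>
    hH (Nat.zero_le j) (AddSubgroup.subset_closure (Finset.mem_singleton_self a))
  have htop : ∀ x ∈ AddSubgroup.closure (k '' Set.univ), x = 0 ∨ ∃ i, x - k i ∈ H i := fun x hx => by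
    rcases top_lemma h2 k Set.univ H (fun i _ j h => hkH i j h) hx with h | ⟨i, -, h⟩
    · exact Or.inl h
    · exact Or.inr ⟨i, h⟩
  have hkinj : Function.Injective k := fun i j h => by
    rcases lt_trichotomy i j with hl | hl | hl
    · exact absurd (h ▸ hkH i j hl : k j ∈ H j) (k2 j (s j))
    · exact hl
    · exact absurd (h ▸ hkH j i hl : k i ∈ H i) (k2 i (s i))
  refine ⟨AddSubgroup.closure (k '' Set.univ), fun q hq hqη c => ?_, fun hg c => ?_, fun ha haK => ?_⟩
  · have : tr q (-c) ∈ range e := he ▸ ⟨hq.tr _, fun p hp => hqη (p.1, p.2 - -c) (mem_tr.1 hp)⟩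
    obtain ⟨m, hm⟩ := this
    refine infinite_of_injective_forall_mem (f := fun i => k (Nat.pair m i) + c) (fun i j h => ?_)
      fun i => ⟨?_, ?_⟩
    · have := hkinj (add_right_cancel h)
      exact (Nat.pair_eq_pair.1 this).2
    · have := k1 (Nat.pair m i) (s (Nat.pair m i))
      rw [Nat.unpair_pair, hm, mem_U_tr] at this
      simpa using this
    · rw [add_sub_cancel_right]
      exact AddSubgroup.subset_closure ⟨_, trivial, rfl⟩
  · obtain ⟨i, rfl⟩ := hgs c
    refine (closure_finite h2 (s (i + 1)).finite_toSet).subset ?_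
    rintro g ⟨hgX, hgK⟩
    have hi := hgH i (i + 1) (Nat.lt_succ_self i)
    rcases htop _ hgK with h | ⟨n, h⟩
    · rw [sub_eq_zero.1 h]; exact hi
    · rcases lt_or_ge i n with hl | hl
      · exfalso
        refine k3 n (s n) hg _ (add_mem h (hgH i n hl)) ?_
        convert hgX using 1
        show k n + _ = _
        abel
      · have := add_mem (add_mem (hH (hl.trans (Nat.le_succ i)) h) (hkH n (i + 1) (Nat.lt_succ_of_le hl))) hi
        have h3 : g ∈ H (i + 1) := by simpa using this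
        exact h3
  · rcases htop _ haK with h | ⟨n, h⟩
    · exact ha h
    · have := sub_mem (haH n) h
      exact k2 n (s n) (by simpa using this)

end step

theorem nodec_of_ch (h : (2 : Cardinal.{u}) ^ (ℵ₀ : Cardinal.{u}) = Order.succ ℵ₀) {G : Type u}
    [AddCommGroup G] [Countable G] [Infinite G] (h2 : ∀ x : G, x + x = 0) : Nodec G := by
  classical
  have hG : #G ≤ ℵ₀ := mk_le_aleph0
  have hθ : ℵ₀ ≤ Order.succ (ℵ₀ : Cardinal.{u}) := Order.le_succ _
  have hreg := isRegular_succ (le_refl (ℵ₀ : Cardinal.{u}))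
  let Θ := (Order.succ ℵ₀ : Cardinal.{u}).ord.ToType
  have hΘ : Reg Θ := reg_toType hreg
  have hkΘ : #Θ = Order.succ ℵ₀ := mk_ord_toType _
  have := hΘ.nonempty
  obtain ⟨f, hf⟩ := book hθ (Y := Set G × G) (by
    rw [mk_prod, lift_id, lift_id, mk_set]
    exact mul_le_of_le hθ ((power_le_power_left two_ne_zero hG).trans h.le) (hG.trans hθ))
  obtain ⟨K, hK'⟩ := col_rec (Θ := Θ) (G := G)
    (fun η K' => if h : ∃ K₁, Nice K' η (f η).1 (f η).2 K₁ then h.choose else ⊥)
  have hstep : ∀ q : Set (Θ × G), Cond ℵ₀ q →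
      (∀ p ∈ q, Nice K p.1 (f p.1).1 (f p.1).2 (K p.1)) → (U K q).Infinite := by
    intro q hq hn
    rcases q.eq_empty_or_nonempty with rfl | hne
    · exact infinite_univ.mono fun g _ p hp => absurd hp (notMem_empty _)
    · obtain ⟨p, hp, hmax⟩ := exists_max_image q Prod.fst (lt_aleph0_iff_set_finite.1 hq.1) hne
      refine ((hn p hp).1 {y ∈ q | y.1 < p.1} (hq.mono (sep_subset _ _)) (fun y hy => hy.2) p.2).mono ?_
      rintro g ⟨hg1, hg2⟩ y hy
      rcases (hmax y hy).lt_or_eq with hl | hl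
      · exact hg1 y ⟨hy, hl⟩
      · have : y.2 = p.2 := hq.2 y.1 _ _ hy (hl ▸ hp)
        rw [hl, this]; exact hg2
  have hK : ∀ η, Nice K η (f η).1 (f η).2 (K η) := by
    intro η
    induction η using WellFoundedLT.induction with
    | ind η ih =>
      obtain ⟨K', h1, h3⟩ := hK' η
      have hex : ∃ K₁, Nice K' η (f η).1 (f η).2 K₁ := by
        obtain ⟨K₁, hK₁⟩ := exists_nice_col h2 K η (le_aleph0_iff_set_countable.1
          (Order.le_of_lt_succ ((hΘ.init η).trans_eq hkΘ))) (f η).1 (f η).2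
          (fun q hq hqη => hstep q hq fun p hp => ih _ (hqη p hp))
        exact ⟨K₁, (Nice_congr h1 _ _ _).2 hK₁⟩
      rw [dif_pos hex] at h3
      rw [h3]
      exact (Nice_congr h1 _ _ _).1 hex.choose_spec
  refine final isRegular_aleph0 cnt_aleph0 hG K (fun X₀ S hS => ?_) (fun q hq g₀ => ?_)
    (fun g hg0 => ?_)
  · obtain ⟨b₀, hb₀⟩ := hΘ.bdd S (by rw [hkΘ]; exact Order.lt_succ_of_le hS)
    obtain ⟨η, hη, hfη⟩ := hf (X₀, 0) b₀
    refine ⟨η, fun ζ hζ => (hb₀ ζ hζ).trans hη, fun hgd c => ?_⟩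
    have := (hK η).2.1
    rw [hfη] at this
    exact (this hgd c).lt_aleph0
  · obtain ⟨g, hg1, hg2⟩ := (hstep q hq fun p _ => hK p.1).exists_notMem_finite (finite_singleton g₀)
    exact ⟨g, hg1, hg2⟩
  · obtain ⟨η, -, hfη⟩ := hf (∅, g) (Classical.arbitrary Θ)
    have := (hK η).2.2
    rw [hfη] at this
    exact ⟨η, this hg0⟩

end Pool.Agent.P.MP_39acbb_lc
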