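import Pool.Agent.P.MP_39acbb_lc.Final

set_option autoImplicit false
set_option linter.deprecated false

namespace Pool.Agent.P.MP_39acbb_lc

open Cardinal Set

universe u

/-- The diamond principle, with clubs replaced by sets of closure points. -/
def Guess (T : Type u) [LinearOrder T] : Prop :=
  ∃ D : T → Set T, ∀ (Z : Set T) (F : T → Set T), (∀ γ, #(F γ) < #T) → ∀ a,
    ∃ ε, a < ε ∧ (∀ γ < ε, F γ ⊆ Iio ε) ∧ Z ∩ Iio ε = D ε

variable {T : Type u} [LinearOrder T]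

lemma Guess.cnt (hT : Reg T) (hg : Guess T) : Cnt #T := by
  classical
  intro Y S hS
  obtain ⟨D, hD⟩ := hg
  obtain ⟨j⟩ := (le_def _ _).1 hS
  have h1 : ∀ c : {c : Set Y | c ⊆ S ∧ #c < #T}, ∃ ε, D ε = j '' {y : S | y.1 ∈ c.1} := by
    rintro ⟨c, hc1, hc2⟩
    have hsm : #(j '' {y : S | y.1 ∈ c}) < #T := by
      refine sm_image _ (lt_of_le_of_lt ?_ hc2)
      exact mk_le_of_injective (f := fun y => (⟨y.1.1, y.2⟩ : c)) fun y y' h =>
        Subtype.ext (Subtype.ext (congrArg (fun z : c => z.1) h))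
    obtain ⟨b, hb⟩ := hT.bdd _ hsm
    obtain ⟨ε, h1, -, h2⟩ := hD (j '' {y : S | y.1 ∈ c}) (fun _ => ∅)
      (fun _ => sm_finite hT.inf finite_empty) b
    exact ⟨ε, h2.symm.trans (inter_eq_left.2 fun z hz => (hb z hz).trans h1)⟩
  choose f hf using h1
  refine mk_le_of_injective (f := f) fun c c' h => ?_
  have h2 : j '' {y : S | y.1 ∈ c.1} = j '' {y : S | y.1 ∈ c'.1} := by rw [← hf, ← hf, h]
  rw [image_eq_image j.injective] at h2
  apply Subtype.ext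
  ext y
  constructor
  · intro hy
    have : (⟨y, c.2.1 hy⟩ : S) ∈ {y : S | y.1 ∈ c'.1} := h2 ▸ hy
    exact this
  · intro hy
    have : (⟨y, c'.2.1 hy⟩ : S) ∈ {y : S | y.1 ∈ c.1} := h2 ▸ hy
    exact this

lemma mk_supp_le {T : Type u} (s : Set T) :
    #{g : T →₀ ZMod 2 | ∀ β, β ∉ s → g β = 0} ≤ max ℵ₀ #s := by
  classical
  refine le_trans ?_ (mk_list_le_max s)
  refine mk_le_of_injective (f := fun g => (g.1.support.subtype (· ∈ s)).toList) fun g g' h => ?_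
  have h1 : g.1.support.subtype (· ∈ s) = g'.1.support.subtype (· ∈ s) := by
    rw [← Finset.toList_toFinset (g.1.support.subtype (· ∈ s)),
      ← Finset.toList_toFinset (g'.1.support.subtype (· ∈ s))]
    exact congrArg List.toFinset h
  apply Subtype.ext
  ext β
  by_cases hβ : β ∈ s
  · have h2 : (⟨β, hβ⟩ : s) ∈ g.1.support.subtype (· ∈ s) ↔
        (⟨β, hβ⟩ : s) ∈ g'.1.support.subtype (· ∈ s) := by rw [h1]
    simp only [Finset.mem_subtype, Finsupp.mem_support_iff] at h2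
    have : ∀ a b : ZMod 2, (a ≠ 0 ↔ b ≠ 0) → a = b := by decide
    exact this _ _ h2
  · rw [g.2 β hβ, g'.2 β hβ]

lemma bool_G {T : Type u} (x : T →₀ ZMod 2) : x + x = 0 := by
  ext β
  have : ∀ a : ZMod 2, a + a = 0 := by decide
  simpa using this (x β)

/-- the filtration -/
def H (ε : T) : AddSubgroup (T →₀ ZMod 2) where
  carrier := {g | ∀ β, ε ≤ β → g β = 0}
  zero_mem' := fun _ _ => rfl
  add_mem' := fun {a b} ha hb β h => by simp [ha β h, hb β h]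
  neg_mem' := fun {a} ha β h => by simp [ha β h]

lemma H_mono {ε δ : T} (h : ε ≤ δ) : H ε ≤ H δ := fun _ hg β hβ => hg β (h.trans hβ)

lemma single_mem_H {ε δ : T} (h : ε < δ) : Finsupp.single ε (1 : ZMod 2) ∈ H δ := fun _ hβ =>
  Finsupp.single_eq_of_ne (h.trans_le hβ).ne'

lemma single_not_mem_H (ε : T) : Finsupp.single ε (1 : ZMod 2) ∉ H ε := fun h => by
  simpa using h ε le_rfl

lemma exists_mem_H (hT : Reg T) (g : T →₀ ZMod 2) : ∃ a, g ∈ H a := by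
  obtain ⟨b, hb⟩ := hT.bdd g.support (sm_finite hT.inf g.support.finite_toSet)
  refine ⟨b, fun β hβ => ?_⟩
  by_contra h
  exact absurd (hb β (Finsupp.mem_support_iff.2 h)) (not_lt.2 hβ)

lemma sm_supp {T : Type u} (hun : ℵ₀ < #T) {s : Set T} (hs : #s < #T) :
    #{g : T →₀ ZMod 2 | ∀ β, β ∉ s → g β = 0} < #T :=
  (mk_supp_le s).trans_lt (max_lt hun hs)

lemma mk_G_le (hT : Reg T) : #(T →₀ ZMod 2) ≤ #T := by
  have := mk_supp_le (Set.univ : Set T)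
  rw [mk_univ, max_eq_right hT.inf] at this
  refine le_trans (le_of_eq ?_) this
  rw [← mk_univ]
  congr 2
  ext g
  simp

/-- an element of `H ε` is supported in a closed initial segment below `ε` -/
lemma H_bound {a ε : T} (ha : a < ε) {g : T →₀ ZMod 2} (hg : g ∈ H ε) :
    ∃ γ < ε, a ≤ γ ∧ ∀ β, β ∉ Iic γ → g β = 0 := by
  classical
  have hne : (insert a g.support).Nonempty := Finset.insert_nonempty _ _
  refine ⟨(insert a g.support).max' hne, ?_, Finset.le_max' _ _ (Finset.mem_insert_self _ _), ?_⟩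
  · rw [Finset.max'_lt_iff]
    intro y hy
    rcases Finset.mem_insert.1 hy with rfl | hy
    · exact ha
    · by_contra h
      exact Finsupp.mem_support_iff.1 hy (hg y (not_lt.1 h))
  · intro β hβ
    by_contra h
    exact hβ (Finset.le_max' _ _ (Finset.mem_insert_of_mem (Finsupp.mem_support_iff.2 h)))

/-- A generic chain of conditions inside a closed set of columns. -/
lemma generic_chain [WellFoundedLT T] (hT : Reg T) (hc : Cnt #T) {Θ G : Type u} [LinearOrder Θ]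
    [Nonempty Θ] [AddCommGroup G] (hG : #G ≤ #T) (K : Θ → AddSubgroup G) (X : Θ → Set G)
    (q : Set (Θ × G)) (hq : Cond #T q) :
    ∃ (η : T → Θ) (p : T → G) (τ : T → G → T) (R : T → Set T),
      (∀ i j, η i = η j → p i = p j) ∧ (∀ γ, #(R γ) < #T) ∧
      (∀ γ, ∀ y ∈ q, ∃ j ∈ R γ, y = (η j, p j)) ∧
      ∀ i h, Good #T K (η i) (X (η i)) → ∃ o : Set (Θ × G), (∀ y ∈ o, y.1 < η i) ∧
        (∀ g ∈ U K o, g ∉ X (η i)) ∧ ∀ y ∈ o, ∃ j ∈ R (τ i h), y = (η j, p j + h) := by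
  classical
  have h0 := hT.inf
  have h1 : ∀ (ζ : Θ) (r : Set (Θ × G)), ∃ o : Set (Θ × G), Cond #T r → (∀ y ∈ r, y.1 < ζ) →
      Good #T K ζ (X ζ) →
        (Cond #T o ∧ (∀ y ∈ o, y.1 < ζ) ∧ r ⊆ o ∧ ∀ g ∈ U K o, g ∉ X ζ) := by
    intro ζ r
    by_cases h : Cond #T r ∧ (∀ y ∈ r, y.1 < ζ) ∧ Good #T K ζ (X ζ)
    · obtain ⟨o, ho⟩ := h.2.2 r h.1 h.2.1
      exact ⟨o, fun _ _ _ => ho⟩
    · exact ⟨r, fun a b c => absurd ⟨a, b, c⟩ h⟩
  choose o ho using h1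
  have ho' : ∀ (c : Set (Θ × G)) (ζ : Θ) (h : G), Cond #T c → Good #T K ζ (X ζ) →
      (Cond #T (o ζ (tr {y ∈ c | y.1 < ζ} h)) ∧ (∀ y ∈ o ζ (tr {y ∈ c | y.1 < ζ} h), y.1 < ζ) ∧
        tr {y ∈ c | y.1 < ζ} h ⊆ o ζ (tr {y ∈ c | y.1 < ζ} h) ∧
        ∀ g ∈ U K (o ζ (tr {y ∈ c | y.1 < ζ} h)), g ∉ X ζ) := fun c ζ h hc hg =>
    ho ζ _ ((hc.mono (sep_subset _ _)).tr h) (fun y hy => (mem_tr.1 hy).2) hg
  obtain ⟨θ₀⟩ := ‹Nonempty Θ›
  obtain ⟨S, hS₀, hS, hSW⟩ := close_off hT.reg hc hG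
    (fun c : Set (Θ × G) => ⋃ ζ ∈ Prod.fst '' c, ⋃ h ∈ (Set.univ : Set G),
      if Cond #T c ∧ Good #T K ζ (X ζ) then Prod.fst '' o ζ (tr {y ∈ c | y.1 < ζ} h) else ∅)
    (fun c hc => by
      refine le_biUnion h0 (sm_image _ hc).le fun ζ _ => le_biUnion h0 (by rwa [mk_univ]) fun h _ => ?_
      split_ifs with hh
      · exact (sm_image _ (ho' c ζ h hh.1 hh.2).1.1).le
      · simp)
    ({θ₀} ∪ Prod.fst '' q) (sm_union h0 (sm_single h0 _) (sm_image _ hq.1)).le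
  have hSne : Nonempty S := ⟨⟨θ₀, hS₀ (Or.inl rfl)⟩⟩
  obtain ⟨jS⟩ := (le_def _ _).1 hS
  let η : T → Θ := fun i => (Function.invFun jS i).1
  have hη1 : ∀ i, η i ∈ S := fun i => (Function.invFun jS i).2
  have hη2 : ∀ ζ (hζ : ζ ∈ S), η (jS ⟨ζ, hζ⟩) = ζ := fun ζ hζ => by
    simp only [η]
    rw [Function.leftInverse_invFun jS.injective]
  have h2 : #(T × G) ≤ #T := by
    rw [mk_prod, lift_id, lift_id]; exact mul_le_of_le h0 le_rfl hG
  obtain ⟨jT⟩ := (le_def _ _).1 h2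
  obtain ⟨a₀⟩ := hT.nonempty
  have : Nonempty (T × G) := ⟨(a₀, 0)⟩
  let σ : T → T × G := Function.invFun jT
  have hσ : ∀ x, σ (jT x) = x := Function.leftInverse_invFun jT.injective
  obtain ⟨r, hr⟩ := chain_rec (T := T) q (fun r => Cond #T r ∧ ∀ y ∈ r, y.1 ∈ S)
    (fun γ _ r => (∃ v, (η (σ γ).1, v) ∈ r) ∧ (Good #T K (η (σ γ).1) (X (η (σ γ).1)) →
      ∃ o : Set (Θ × G), (∀ y ∈ o, y.1 < η (σ γ).1) ∧ (∀ g ∈ U K o, g ∉ X (η (σ γ).1)) ∧
        ∀ y ∈ o, (y.1, y.2 - (σ γ).2) ∈ r))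
    (fun γ r h => by
      refine ⟨⟨sm_union h0 hq.1 (sm_biUnion hT.reg (hT.init γ) fun β hβ => (h β hβ).1.1.1), ?_⟩, ?_⟩
      · rintro x a b (ha | ha) (hb | hb)
        · exact hq.2 x a b ha hb
        · obtain ⟨β, hβ, hb⟩ := mem_iUnion₂.1 hb
          exact (h β hβ).1.1.2 x a b ((h β hβ).2.1 ha) hb
        · obtain ⟨β, hβ, ha⟩ := mem_iUnion₂.1 ha
          exact (h β hβ).1.1.2 x a b ha ((h β hβ).2.1 hb)
        · obtain ⟨β, hβ, ha⟩ := mem_iUnion₂.1 ha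
          obtain ⟨β', hβ', hb⟩ := mem_iUnion₂.1 hb
          rcases lt_trichotomy β β' with hl | rfl | hl
          · exact (h β' hβ').1.1.2 x a b ((h β' hβ').2.2 β hl ha) hb
          · exact (h β hβ).1.1.2 x a b ha hb
          · exact (h β hβ).1.1.2 x a b ha ((h β hβ).2.2 β' hl hb)
      · rintro y (hy | hy)
        · exact hS₀ (Or.inr ⟨y, hy, rfl⟩)
        · obtain ⟨β, hβ, hy⟩ := mem_iUnion₂.1 hy
          exact (h β hβ).1.2 y hy)
    (fun γ s hs => by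
      set ζ := η (σ γ).1 with hζ
      set h := (σ γ).2 with hh
      obtain ⟨s₁, hs₁, hs₁S, hss₁, v, hv⟩ : ∃ s₁ : Set (Θ × G), Cond #T s₁ ∧ (∀ y ∈ s₁, y.1 ∈ S) ∧
          s ⊆ s₁ ∧ ∃ v, (ζ, v) ∈ s₁ := by
        by_cases hex : ∃ v, (ζ, v) ∈ s
        · exact ⟨s, hs.1, hs.2, subset_rfl, hex⟩
        · refine ⟨s ∪ {(ζ, 0)}, ⟨sm_union h0 hs.1.1 (sm_single h0 _), ?_⟩, ?_, subset_union_left,
            0, Or.inr rfl⟩
          · rintro x a b (ha | ha) (hb | hb)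
            · exact hs.1.2 x a b ha hb
            · obtain ⟨rfl, rfl⟩ := Prod.ext_iff.1 hb
              exact absurd ⟨a, ha⟩ hex
            · obtain ⟨rfl, rfl⟩ := Prod.ext_iff.1 ha
              exact absurd ⟨b, hb⟩ hex
            · exact (Prod.ext_iff.1 ha).2.trans (Prod.ext_iff.1 hb).2.symm
          · rintro y (hy | rfl)
            · exact hs.2 y hy
            · exact hη1 _
      by_cases hg : Good #T K ζ (X ζ)
      swap
      · exact ⟨s₁, ⟨hs₁, hs₁S⟩, hss₁, ⟨v, hv⟩, fun h => absurd h hg⟩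
      obtain ⟨o1, o2, o3, o4⟩ := ho' s₁ ζ h hs₁ hg
      set o₁ := o ζ (tr {y ∈ s₁ | y.1 < ζ} h) with ho₁
      have hoS : ∀ y ∈ o₁, y.1 ∈ S := fun y hy => by
        refine hSW s₁ hs₁.1 hs₁S (mem_iUnion₂.2 ⟨ζ, ⟨_, hv, rfl⟩, mem_iUnion₂.2 ⟨h, mem_univ _, ?_⟩⟩)
        rw [if_pos ⟨hs₁, hg⟩]
        exact ⟨y, hy, rfl⟩
      have key : ∀ x a b, (x, a) ∈ s₁ → (x, b) ∈ tr o₁ (-h) → a = b := by
        intro x a b ha hb
        have hb' := mem_tr.1 hb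
        have ha' : (x, a + h) ∈ o₁ := o3 ⟨(x, a), ⟨ha, o2 (x, b - -h) hb'⟩, rfl⟩
        have := o1.2 x _ _ ha' hb'
        simpa using this
      refine ⟨s₁ ∪ tr o₁ (-h), ⟨⟨sm_union h0 hs₁.1 (o1.tr _).1, ?_⟩, ?_⟩,
        hss₁.trans subset_union_left, ⟨v, Or.inl hv⟩, fun _ => ⟨o₁, o2, o4, fun y hy => ?_⟩⟩
      · rintro x a b (ha | ha) (hb | hb)
        · exact hs₁.2 x a b ha hb
        · exact key x a b ha hb
        · exact (key x b a hb ha).symm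
        · exact (o1.tr _).2 x a b ha hb
      · rintro y (hy | hy)
        · exact hs₁S y hy
        · exact hoS (y.1, y.2 - -h) (mem_tr.1 hy)
      · exact Or.inr (mem_tr.2 (by simpa using hy)))
  have hfn : ∀ γ γ' x a b, (x, a) ∈ r γ → (x, b) ∈ r γ' → a = b := by
    intro γ γ' x a b ha hb
    rcases lt_trichotomy γ γ' with hl | rfl | hl
    · exact (hr γ').1.1.2 x a b ((hr γ').2.2.1 γ hl ha) hb
    · exact (hr γ).1.1.2 x a b ha hb
    · exact (hr γ).1.1.2 x a b ha ((hr γ).2.2.1 γ' hl hb)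
  have h3 : ∀ i, ∃ v, (η i, v) ∈ r (jT (i, 0)) := fun i => by
    have := (hr (jT (i, 0))).2.2.2.1
    rwa [hσ] at this
  choose p hp using h3
  let idx : Θ × G → T := fun y => if hy : y.1 ∈ S then jS ⟨y.1, hy⟩ else a₀
  have hidx : ∀ γ, ∀ y ∈ r γ, y = (η (idx y), p (idx y)) := by
    intro γ y hy
    have hyS := (hr γ).1.2 y hy
    have e1 : η (idx y) = y.1 := by simp only [idx, dif_pos hyS]; exact hη2 _ _
    refine Prod.ext e1.symm (hfn γ (jT (idx y, 0)) y.1 _ _ hy ?_)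
    rw [← e1]
    exact hp _
  refine ⟨η, p, fun i h => jT (i, h), fun γ => idx '' r γ, fun i j hij => ?_,
    fun γ => sm_image _ (hr γ).1.1.1, fun γ y hy => ?_, fun i h hg => ?_⟩
  · exact hfn _ _ (η i) _ _ (hp i) (hij ▸ hp j)
  · exact ⟨idx y, ⟨y, (hr γ).2.1 hy, rfl⟩, hidx γ y ((hr γ).2.1 hy)⟩
  · have := (hr (jT (i, h))).2.2.2.2
    rw [hσ] at this
    obtain ⟨o', o1, o2, o3⟩ := this hg
    refine ⟨o', o1, o2, fun y hy => ⟨idx (y.1, y.2 - h), ⟨_, o3 y hy, rfl⟩, ?_⟩⟩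
    have e := Prod.ext_iff.1 (hidx _ _ (o3 y hy))
    refine Prod.ext e.1 ?_
    have e2 : y.2 - h = p (idx (y.1, y.2 - h)) := e.2
    show y.2 = p (idx (y.1, y.2 - h)) + h
    rw [← e2, sub_add_cancel]

end Pool.Agent.P.MP_39acbb_lc
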