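import Pool.Agent.P.MP_39acbb_lc.Cols

set_option autoImplicit false
set_option linter.deprecated false

namespace Pool.Agent.P.MP_39acbb_lc

open Cardinal Set

universe u

variable {T : Type u} [LinearOrder T]

/-- The diamond sequence, read as a sequence of functions on `2 ^ κ` many columns. -/
lemma guess_cols (hT : Reg T) (hg : Guess T) {Θ G : Type u} [Zero G] (hG : #G ≤ #T)
    (b : Θ → Set T) (hb : Function.Injective b) :
    ∃ t : T → Θ → G, ∀ (η : T → Θ) (p : T → G), (∀ i j, η i = η j → p i = p j) →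
      ∀ (F : T → Set T), (∀ γ, #(F γ) < #T) → ∀ a,
        ∃ ε, a < ε ∧ (∀ γ < ε, F γ ⊆ Iio ε) ∧ ∀ i < ε, t ε (η i) = p i := by
  classical
  have h0 := hT.inf
  obtain ⟨D, hD⟩ := hg
  have h1 : #(T × (T ⊕ G)) ≤ #T := by
    rw [mk_prod, mk_sum, lift_id, lift_id, lift_id]
    exact mul_le_of_le h0 le_rfl (add_le_of_le h0 le_rfl hG)
  obtain ⟨c⟩ := (le_def _ _).1 h1
  let P : T → Θ → G → Prop := fun ε θ g => ∃ i < ε,
    (∀ β < ε, β ∈ b θ ↔ c (i, Sum.inl β) ∈ D ε) ∧ c (i, Sum.inr g) ∈ D ε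
  refine ⟨fun ε θ => if h : ∃ g, P ε θ g then h.choose else 0, fun η p hp F hF a => ?_⟩
  have h2 : ∀ θ θ' : Θ, ∃ β, θ ≠ θ' → ¬ (β ∈ b θ ↔ β ∈ b θ') := fun θ θ' => by
    by_cases h : θ = θ'
    · exact ⟨a, fun h' => absurd h h'⟩
    · by_contra hcon
      push Not at hcon
      exact h (hb (Set.ext fun β => (hcon β).2))
  choose w hw using h2
  let Z : Set T := c '' {x | match x with
    | (i, Sum.inl β) => β ∈ b (η i)
    | (i, Sum.inr g) => g = p i}
  have hZ1 : ∀ i β, c (i, Sum.inl β) ∈ Z ↔ β ∈ b (η i) := fun i β => by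
    rw [c.injective.mem_set_image]; rfl
  have hZ2 : ∀ i g, c (i, Sum.inr g) ∈ Z ↔ g = p i := fun i g => by
    rw [c.injective.mem_set_image]; rfl
  obtain ⟨ε, hε, hcl, hZ⟩ := hD Z (fun γ => F γ ∪ ({c (γ, Sum.inr (p γ))} ∪
    ((fun x : T × T => c (x.1, Sum.inl x.2)) '' (Iic γ ×ˢ Iic γ) ∪
      (fun x : T × T => w (η x.1) (η x.2)) '' (Iic γ ×ˢ Iic γ))))
    (fun γ => sm_union h0 (hF γ) (sm_union h0 (sm_single h0 _) (sm_union h0
      (sm_image _ (sm_prod h0 (hT.iic γ) (hT.iic γ)))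
      (sm_image _ (sm_prod h0 (hT.iic γ) (hT.iic γ)))))) a
  have c1 : ∀ i < ε, c (i, Sum.inr (p i)) < ε := fun i hi => hcl i hi (Or.inr (Or.inl rfl))
  have c2 : ∀ i < ε, ∀ β < ε, c (i, Sum.inl β) < ε := fun i hi β hβ =>
    hcl (max i β) (max_lt hi hβ) (Or.inr (Or.inr (Or.inl
      ⟨(i, β), ⟨le_max_left i β, le_max_right i β⟩, rfl⟩)))
  have c3 : ∀ i < ε, ∀ j < ε, w (η i) (η j) < ε := fun i hi j hj =>
    hcl (max i j) (max_lt hi hj) (Or.inr (Or.inr (Or.inr
      ⟨(i, j), ⟨le_max_left i j, le_max_right i j⟩, rfl⟩)))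
  have d1 : ∀ i < ε, ∀ β < ε, (β ∈ b (η i) ↔ c (i, Sum.inl β) ∈ D ε) := fun i hi β hβ => by
    rw [← hZ, mem_inter_iff, hZ1]
    exact ⟨fun h => ⟨h, c2 i hi β hβ⟩, fun h => h.1⟩
  refine ⟨ε, hε, fun γ hγ => subset_union_left.trans (hcl γ hγ), fun i hi => ?_⟩
  have hex : ∃ g, P ε (η i) g := ⟨p i, i, hi, d1 i hi, by
    rw [← hZ]; exact ⟨(hZ2 _ _).2 rfl, c1 i hi⟩⟩
  show (if h : ∃ g, P ε (η i) g then h.choose else 0) = p i
  rw [dif_pos hex]
  obtain ⟨j, hj, e1, e2⟩ := hex.choose_spec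
  rw [← hZ] at e2
  rw [(hZ2 _ _).1 e2.1]
  apply hp
  by_contra hne
  have := c3 j hj i hi
  exact hw _ _ hne ((d1 j hj _ this).trans (e1 _ this).symm)

theorem nodec_of_guess [WellFoundedLT T] (hT : Reg T) (hun : ℵ₀ < #T) (hg : Guess T) :
    Nodec (T →₀ ZMod 2) := by
  classical
  have h0 := hT.inf
  have hc := hg.cnt hT
  have hG := mk_G_le hT
  have hθ : ℵ₀ ≤ 2 ^ #T := h0.trans (cantor _).le
  let Θ := (2 ^ #T : Cardinal.{u}).ord.ToType
  have hΘ : #Θ = 2 ^ #T := mk_ord_toType _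
  have hne : Nonempty Θ := by
    rw [← mk_ne_zero_iff, hΘ]; exact (aleph0_pos.trans_le hθ).ne'
  have := hT.nonempty
  obtain ⟨b⟩ : Nonempty (Θ ↪ Set T) := (le_def _ _).1 (by rw [hΘ, mk_set])
  obtain ⟨t, ht⟩ := guess_cols hT hg hG b b.injective
  obtain ⟨f, hf⟩ := book hθ (Y := Set (T →₀ ZMod 2) × T) (by
    rw [mk_prod, lift_id, lift_id, mk_set]
    exact mul_le_of_le hθ (power_le_power_left two_ne_zero hG) (cantor _).le)
  let X : Θ → Set (T →₀ ZMod 2) := fun η => (f η).1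
  let α : Θ → T := fun η => (f η).2
  let A : (Θ → AddSubgroup (T →₀ ZMod 2)) → Θ → Set T := fun K η =>
    {ε | α η ≤ ε ∧ t ε η ∈ H ε ∧
      (Good #T K η (X η) → ∀ h ∈ H ε, Finsupp.single ε (1 : ZMod 2) + h ∉ X η)}
  let k : Θ → T → (T →₀ ZMod 2) := fun η ε => Finsupp.single ε (1 : ZMod 2) - t ε η
  obtain ⟨K, hK'⟩ := col_rec (Θ := Θ) (fun η K' => AddSubgroup.closure (k η '' A K' η))
  have hK : ∀ η, K η = AddSubgroup.closure (k η '' A K η) := fun η => by
    obtain ⟨K', h1, h2⟩ := hK' η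
    rw [h2]
    simp only [A, Good_congr h1]
  have htop : ∀ η, ∀ x ∈ K η, x = 0 ∨ ∃ ε ∈ A K η, x - Finsupp.single ε (1 : ZMod 2) ∈ H ε := by
    intro η x hx
    rw [hK] at hx
    rcases top_lemma bool_G (k η) (A K η) H (fun i hi j hij =>
      sub_mem (single_mem_H hij) (H_mono hij.le hi.2.1)) hx with h | ⟨ε, hε, h⟩
    · exact Or.inl h
    · refine Or.inr ⟨ε, hε, ?_⟩
      have := sub_mem h hε.2.1
      simp only [k] at this
      convert this using 1
      abel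
  refine final hT.reg hc hG K (fun X₀ S hS => ?_) (fun q hq g₀ => ?_) (fun g hg0 => ?_)
  · obtain ⟨b₀, hb₀⟩ := bdd_toType S (hS.trans_lt (lt_cof_ord_power h0 (by norm_num)))
    obtain ⟨η, hη, hfη⟩ := hf (X₀, Classical.arbitrary T) b₀
    refine ⟨η, fun ζ hζ => (hb₀ ζ hζ).trans hη, fun hgd c => ?_⟩
    have hX : X η = X₀ := congrArg Prod.fst hfη
    obtain ⟨a, ha⟩ := exists_mem_H hT c
    refine sm_mono ?_ (sm_supp hun (hT.init a))
    rintro g ⟨hgX, hgK⟩ β hβ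
    have hga : g ∈ H a := by
      rcases htop η _ hgK with h | ⟨ε, hε, h⟩
      · rw [sub_eq_zero.1 h]; exact ha
      · rcases le_or_gt a ε with hl | hl
        · exfalso
          refine hε.2.2 (hX ▸ hgd) _ (add_mem h (H_mono hl ha)) ?_
          rw [hX]
          convert hgX using 1
          abel
        · have := add_mem (add_mem (H_mono hl.le h) (single_mem_H hl)) ha
          simpa using this
    exact hga β (not_lt.1 hβ)
  · obtain ⟨η, p, τ, R, e1, e2, e3, e4⟩ := generic_chain hT hc hG K X q hq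
    obtain ⟨a, ha⟩ := exists_mem_H hT g₀
    obtain ⟨ε, hε, hcl, hte⟩ := ht η p e1 (fun γ => R γ ∪ ({α (η γ)} ∪ ((p γ).support ∪
      (fun x : T × (T →₀ ZMod 2) => τ x.1 x.2) ''
        (Iic γ ×ˢ {g : T →₀ ZMod 2 | ∀ β, β ∉ Iic γ → g β = 0}))))
      (fun γ => sm_union h0 (e2 γ) (sm_union h0 (sm_single h0 _) (sm_union h0
        (sm_finite h0 (Finset.finite_toSet _))
        (sm_image _ (sm_prod h0 (hT.iic γ) (sm_supp hun (hT.iic γ))))))) a
    have key : ∀ ζ : Θ, ∀ i < ε, η i = ζ → ε ∈ A K ζ := by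
      intro ζ
      induction ζ using WellFoundedLT.induction with
      | ind ζ ih =>
        rintro i hi rfl
        refine ⟨le_of_lt (hcl i hi (Or.inr (Or.inl rfl))), ?_, fun hgd h hh => ?_⟩
        · rw [hte i hi]
          intro β hβ
          by_contra hne
          exact absurd (hcl i hi (Or.inr (Or.inr (Or.inl (Finsupp.mem_support_iff.2 hne)))))
            (not_lt.2 hβ)
        · obtain ⟨γ, hγ, hiγ, hh'⟩ := H_bound hi hh
          have hτ : τ i h < ε := hcl γ hγ (Or.inr (Or.inr (Or.inr ⟨(i, h), ⟨hiγ, hh'⟩, rfl⟩)))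
          obtain ⟨o, o1, o2, o3⟩ := e4 i h hgd
          refine o2 _ fun y hy => ?_
          obtain ⟨j, hj, rfl⟩ := o3 y hy
          have hjε : j < ε := hcl _ hτ (Or.inl hj)
          have hA := ih (η j) (o1 _ hy) j hjε rfl
          have : k (η j) ε ∈ K (η j) := by
            rw [hK]; exact AddSubgroup.subset_closure ⟨ε, hA, rfl⟩
          simp only [k, hte j hjε] at this
          show Finsupp.single ε 1 + h - (p j + h) ∈ K (η j)
          rwa [add_sub_add_right_eq_sub]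
    refine ⟨Finsupp.single ε 1, fun y hy => ?_, fun h => ?_⟩
    · obtain ⟨j, hj, rfl⟩ := e3 a y hy
      have hjε : j < ε := hcl _ hε (Or.inl hj)
      have : k (η j) ε ∈ K (η j) := by
        rw [hK]; exact AddSubgroup.subset_closure ⟨ε, key _ j hjε rfl, rfl⟩
      simpa only [k, hte j hjε] using this
    · exact single_not_mem_H ε (h ▸ H_mono hε.le ha)
  · obtain ⟨a, ha⟩ := exists_mem_H hT g
    obtain ⟨η, -, hfη⟩ := hf (∅, a) (Classical.arbitrary Θ)
    have hα : α η = a := congrArg Prod.snd hfη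
    refine ⟨η, fun hgK => ?_⟩
    rcases htop η _ hgK with h | ⟨ε, hε, h⟩
    · exact hg0 h
    · have := sub_mem (H_mono (hα ▸ hε.1 : a ≤ ε) ha) h
      exact single_not_mem_H ε (by simpa using this)

/-- The usual diamond principle implies the form used above. -/
lemma guess_of_diamond [WellFoundedLT T] (hT : Reg T) (hun : ℵ₀ < #T) (D : T → Set T)
    (hD : ∀ Z : Set T, IsStationary {ε | Z ∩ Iio ε = D ε}) : Guess T := by
  refine ⟨D, fun Z F hF a => ?_⟩
  have hcl : IsClub {ε | a < ε ∧ ∀ γ < ε, F γ ⊆ Iio ε} := by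
    constructor
    · intro s hs hne _ x hx
      obtain ⟨y, hy⟩ := hne
      refine ⟨(hs hy).1.trans_le (hx.1 hy), fun γ hγ => ?_⟩
      obtain ⟨z, hz, hγz, -⟩ := hx.exists_between hγ
      exact fun w hw => lt_of_lt_of_le ((hs hz).2 γ hγz hw) (hx.1 hz)
    · intro x
      have h1 : ∀ y, ∃ z, y < z ∧ ∀ γ ≤ y, F γ ⊆ Iio z := fun y => by
        obtain ⟨z, hz⟩ := hT.bdd ({y} ∪ ⋃ γ ∈ Iic y, F γ) (sm_union hT.inf (sm_single hT.inf _)
          (sm_biUnion hT.reg (hT.iic y) fun γ _ => hF γ))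
        exact ⟨z, hz y (Or.inl rfl), fun γ hγ w hw => hz w (Or.inr (mem_iUnion₂.2 ⟨γ, hγ, hw⟩))⟩
      choose f hf using h1
      let g : ℕ → T := fun n => f^[n] (max a x)
      have hg : ∀ n, g (n + 1) = f (g n) := fun n => Function.iterate_succ_apply' _ _ _
      have hne : {z | ∀ n, g n < z}.Nonempty := by
        obtain ⟨z, hz⟩ := hT.bdd (range g)
          (lt_of_le_of_lt (le_aleph0_iff_set_countable.2 (countable_range g)) hun)
        exact ⟨z, fun n => hz _ ⟨n, rfl⟩⟩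
      let ε := wellFounded_lt.min _ hne
      have hε : ∀ n, g n < ε := wellFounded_lt.min_mem _ hne
      refine ⟨ε, ⟨(le_max_left a x).trans_lt (hε 0), fun γ hγ => ?_⟩,
        ((le_max_right a x).trans_lt (hε 0)).le⟩
      have : ∃ n, γ ≤ g n := by
        by_contra hcon
        push Not at hcon
        exact wellFounded_lt.not_lt_min {z | ∀ n, g n < z} (x := γ) hcon hγ
      obtain ⟨n, hn⟩ := this
      exact fun w hw => lt_trans ((hf (g n)).2 γ hn hw) (hg n ▸ hε (n + 1))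
  obtain ⟨ε, h1, h2⟩ := hD Z hcl
  exact ⟨ε, h2.1, h2.2, h1⟩

end Pool.Agent.P.MP_39acbb_lc
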