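import Pool.Agent.P.MP_39acbb_lc.Basic

set_option autoImplicit false
set_option linter.deprecated false

namespace Pool.Agent.P.MP_39acbb_lc

open Cardinal Set Topology

universe u

section
variable {Θ G : Type u}

/-- `c` is the graph of a function. -/
def Fn (c : Set (Θ × G)) : Prop := ∀ x a b, (x, a) ∈ c → (x, b) ∈ c → a = b

/-- conditions: small graphs of functions -/
def Cond (κ : Cardinal.{u}) (c : Set (Θ × G)) : Prop := #c < κ ∧ Fn c

lemma Cond.mono {κ : Cardinal.{u}} {c d : Set (Θ × G)} (h : Cond κ d) (hcd : c ⊆ d) : Cond κ c :=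
  ⟨sm_mono hcd h.1, fun x a b ha hb => h.2 x a b (hcd ha) (hcd hb)⟩

variable [AddCommGroup G]

/-- the basic open set of a condition -/
def U (K : Θ → AddSubgroup G) (c : Set (Θ × G)) : Set G := {g | ∀ p ∈ c, g - p.2 ∈ K p.1}

lemma U_anti (K : Θ → AddSubgroup G) {c d : Set (Θ × G)} (h : c ⊆ d) : U K d ⊆ U K c :=
  fun _ hg p hp => hg p (h hp)

/-- translate of a condition -/
def tr (c : Set (Θ × G)) (h : G) : Set (Θ × G) := (fun p => (p.1, p.2 + h)) '' c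

lemma mem_tr {c : Set (Θ × G)} {h : G} {p : Θ × G} : p ∈ tr c h ↔ (p.1, p.2 - h) ∈ c := by
  constructor
  · rintro ⟨p', hp', rfl⟩
    simpa using hp'
  · intro hp
    exact ⟨_, hp, by simp⟩

lemma Cond.tr {κ : Cardinal.{u}} {c : Set (Θ × G)} (hc : Cond κ c) (h : G) : Cond κ (tr c h) := by
  refine ⟨sm_image _ hc.1, fun x a b ha hb => ?_⟩
  have := hc.2 x _ _ (mem_tr.1 ha) (mem_tr.1 hb)
  simpa using this

lemma mem_U_tr {K : Θ → AddSubgroup G} {c : Set (Θ × G)} {h g : G} :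
    g ∈ U K (tr c h) ↔ g - h ∈ U K c := by
  constructor
  · intro hg p hp
    have := hg (p.1, p.2 + h) ⟨p, hp, rfl⟩
    simpa [sub_sub, add_comm] using this
  · rintro hg _ ⟨p, hp, rfl⟩
    have := hg p hp
    simpa [sub_sub, add_comm] using this

variable [LinearOrder Θ]

/-- `X` is nowhere dense for the topology given by the columns below `η` (in strong form). -/
def Good (κ : Cardinal.{u}) (K : Θ → AddSubgroup G) (η : Θ) (X : Set G) : Prop :=
  ∀ q : Set (Θ × G), Cond κ q → (∀ p ∈ q, p.1 < η) →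
    ∃ o : Set (Θ × G), Cond κ o ∧ (∀ p ∈ o, p.1 < η) ∧ q ⊆ o ∧ ∀ g ∈ U K o, g ∉ X

lemma U_congr {K K' : Θ → AddSubgroup G} {η : Θ} (h : ∀ ζ < η, K ζ = K' ζ) {o : Set (Θ × G)}
    (ho : ∀ p ∈ o, p.1 < η) : U K o = U K' o := by
  ext g
  exact forall₂_congr fun p hp => by rw [h _ (ho p hp)]

lemma Good_congr {κ : Cardinal.{u}} {K K' : Θ → AddSubgroup G} {η : Θ} (h : ∀ ζ < η, K ζ = K' ζ)
    (X : Set G) : Good κ K η X ↔ Good κ K' η X := by
  refine forall_congr' fun q => forall_congr' fun _ => forall_congr' fun _ =>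
    exists_congr fun o => and_congr_right fun _ => and_congr_right fun ho => ?_
  rw [U_congr h ho]

/-- Recursive definition of the columns. -/
lemma col_rec [WellFoundedLT Θ] (Φ : Θ → (Θ → AddSubgroup G) → AddSubgroup G) :
    ∃ K : Θ → AddSubgroup G, ∀ η, ∃ K' : Θ → AddSubgroup G,
      (∀ ζ < η, K' ζ = K ζ) ∧ K η = Φ η K' := by
  classical
  let K : Θ → AddSubgroup G := (wellFounded_lt (α := Θ)).fix
    (fun η rec => Φ η (fun ζ => if h : ζ < η then rec ζ h else ⊤))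
  refine ⟨K, fun η => ⟨fun ζ => if ζ < η then K ζ else ⊤, fun ζ h => by simp [h], ?_⟩⟩
  show (wellFounded_lt (α := Θ)).fix _ η = _
  rw [WellFounded.fix_eq]
  congr 1

end

/-- The conclusion: a non-discrete Hausdorff group topology on `G` all of whose nowhere dense sets
are closed and discrete. -/
def Nodec (G : Type u) [AddCommGroup G] : Prop :=
  ∃ _ : TopologicalSpace G, IsTopologicalAddGroup G ∧ T2Space G ∧ ¬ DiscreteTopology G ∧
    ∀ X : Set G, IsNowhereDense X → ∀ x : G, ∃ V ∈ 𝓝 x, V ∩ X ⊆ {x}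

theorem final {κ : Cardinal.{u}} (hκ : κ.IsRegular) (hc : Cnt κ) {Θ G : Type u} [LinearOrder Θ]
    [AddCommGroup G] (hG : #G ≤ κ) (K : Θ → AddSubgroup G)
    (book : ∀ (X : Set G) (A : Set Θ), #A ≤ κ → ∃ η, (∀ ζ ∈ A, ζ < η) ∧
      (Good κ K η X → ∀ c, #{g | g ∈ X ∧ g - c ∈ K η} < κ))
    (ne : ∀ q : Set (Θ × G), Cond κ q → ∀ g₀, ∃ g ∈ U K q, g ≠ g₀)
    (sep : ∀ g : G, g ≠ 0 → ∃ η, g ∉ K η) : Nodec G := by
  classical
  have h0 := hκ.aleph0_le
  let N : Set Θ → Set G := fun s => {g | ∀ ζ ∈ s, g ∈ K ζ}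
  let B : AddGroupFilterBasis G := addGroupFilterBasisOfComm {V | ∃ s : Set Θ, #s < κ ∧ V = N s}
    ⟨N ∅, ∅, sm_finite h0 finite_empty, rfl⟩
    (by
      rintro _ _ ⟨s, hs, rfl⟩ ⟨t, ht, rfl⟩
      exact ⟨N (s ∪ t), ⟨_, sm_union h0 hs ht, rfl⟩,
        fun g hg => ⟨fun ζ h => hg ζ (Or.inl h), fun ζ h => hg ζ (Or.inr h)⟩⟩)
    (by rintro _ ⟨s, -, rfl⟩ ζ -; exact zero_mem _)
    (by
      rintro _ ⟨s, hs, rfl⟩
      refine ⟨N s, ⟨s, hs, rfl⟩, ?_⟩
      rintro _ ⟨a, ha, b, hb, rfl⟩ ζ h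
      exact add_mem (ha ζ h) (hb ζ h))
    (by
      rintro _ ⟨s, hs, rfl⟩
      exact ⟨N s, ⟨s, hs, rfl⟩, fun g hg ζ h => neg_mem (hg ζ h)⟩)
  have hBm : ∀ V, V ∈ B ↔ ∃ s : Set Θ, #s < κ ∧ V = N s := fun V => Iff.rfl
  let _ : TopologicalSpace G := B.topology
  have hnh : ∀ (x : G) (V : Set G), V ∈ 𝓝 x ↔
      ∃ s : Set Θ, #s < κ ∧ ∀ g, (∀ ζ ∈ s, g - x ∈ K ζ) → g ∈ V := by
    intro x V
    rw [(B.nhds_hasBasis x).mem_iff]
    constructor
    · rintro ⟨_, ⟨s, hs, rfl⟩, h⟩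
      exact ⟨s, hs, fun g hg => h ⟨g - x, hg, by simp⟩⟩
    · rintro ⟨s, hs, h⟩
      refine ⟨N s, ⟨s, hs, rfl⟩, ?_⟩
      rintro _ ⟨g, hg, rfl⟩
      exact h _ fun ζ hζ => by simpa using hg ζ hζ
  refine ⟨B.topology, B.isTopologicalAddGroup, ?_, ?_, ?_⟩
  · rw [B.t2Space_iff_sInter_subset rfl]
    intro g hg
    by_contra hg0
    obtain ⟨η, hη⟩ := sep g hg0
    exact hη (hg (N {η}) ⟨_, sm_single h0 η, rfl⟩ η rfl)
  · intro hd
    obtain ⟨s, hs, h⟩ := (hnh 0 {0}).1 ((isOpen_discrete _).mem_nhds rfl)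
    obtain ⟨g, hg, hg0⟩ := ne ((fun ζ => (ζ, (0 : G))) '' s)
      ⟨sm_image _ hs, by
        rintro x a b ⟨_, -, ha⟩ ⟨_, -, hb⟩
        exact (Prod.ext_iff.1 ha).2.symm.trans (Prod.ext_iff.1 hb).2⟩ 0
    exact hg0 (h g fun ζ hζ => hg (ζ, 0) ⟨ζ, hζ, rfl⟩)
  · intro X hX x
    have h1 : ∀ q : Set (Θ × G), ∃ o : Set (Θ × G), Cond κ q →
        (Cond κ o ∧ q ⊆ o ∧ ∀ g ∈ U K o, g ∉ X) := by
      intro q
      by_cases hq : Cond κ q
      swap
      · exact ⟨q, fun h => absurd h hq⟩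
      have hopen : IsOpen (U K q) := by
        rw [isOpen_iff_mem_nhds]
        intro g hg
        refine (hnh g _).2 ⟨Prod.fst '' q, sm_image _ hq.1, fun y hy p hp => ?_⟩
        have := add_mem (hy p.1 ⟨p, hp, rfl⟩) (hg p hp)
        simpa using this
      obtain ⟨g₁, hg₁, -⟩ := ne q hq 0
      have : ¬ U K q ⊆ closure X := fun h => by
        have h2 := interior_maximal h hopen hg₁
        rw [hX] at h2
        exact h2
      obtain ⟨g, hg, hgX⟩ := not_subset.1 this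
      obtain ⟨s, hs, h⟩ := (hnh g _).1 (isClosed_closure.isOpen_compl.mem_nhds hgX)
      refine ⟨q ∪ (fun ζ => (ζ, g)) '' (s \ Prod.fst '' q), fun _ => ⟨⟨?_, ?_⟩, subset_union_left, ?_⟩⟩
      · exact sm_union h0 hq.1 (sm_image _ (sm_mono diff_subset hs))
      · rintro z a b (ha | ⟨ζ, hζ, ha⟩) (hb | ⟨ζ', hζ', hb⟩)
        · exact hq.2 z a b ha hb
        · obtain ⟨rfl, rfl⟩ := Prod.ext_iff.1 hb
          exact absurd ⟨_, ha, rfl⟩ hζ'.2
        · obtain ⟨rfl, rfl⟩ := Prod.ext_iff.1 ha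
          exact absurd ⟨_, hb, rfl⟩ hζ.2
        · exact (Prod.ext_iff.1 ha).2.symm.trans (Prod.ext_iff.1 hb).2
      · intro y hy hyX
        refine h y (fun ζ hζ => ?_) (subset_closure hyX)
        by_cases hz : ζ ∈ Prod.fst '' q
        · obtain ⟨p, hp, rfl⟩ := hz
          have := sub_mem (hy p (Or.inl hp)) (hg p hp)
          simpa using this
        · exact hy (ζ, g) (Or.inr ⟨ζ, ⟨hζ, hz⟩, rfl⟩)
    choose o ho using h1
    obtain ⟨A, -, hA, hAW⟩ := close_off hκ hc hG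
      (fun q : Set (Θ × G) => if Cond κ q then Prod.fst '' o q else ∅)
      (fun q _ => by
        split_ifs with h
        · exact (sm_image _ (ho q h).1.1).le
        · simp) ∅ (by simp)
    obtain ⟨η, hη, hgood⟩ := book X A hA
    have hgd : Good κ K η X := by
      intro q hq hqη
      have hq' : Cond κ {p ∈ q | p.1 ∈ A} := hq.mono (sep_subset _ _)
      have hsub := hAW _ hq'.1 (fun p hp => hp.2)
      rw [if_pos hq'] at hsub
      obtain ⟨ho1, ho2, ho3⟩ := ho _ hq'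
      refine ⟨q ∪ o {p ∈ q | p.1 ∈ A}, ⟨sm_union h0 hq.1 ho1.1, ?_⟩, ?_, subset_union_left, ?_⟩
      · rintro z a b (ha | ha) (hb | hb)
        · exact hq.2 z a b ha hb
        · exact ho1.2 z a b (ho2 ⟨ha, hsub ⟨_, hb, rfl⟩⟩) hb
        · exact ho1.2 z a b ha (ho2 ⟨hb, hsub ⟨_, ha, rfl⟩⟩)
        · exact ho1.2 z a b ha hb
      · rintro p (hp | hp)
        · exact hqη p hp
        · exact hη _ (hsub ⟨_, hp, rfl⟩)
      · exact fun g hg => ho3 g (U_anti K subset_union_right hg)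
    have hsm := hgood hgd x
    have h2 : ∀ g : G, ∃ ζ, g ≠ x → g - x ∉ K ζ := fun g => by
      by_cases hg : g = x
      · exact ⟨η, fun h => absurd hg h⟩
      · obtain ⟨ζ, hζ⟩ := sep (g - x) (sub_ne_zero.2 hg)
        exact ⟨ζ, fun _ => hζ⟩
    choose z hz using h2
    refine ⟨{g | ∀ ζ ∈ {η} ∪ z '' {g | g ∈ X ∧ g - x ∈ K η}, g - x ∈ K ζ},
      (hnh x _).2 ⟨_, sm_union h0 (sm_single h0 η) (sm_image z hsm), fun g hg => hg⟩, ?_⟩
    rintro g ⟨hg, hgX⟩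
    by_contra hgx
    exact hz g hgx (hg _ (Or.inr ⟨g, ⟨hgX, hg η (Or.inl rfl)⟩, rfl⟩))

end Pool.Agent.P.MP_39acbb_lc
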