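import Pool.Agent.P.MP_39acbb_lc.Basic

/-! Closure points, ladders, club guessing and splitting into stationary sets. -/

set_option autoImplicit false
set_option linter.deprecated false
set_option linter.unusedSectionVars false

namespace Pool.Agent.P.MP_39acbb_lc

open Cardinal Set

universe u

variable {T : Type u} [LinearOrder T]

/-- `δ` is a closure point of `F`. -/
def Cl (F : T → Set T) (δ : T) : Prop := ∀ γ < δ, F γ ⊆ Iio δ

/-- `F` has small values. -/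
def Sm (F : T → Set T) : Prop := ∀ γ, #(F γ) < #T

/-- `x` is an increasing sequence with limit `b`. -/
def Lad (x : ℕ → T) (b : T) : Prop := StrictMono x ∧ (∀ n, x n < b) ∧ ∀ γ < b, ∃ n, γ < x n

lemma Cl.mono {F F' : T → Set T} (h : ∀ γ, F γ ⊆ F' γ) {δ : T} (hδ : Cl F' δ) : Cl F δ :=
  fun γ hγ => (h γ).trans (hδ γ hγ)

lemma Lad.cl {F : T → Set T} {x : ℕ → T} {b : T} (h : Lad x b) (hx : ∀ n, Cl F (x n)) :
    Cl F b := fun γ hγ y hy => by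
  obtain ⟨n, hn⟩ := h.2.2 γ hγ
  exact lt_trans (hx n γ hn hy) (h.2.1 n)

lemma Lad.ev {x : ℕ → T} {b : T} (h : Lad x b) {γ : T} (hγ : γ < b) :
    ∀ᶠ n in Filter.atTop, γ < x n := by
  obtain ⟨n, hn⟩ := h.2.2 γ hγ
  exact Filter.eventually_atTop.2 ⟨n, fun m hm => hn.trans_le (h.1.monotone hm)⟩

lemma Lad.shift {x : ℕ → T} {b : T} (h : Lad x b) (k : ℕ) : Lad (fun n => x (n + k)) b :=
  ⟨fun _ _ hl => h.1 (by omega), fun _ => h.2.1 _, fun γ hγ => by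
    obtain ⟨n, hn⟩ := h.2.2 γ hγ
    exact ⟨n, hn.trans_le (h.1.monotone (by omega))⟩⟩

lemma sm_seq {κ : Cardinal.{u}} (hκ : κ.IsRegular) (hun : ℵ₀ < κ) {Y : Type u} {t : ℕ → Set Y}
    (ht : ∀ n, #(t n) < κ) : #(⋃ n, t n : Set Y) < κ := by
  have := sm_biUnion hκ (s := (univ : Set (ULift.{u} ℕ))) (t := fun n => t n.down)
    (by simpa using hun) fun n _ => ht n.down
  refine sm_mono (fun y hy => ?_) this
  obtain ⟨n, hn⟩ := mem_iUnion.1 hy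
  exact mem_iUnion₂.2 ⟨⟨n⟩, mem_univ _, hn⟩

lemma bdd_seq (hT : Reg T) (hun : ℵ₀ < #T) (g : ℕ → T) : ∃ z, ∀ n, g n < z := by
  obtain ⟨z, hz⟩ := hT.bdd (range g)
    (lt_of_le_of_lt (le_aleph0_iff_set_countable.2 (countable_range g)) hun)
  exact ⟨z, fun n => hz _ ⟨n, rfl⟩⟩

/-- a ladder inside a cofinal set -/
lemma Lad.sub {L : ℕ → T} {b : T} (h : Lad L b) {C : Set T} (hC : ∀ γ < b, ∃ δ ∈ C, γ < δ ∧ δ < b)
    {a : T} (ha : a < b) : ∃ y, a < y 0 ∧ Lad y b ∧ ∀ n, y n ∈ C := by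
  have h1 : ∀ γ, ∃ δ, γ < b → δ ∈ C ∧ γ < δ ∧ δ < b := fun γ => by
    by_cases hγ : γ < b
    · obtain ⟨δ, h⟩ := hC γ hγ
      exact ⟨δ, fun _ => h⟩
    · exact ⟨γ, fun h => absurd h hγ⟩
  choose f hf using h1
  let y : ℕ → T := fun n => Nat.rec (f a) (fun n z => f (max z (L n))) n
  have hy : ∀ n, y (n + 1) = f (max (y n) (L n)) := fun _ => rfl
  have h2 : ∀ n, y n ∈ C ∧ y n < b := fun n => by
    induction n with
    | zero => exact ⟨(hf a ha).1, (hf a ha).2.2⟩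
    | succ n ih =>
      have := hf _ (max_lt ih.2 (h.2.1 n))
      exact ⟨this.1, this.2.2⟩
  have h3 : ∀ n, max (y n) (L n) < y (n + 1) := fun n => (hf _ (max_lt (h2 n).2 (h.2.1 n))).2.1
  refine ⟨y, (hf a ha).2.1, ⟨strictMono_nat_of_lt_succ fun n => (le_max_left _ _).trans_lt (h3 n),
    fun n => (h2 n).2, fun γ hγ => ?_⟩, fun n => (h2 n).1⟩
  obtain ⟨n, hn⟩ := h.2.2 γ hγ
  exact ⟨n + 1, hn.trans ((le_max_right _ _).trans_lt (h3 n))⟩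

variable [WellFoundedLT T]

lemma exists_lad (hT : Reg T) (hun : ℵ₀ < #T) {x : ℕ → T} (hx : StrictMono x) : ∃ b, Lad x b := by
  have hne : {z | ∀ n, x n < z}.Nonempty := bdd_seq hT hun x
  refine ⟨wellFounded_lt.min _ hne, hx, wellFounded_lt.min_mem _ hne, fun γ hγ => ?_⟩
  by_contra hcon
  push Not at hcon
  exact wellFounded_lt.not_lt_min {z | ∀ n, x n < z} (x := γ)
    (fun n => (hx (Nat.lt_succ_self n)).trans_le (hcon _)) hγ

lemma exists_cl (hT : Reg T) (hun : ℵ₀ < #T) {F : T → Set T} (hF : Sm F) (a : T) :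
    ∃ x b, a < b ∧ Lad x b ∧ Cl F b := by
  have h1 : ∀ y, ∃ z, y < z ∧ ∀ γ ≤ y, F γ ⊆ Iio z := fun y => by
    obtain ⟨z, hz⟩ := hT.bdd ({y} ∪ ⋃ γ ∈ Iic y, F γ) (sm_union hT.inf (sm_single hT.inf _)
      (sm_biUnion hT.reg (hT.iic y) fun γ _ => hF γ))
    exact ⟨z, hz y (Or.inl rfl), fun γ hγ w hw => hz w (Or.inr (mem_iUnion₂.2 ⟨γ, hγ, hw⟩))⟩
  choose f hf using h1
  let g : ℕ → T := fun n => f^[n] a
  have hg : ∀ n, g (n + 1) = f (g n) := fun n => Function.iterate_succ_apply' _ _ _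
  obtain ⟨b, hb⟩ := exists_lad hT hun (x := g)
    (strictMono_nat_of_lt_succ fun n => hg n ▸ (hf _).1)
  refine ⟨g, b, hb.2.1 0, hb, fun γ hγ w hw => ?_⟩
  obtain ⟨n, hn⟩ := hb.2.2 γ hγ
  exact lt_trans ((hf (g n)).2 γ hn.le hw) (hg n ▸ hb.2.1 (n + 1))

/-- closure points of `F'` are limits of closure points of `F` -/
lemma exists_acc (hT : Reg T) (hun : ℵ₀ < #T) {F : T → Set T} (hF : Sm F) :
    ∃ F', Sm F' ∧ ∀ b, Cl F' b → ∀ γ < b, ∃ δ ∈ {δ | Cl F δ}, γ < δ ∧ δ < b := by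
  choose x f hf using exists_cl hT hun hF
  exact ⟨fun γ => {f γ}, fun γ => sm_single hT.inf _,
    fun b hb γ hγ => ⟨f γ, (hf γ).2.2, (hf γ).1, hb γ hγ rfl⟩⟩

lemma exists_L : ∃ L : T → ℕ → T, ∀ x b, Lad x b → Lad (L b) b := by
  classical
  refine ⟨fun b => if h : ∃ x, Lad x b then h.choose else fun _ => b, fun x b h => ?_⟩
  have h' : ∃ x, Lad x b := ⟨x, h⟩
  simp only [dif_pos h']
  exact h'.choose_spec

lemma exists_drop (F : T → Set T) (γ : T) :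
    ∃ z, z ≤ γ ∧ Cl F z ∧ ∀ δ ≤ γ, Cl F δ → δ ≤ z := by
  have hne : {z | ∀ δ ≤ γ, Cl F δ → δ ≤ z}.Nonempty := ⟨γ, fun δ h _ => h⟩
  have hm := wellFounded_lt.min_mem _ hne
  refine ⟨wellFounded_lt.min _ hne, not_lt.1 (wellFounded_lt.not_lt_min _ fun δ h _ => h),
    fun β hβ w hw => ?_, hm⟩
  have : ∃ δ ≤ γ, Cl F δ ∧ β < δ := by
    by_contra hcon
    push Not at hcon
    exact wellFounded_lt.not_lt_min {z | ∀ δ ≤ γ, Cl F δ → δ ≤ z} (x := β) hcon hβ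
  obtain ⟨δ, h1, h2, h3⟩ := this
  exact lt_of_lt_of_le (h2 β h3 hw) (hm δ h1 h2)

/-- Club guessing on points of countable cofinality. -/
theorem club_guess (hT : Reg T) (h1 : ℵ₁ < #T) :
    ∃ d : T → ℕ → T, ∀ F, Sm F → ∀ a, ∃ ε, a < ε ∧ Lad (d ε) ε ∧ ∀ n, Cl F (d ε n) := by
  classical
  have hun : ℵ₀ < #T := aleph0_lt_aleph_one.trans h1
  obtain ⟨L, hL⟩ := exists_L (T := T)
  choose dr hd1 hd2 hd3 using exists_drop (T := T)
  suffices h : ∃ F₀, ∀ F, Sm F → ∀ a, ∃ ε, a < ε ∧ Lad (L ε) ε ∧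
      (∀ γ < ε, ∃ δ ∈ {δ | Cl F₀ δ}, γ < δ ∧ δ < ε) ∧ ∀ n, Cl F (dr F₀ (L ε n)) by
    obtain ⟨F₀, h⟩ := h
    refine ⟨fun ε => if h : ∃ y, Lad y ε ∧ ∀ n, y n ∈ range fun m => dr F₀ (L ε m) then h.choose
      else fun _ => ε, fun F hF a => ?_⟩
    obtain ⟨ε, e1, e2, e3, e4⟩ := h F hF a
    have h' : ∃ y, Lad y ε ∧ ∀ n, y n ∈ range fun m => dr F₀ (L ε m) := by
      obtain ⟨y, -, hy⟩ := e2.sub (C := range fun m => dr F₀ (L ε m)) (fun γ hγ => by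
        obtain ⟨δ, hδ, g1, g2⟩ := e3 γ hγ
        obtain ⟨m, hm⟩ := e2.2.2 δ g2
        exact ⟨_, ⟨m, rfl⟩, g1.trans_le (hd3 _ _ _ hm.le hδ), (hd1 _ _).trans_lt (e2.2.1 m)⟩) e1
      exact ⟨y, hy⟩
    refine ⟨ε, e1, ?_⟩
    simp only [dif_pos h']
    refine ⟨h'.choose_spec.1, fun n => ?_⟩
    obtain ⟨m, hm⟩ := h'.choose_spec.2 n
    rw [← hm]
    exact e4 m
  by_contra hcon
  push Not at hcon
  choose g hg a ha using hcon
  have hW := reg_toType (κ := (ℵ₁ : Cardinal.{u})) isRegular_aleph_one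
  have hW1 : #(ℵ₁ : Cardinal.{u}).ord.ToType = ℵ₁ := mk_ord_toType _
  let fb : Set (T × T) → T → Set T := fun s x => {y | (x, y) ∈ s}
  obtain ⟨r, hr⟩ := chain_rec (T := (ℵ₁ : Cardinal.{u}).ord.ToType) (∅ : Set (T × T))
    (fun s => Sm (fb s)) (fun _ s s' => ∀ x, g (fb s) x ⊆ fb s' x)
    (fun γ r h x => by
      refine sm_mono (t := ⋃ β ∈ Iio γ, fb (r β) x) ?_
        (sm_biUnion hT.reg ((hW.init γ).trans (hW1.trans_lt h1)) fun β hβ => (h β hβ).1 x)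
      rintro y (hy | hy)
      · exact hy.elim
      · obtain ⟨β, hβ, hy⟩ := mem_iUnion₂.1 hy
        exact mem_iUnion₂.2 ⟨β, hβ, hy⟩)
    (fun γ s hs => ⟨s ∪ {p | p.2 ∈ g (fb s) p.1}, fun x => sm_union hT.inf (hs x) (hg _ x),
      subset_union_left, fun x y hy => Or.inr hy⟩)
  let s := fun γ => fb (∅ ∪ ⋃ β ∈ Iio γ, r β)
  have hs1 : ∀ γ γ', γ ≤ γ' → ∀ x, s γ x ⊆ s γ' x := by
    rintro γ γ' h x y (hy | hy)
    · exact hy.elim
    · obtain ⟨β, hβ, hy⟩ := mem_iUnion₂.1 hy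
      exact Or.inr (mem_iUnion₂.2 ⟨β, lt_of_lt_of_le hβ h, hy⟩)
  have hs2 : ∀ γ γ', γ < γ' → ∀ x, g (s γ) x ⊆ s γ' x := fun γ γ' h x y hy =>
    Or.inr (mem_iUnion₂.2 ⟨γ, h, (hr γ).2.2.2 x hy⟩)
  have hu : #(univ : Set (ℵ₁ : Cardinal.{u}).ord.ToType) < #T := by rwa [mk_univ, hW1]
  obtain ⟨F', hF', hacc⟩ := exists_acc hT hun (F := fun x => ⋃ β ∈ Set.univ, fb (r β) x)
    fun x => sm_biUnion hT.reg hu fun β _ => (hr β).1 x
  obtain ⟨a₀, ha₀⟩ := hT.bdd ((fun γ => a (s γ)) '' Set.univ) (sm_image _ hu)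
  obtain ⟨x, ε, e1, e2, e3⟩ := exists_cl hT hun hF' a₀
  have h2 : ∀ n, ∃ ξ, ∀ ξ', ξ ≤ ξ' → dr (s ξ') (L ε n) = dr (s ξ) (L ε n) := fun n => by
    obtain ⟨ξ₀⟩ := hW.nonempty
    obtain ⟨_, ⟨ξ, rfl⟩, hm⟩ := wellFounded_lt.has_min (range fun ξ => dr (s ξ) (L ε n))
      ⟨_, ξ₀, rfl⟩
    exact ⟨ξ, fun ξ' h => le_antisymm (hd3 _ _ _ (hd1 _ _) ((hd2 _ _).mono (hs1 _ _ h)))
      (not_lt.1 (hm _ ⟨ξ', rfl⟩))⟩
  choose ξ hξ using h2
  obtain ⟨z, hz⟩ := bdd_seq hW (by rw [hW1]; exact aleph0_lt_aleph_one) ξ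
  obtain ⟨z', hz'⟩ := hW.exists_gt z
  obtain ⟨n, hn⟩ := ha (s z) ε ((ha₀ _ ⟨z, mem_univ _, rfl⟩).trans e1) (hL x ε e2)
    fun γ hγ => by
      obtain ⟨δ, hδ, h⟩ := hacc ε e3 γ hγ
      refine ⟨δ, Cl.mono ?_ hδ, h⟩
      rintro x y (hy | hy)
      · exact hy.elim
      · obtain ⟨β, -, hy⟩ := mem_iUnion₂.1 hy
        exact mem_iUnion₂.2 ⟨β, mem_univ _, hy⟩
  refine hn ?_
  rw [hξ n z (hz n).le, ← hξ n z' ((hz n).trans hz').le]
  exact (hd2 _ _).mono (hs2 z z' hz')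

/-- Splitting the points of countable cofinality into stationary sets. -/
theorem solovay (hT : Reg T) (hun : ℵ₀ < #T) :
    ∃ col : T → T, ∀ i F, Sm F → ∀ a, ∃ b x, a < x 0 ∧ Lad x b ∧ (∀ n, Cl F (x n)) ∧
      col b = i := by
  classical
  obtain ⟨L, hL⟩ := exists_L (T := T)
  let St : (T → Prop) → Prop := fun P => ∀ F, Sm F → ∀ a, ∃ b, a < b ∧ Cl F b ∧ Lad (L b) b ∧ P b
  have h1 : ∃ n, ∀ γ, St fun b => γ ≤ L b n := by
    by_contra hcon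
    simp only [St] at hcon
    push Not at hcon
    choose γ F hF a h using hcon
    obtain ⟨z, hz⟩ := bdd_seq hT hun fun n => max (γ n) (a n)
    obtain ⟨x, b, e1, e2, e3⟩ := exists_cl hT hun (F := fun y => ⋃ n, F n y)
      (fun y => sm_seq hT.reg hun fun n => hF n y) z
    obtain ⟨n, hn⟩ := (hL x b e2).2.2 z e1
    have := h n b (((le_max_right _ _).trans_lt (hz n)).trans e1)
      (e3.mono fun y => subset_iUnion (fun n => F n y) n) (hL x b e2)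
    exact absurd (((le_max_left _ _).trans_lt (hz n)).trans hn) (not_lt.2 this.le)
  obtain ⟨n, h1⟩ := h1
  have h2 : ∀ γ, ∃ v, γ ≤ v ∧ St fun b => L b n = v := fun γ => by
    by_contra hcon
    simp only [St] at hcon
    push Not at hcon
    have h3 : ∀ v, ∃ F, Sm F ∧ ∃ a, γ ≤ v → ∀ b, a < b → Cl F b → Lad (L b) b → L b n ≠ v :=
      fun v => by
        by_cases hv : γ ≤ v
        · obtain ⟨F, hF, a, h⟩ := hcon v hv
          exact ⟨F, hF, a, fun _ => h⟩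
        · exact ⟨fun _ => ∅, fun _ => sm_finite hT.inf finite_empty, v, fun h => absurd h hv⟩
    choose F hF a h using h3
    obtain ⟨b, -, e2, e3, e4⟩ := h1 γ (fun y => {a y} ∪ ⋃ v ∈ Iic y, ⋃ w ∈ Iic y, F v w)
      (fun y => sm_union hT.inf (sm_single hT.inf _) (sm_biUnion hT.reg (hT.iic y) fun v _ =>
        sm_biUnion hT.reg (hT.iic y) fun w _ => hF v w)) γ
    refine h _ e4 b (e2 _ (e3.2.1 n) (Or.inl rfl)) (fun w hw y hy => ?_) e3 rfl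
    exact e2 (max (L b n) w) (max_lt (e3.2.1 n) hw) (Or.inr (mem_iUnion₂.2
      ⟨_, le_max_left _ _, mem_iUnion₂.2 ⟨w, le_max_right _ _, hy⟩⟩))
  have h3 : #T ≤ #{v | St fun b => L b n = v} := by
    by_contra hcon
    obtain ⟨z, hz⟩ := hT.bdd _ (not_le.1 hcon)
    obtain ⟨v, hv, h⟩ := h2 z
    exact absurd (hz v h) (not_lt.2 hv)
  obtain ⟨e⟩ := (le_def _ _).1 h3
  have := hT.nonempty
  have he : Function.Injective fun i => (e i).1 := fun i j h => e.injective (Subtype.ext h)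
  refine ⟨fun b => Function.invFun (fun i => (e i).1) (L b n), fun i F hF a => ?_⟩
  obtain ⟨F', hF', hacc⟩ := exists_acc hT hun hF
  obtain ⟨b, e1, e2, e3, e4⟩ := (e i).2 F' hF' a
  obtain ⟨x, g1, g2, g3⟩ := e3.sub (hacc b e2) e1
  refine ⟨b, x, g1, g2, g3, ?_⟩
  show Function.invFun _ (L b n) = i
  rw [e4]
  exact Function.leftInverse_invFun he i

end Pool.Agent.P.MP_39acbb_lc
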