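import Pool.Agent.P.MP_39acbb_lc.InA
import Pool.Agent.P.MP_39acbb_lc.Cols

/-! Enumerations, small families of limits, closed sets of columns and one working step. -/

set_option autoImplicit false
set_option linter.deprecated false
set_option linter.unusedSectionVars false

namespace Pool.Agent.P.MP_39acbb_lc

open Cardinal Set

universe u

variable {T : Type u} [LinearOrder T]

lemma enum_le {Y : Type u} [Nonempty Y] {𝒮 : Set Y} (h : #𝒮 ≤ #T) :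
    ∃ B : T → Y, ∀ y ∈ 𝒮, ∃ i, B i = y := by
  classical
  obtain ⟨j⟩ := (le_def _ _).1 h
  refine ⟨fun β => if h : ∃ y : 𝒮, j y = β then h.choose else Classical.arbitrary Y,
    fun y hy => ⟨j ⟨y, hy⟩, ?_⟩⟩
  have h' : ∃ y' : 𝒮, j y' = j ⟨y, hy⟩ := ⟨_, rfl⟩
  simp only [dif_pos h']
  exact congrArg Subtype.val (j.injective h'.choose_spec)

lemma enum_lt (hT : Reg T) {Y : Type u} [Nonempty Y] {𝒮 : Set Y} (h : #𝒮 < #T) :
    ∃ (B : T → Y) (z : T), ∀ y ∈ 𝒮, ∃ i < z, B i = y := by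
  obtain ⟨B, hB⟩ := enum_le (T := T) h.le
  choose f hf using hB
  obtain ⟨z, hz⟩ := hT.bdd (range fun y : 𝒮 => f y.1 y.2) (mk_range_le.trans_lt h)
  exact ⟨B, z, fun y hy => ⟨f y hy, hz _ ⟨⟨y, hy⟩, rfl⟩, hf y hy⟩⟩

/-- sequences below `a` -/
def Sq (a : T) : Set (ℕ → T) := {s | ∀ n, s n < a}

lemma sm_Sq (hT : Reg T) (hω : ∀ μ < #T, μ ^ ℵ₀ < #T) (a : T) : #(Sq a) < #T := by
  refine lt_of_le_of_lt ?_ (hω _ (hT.init a))
  have : #(ℕ → Iio a) = #(Iio a) ^ ℵ₀ := by simp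
  rw [← this]
  exact mk_le_of_injective (f := fun s n => (⟨s.1 n, s.2 n⟩ : Iio a)) fun s s' h =>
    Subtype.ext (funext fun n => congrArg Subtype.val (congrFun h n))

lemma sm_closure {κ : Cardinal.{u}} (hun : ℵ₀ < κ) {Y : Type u} [AddMonoid Y] {s : Set Y}
    (hs : #s < κ) : #(AddSubmonoid.closure s : Set Y) < κ := by
  refine lt_of_le_of_lt ?_ ((mk_list_le_max s).trans_lt (max_lt hun hs))
  refine le_trans (mk_le_mk_of_subset (t := range fun l : List s => (l.map Subtype.val).sum) ?_)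
    mk_range_le
  intro x hx
  obtain ⟨l, hl, rfl⟩ := AddSubmonoid.exists_list_of_mem_closure hx
  exact ⟨l.attachWith _ hl, by simp⟩

/-- A filtration of the functions with small support that is closed under sums and limits. -/
lemma exists_Q (hT : Reg T) (hun : ℵ₀ < #T) (hc : Cnt #T) (hω : ∀ μ < #T, μ ^ ℵ₀ < #T)
    {G : Type u} [AddCommGroup G] (hG : #G ≤ #T) (H : T → Set G) (hH : ∀ a, #(H a) < #T)
    (hHm : Monotone H) :
    ∃ (Q : T → AddSubmonoid (T → G)) (B : T → T → G), Monotone Q ∧ (∀ a, #(Q a : Set (T → G)) < #T) ∧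
      (∀ a, ∀ h ∈ H a, (fun _ => h) ∈ Q a) ∧
      (∀ u : T → G, #{i | u i ≠ 0} < #T → ∃ k, B k = u) ∧
      ∀ a, ∀ s ∈ Sq a, ∀ u : T → G, (∀ i, ∀ᶠ n in Filter.atTop, B (s n) i = u i) → u ∈ Q a := by
  classical
  have h0 := hT.inf
  obtain ⟨B, hB⟩ := enum_le (T := T) (𝒮 := {u : T → G | #{i | u i ≠ 0} < #T}) (by
    refine le_trans ?_ (hc (T × G) Set.univ (by
      rw [mk_univ, mk_prod, lift_id, lift_id]; exact mul_le_of_le h0 le_rfl hG))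
    refine mk_le_of_injective (f := fun u => ⟨(fun i => (i, u.1 i)) '' {i | u.1 i ≠ 0},
      subset_univ _, sm_image _ u.2⟩) fun u u' h => Subtype.ext (funext fun i => ?_)
    have h1 := congrArg Subtype.val h
    simp only at h1
    by_cases h2 : u.1 i = 0
    · by_contra h3
      have : (i, u'.1 i) ∈ (fun i => (i, u.1 i)) '' {i | u.1 i ≠ 0} :=
        h1 ▸ ⟨i, fun h4 => h3 (h2.trans h4.symm), rfl⟩
      obtain ⟨j, hj, e⟩ := this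
      obtain ⟨rfl, -⟩ := Prod.ext_iff.1 e
      exact hj h2
    · have : (i, u.1 i) ∈ (fun i => (i, u'.1 i)) '' {i | u'.1 i ≠ 0} := h1 ▸ ⟨i, h2, rfl⟩
      obtain ⟨j, -, e⟩ := this
      obtain ⟨rfl, e2⟩ := Prod.ext_iff.1 e
      exact e2.symm)
  let lim : (ℕ → T) → T → G := fun s i =>
    if h : ∃ v, ∀ᶠ n in Filter.atTop, B (s n) i = v then h.choose else 0
  refine ⟨fun a => AddSubmonoid.closure (lim '' Sq a ∪ (fun h _ => h) '' H a), B,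
    fun a b hab => AddSubmonoid.closure_mono (union_subset_union
      (image_mono fun s hs n => (hs n).trans_le hab) (image_mono (hHm hab))),
    fun a => sm_closure hun (sm_union h0 (sm_image _ (sm_Sq hT hω a)) (sm_image _ (hH a))),
    fun a h hh => AddSubmonoid.subset_closure (Or.inr ⟨h, hh, rfl⟩), hB,
    fun a s hs u hu => AddSubmonoid.subset_closure (Or.inl ⟨s, hs, funext fun i => ?_⟩)⟩
  have h' : ∃ v, ∀ᶠ n in Filter.atTop, B (s n) i = v := ⟨_, hu i⟩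
  simp only [lim, dif_pos h']
  obtain ⟨n, h1, h2⟩ := (h'.choose_spec.and (hu i)).exists
  exact h1.symm.trans h2

section
variable {Θ G : Type u} [LinearOrder Θ] [AddCommGroup G]

/-- the conditions below `η` whose open set misses `X` -/
def DD (κ : Cardinal.{u}) (K : Θ → AddSubgroup G) (η : Θ) (X : Set G) : Set (Set (Θ × G)) :=
  {o | Cond κ o ∧ (∀ p ∈ o, p.1 < η) ∧ ∀ g ∈ U K o, g ∉ X}

/-- density below `η` -/
def Dn (κ : Cardinal.{u}) (η : Θ) (𝒟 : Set (Set (Θ × G))) : Prop :=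
  ∀ q : Set (Θ × G), Cond κ q → (∀ p ∈ q, p.1 < η) → ∃ o ∈ 𝒟, q ⊆ o

lemma DD_congr {κ : Cardinal.{u}} {K K' : Θ → AddSubgroup G} {η : Θ} (h : ∀ ζ < η, K ζ = K' ζ)
    (X : Set G) : DD κ K η X = DD κ K' η X := by
  ext o
  refine and_congr_right fun _ => and_congr_right fun ho => ?_
  rw [U_congr h ho]

lemma Good.dn {κ : Cardinal.{u}} {K : Θ → AddSubgroup G} {η : Θ} {X : Set G} (h : Good κ K η X) :
    Dn κ η (DD κ K η X) := fun q hq hq' => by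
  obtain ⟨o, h1, h2, h3, h4⟩ := h q hq hq'
  exact ⟨o, ⟨h1, h2, h4⟩, h3⟩

lemma exists_MR (hT : Reg T) (hc : Cnt #T) (hG : #G ≤ #T) (η : Θ) (𝒟 : Set (Set (Θ × G))) :
    ∃ (M : Set Θ) (rk : Θ → T), M ⊆ Iio η ∧ InjOn rk M ∧
      ((∀ o ∈ 𝒟, Cond #T o ∧ ∀ p ∈ o, p.1 < η) → Dn #T η 𝒟 → ∀ q, Cond #T q →
        (∀ p ∈ q, p.1 ∈ M) → ∃ o ∈ 𝒟, q ⊆ o ∧ ∀ p ∈ o, p.1 ∈ M) := by
  classical
  let W : Set (Θ × G) → Set Θ := fun q =>
    if h : ∃ o ∈ 𝒟, q ⊆ o ∧ #o < #T then Prod.fst '' h.choose else ∅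
  obtain ⟨S, -, hS, hW⟩ := close_off hT.reg hc hG W (fun q _ => by
    simp only [W]
    split_ifs with h
    · exact (sm_image _ h.choose_spec.2.2).le
    · simp) ∅ (by simp)
  obtain ⟨j⟩ := (le_def _ _).1 hS
  obtain ⟨a₀⟩ := hT.nonempty
  refine ⟨S ∩ Iio η, fun ζ => if h : ζ ∈ S then j ⟨ζ, h⟩ else a₀, inter_subset_right,
    fun ζ h ζ' h' e => ?_, fun h𝒟 hd q hq hqM => ?_⟩
  · simp only [dif_pos h.1, dif_pos h'.1] at e
    exact congrArg Subtype.val (j.injective e)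
  · have h : ∃ o ∈ 𝒟, q ⊆ o ∧ #o < #T := by
      obtain ⟨o, h1, h2⟩ := hd q hq fun p hp => (hqM p hp).2
      exact ⟨o, h1, h2, (h𝒟 o h1).1.1⟩
    have h2 := hW q hq.1 fun p hp => (hqM p hp).1
    simp only [W, dif_pos h] at h2
    exact ⟨_, h.choose_spec.1, h.choose_spec.2.1,
      fun p hp => ⟨h2 ⟨p, hp, rfl⟩, (h𝒟 _ h.choose_spec.1).2 p hp⟩⟩

omit [LinearOrder Θ] [AddCommGroup G] in
lemma fn_of_dir {s : Set (Θ × G)} (h : ∀ p ∈ s, ∀ p' ∈ s, ∃ r, Fn r ∧ p ∈ r ∧ p' ∈ r) : Fn s :=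
  fun x a b ha hb => by
    obtain ⟨r, h1, h2, h3⟩ := h _ ha _ hb
    exact h1 x a b h2 h3

/-- One working step: meet a small family of shifted dense sets. -/
lemma work_step [WellFoundedLT T] (hT : Reg T) (S : Set Θ) {I : Type u} [Nonempty I] {J : Set I}
    (hJ : #J < #T) (M : I → Set Θ) (𝒟 : I → Set (Set (Θ × G))) (w : I → Θ → G)
    (hM : ∀ i ∈ J, M i ⊆ S)
    (hD : ∀ i ∈ J, ∀ q, Cond #T q → (∀ p ∈ q, p.1 ∈ M i) →
      ∃ o ∈ 𝒟 i, Cond #T o ∧ q ⊆ o ∧ ∀ p ∈ o, p.1 ∈ M i)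
    (s : Set (Θ × G)) (hs : Cond #T s) (hsS : ∀ p ∈ s, p.1 ∈ S) :
    ∃ s', Cond #T s' ∧ (∀ p ∈ s', p.1 ∈ S) ∧ s ⊆ s' ∧
      ∀ i ∈ J, ∃ o ∈ 𝒟 i, ∀ y ∈ o, y.1 ∈ M i ∧ (y.1, y.2 - w i y.1) ∈ s' := by
  have h0 := hT.inf
  obtain ⟨e, z, he⟩ := enum_lt hT hJ
  obtain ⟨r, hr⟩ := chain_rec (T := T) s (fun r => Cond #T r ∧ (∀ y ∈ r, y.1 ∈ S))
    (fun γ _ r => e γ ∈ J → ∃ o ∈ 𝒟 (e γ), ∀ y ∈ o, y.1 ∈ M (e γ) ∧ (y.1, y.2 - w (e γ) y.1) ∈ r)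
    (fun γ r h => by
      refine ⟨⟨sm_union h0 hs.1 (sm_biUnion hT.reg (hT.init γ) fun β hβ => (h β hβ).1.1.1),
        fn_of_dir ?_⟩, ?_⟩
      · rintro p (ha | ha) p' (hb | hb)
        · exact ⟨s, hs.2, ha, hb⟩
        · obtain ⟨β, hβ, hb⟩ := mem_iUnion₂.1 hb
          exact ⟨_, (h β hβ).1.1.2, (h β hβ).2.1 ha, hb⟩
        · obtain ⟨β, hβ, ha⟩ := mem_iUnion₂.1 ha
          exact ⟨_, (h β hβ).1.1.2, ha, (h β hβ).2.1 hb⟩
        · obtain ⟨β, hβ, ha⟩ := mem_iUnion₂.1 ha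
          obtain ⟨β', hβ', hb⟩ := mem_iUnion₂.1 hb
          rcases lt_trichotomy β β' with hl | rfl | hl
          · exact ⟨_, (h β' hβ').1.1.2, (h β' hβ').2.2 β hl ha, hb⟩
          · exact ⟨_, (h β hβ).1.1.2, ha, hb⟩
          · exact ⟨_, (h β hβ).1.1.2, ha, (h β hβ).2.2 β' hl hb⟩
      · rintro y (hy | hy)
        · exact hsS y hy
        · obtain ⟨β, hβ, hy⟩ := mem_iUnion₂.1 hy
          exact (h β hβ).1.2 y hy)
    (fun γ s₁ hs₁ => by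
      by_cases hi : e γ ∈ J
      swap
      · exact ⟨s₁, hs₁, subset_rfl, fun h => absurd h hi⟩
      set i := e γ
      obtain ⟨o, o1, o2, o3, o4⟩ := hD i hi
        ((fun p => (p.1, p.2 + w i p.1)) '' {p ∈ s₁ | p.1 ∈ M i})
        ⟨sm_image _ (sm_mono (sep_subset _ _) hs₁.1.1), by
          rintro x a b ⟨p, hp, e1⟩ ⟨p', hp', e2⟩
          obtain ⟨rfl, rfl⟩ := Prod.ext_iff.1 e1
          obtain ⟨e3, rfl⟩ := Prod.ext_iff.1 e2
          simp only at e3 ⊢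
          rw [hs₁.1.2 p.1 p.2 p'.2 hp.1 (e3 ▸ hp'.1), e3]⟩
        (by rintro _ ⟨p, hp, rfl⟩; exact hp.2)
      have key : ∀ x a, (x, a) ∈ s₁ → ∀ y ∈ o, y.1 = x → a = y.2 - w i y.1 := by
        rintro _ a ha y hy rfl
        have := o2.2 y.1 _ y.2 (o3 ⟨(y.1, a), ⟨ha, o4 y hy⟩, rfl⟩) hy
        rw [← this, add_sub_cancel_right]
      refine ⟨s₁ ∪ (fun y => (y.1, y.2 - w i y.1)) '' o,
        ⟨⟨sm_union h0 hs₁.1.1 (sm_image _ o2.1), ?_⟩, ?_⟩, subset_union_left,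
        fun _ => ⟨o, o1, fun y hy => ⟨o4 y hy, Or.inr ⟨y, hy, rfl⟩⟩⟩⟩
      · rintro x a b (ha | ⟨y, hy, ha⟩) (hb | ⟨y', hy', hb⟩)
        · exact hs₁.1.2 x a b ha hb
        · obtain ⟨e1, rfl⟩ := Prod.ext_iff.1 hb
          exact key x a ha y' hy' e1
        · obtain ⟨e1, rfl⟩ := Prod.ext_iff.1 ha
          exact (key x b hb y hy e1).symm
        · obtain ⟨rfl, rfl⟩ := Prod.ext_iff.1 ha
          obtain ⟨e1, rfl⟩ := Prod.ext_iff.1 hb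
          simp only at e1 ⊢
          rw [o2.2 y.1 y.2 y'.2 hy (e1 ▸ hy'), e1]
      · rintro y (hy | ⟨y', hy', rfl⟩)
        · exact hs₁.2 y hy
        · exact hM i hi (o4 y' hy'))
  refine ⟨r z, (hr z).1.1, (hr z).1.2, (hr z).2.1, fun i hi => ?_⟩
  obtain ⟨β, hβ, rfl⟩ := he i hi
  obtain ⟨o, o1, o2⟩ := (hr β).2.2.2 hi
  exact ⟨o, o1, fun y hy => ⟨(o2 y hy).1, (hr z).2.2.1 β hβ (o2 y hy).2⟩⟩

end

end Pool.Agent.P.MP_39acbb_lc
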