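import Pool.Agent.P.MP_39acbb_lc.InB

/-! The club filter and the construction of one row. -/

set_option autoImplicit false
set_option linter.deprecated false
set_option linter.unusedSectionVars false

namespace Pool.Agent.P.MP_39acbb_lc

open Cardinal Set Filter

universe u

variable {T : Type u} [LinearOrder T]

/-- the club filter -/
def cf (hT : Reg T) : Filter T where
  sets := {s | ∃ F, Sm F ∧ ∃ a, ∀ δ, a < δ → Cl F δ → δ ∈ s}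
  univ_sets := by
    obtain ⟨a⟩ := hT.nonempty
    exact ⟨fun _ => ∅, fun _ => sm_finite hT.inf finite_empty, a, fun _ _ _ => mem_univ _⟩
  sets_of_superset := by
    rintro s t ⟨F, hF, a, h⟩ hst
    exact ⟨F, hF, a, fun δ h1 h2 => hst (h δ h1 h2)⟩
  inter_sets := by
    rintro s t ⟨F, hF, a, h⟩ ⟨F', hF', a', h'⟩
    exact ⟨fun γ => F γ ∪ F' γ, fun γ => sm_union hT.inf (hF γ) (hF' γ), max a a',
      fun δ h1 h2 => ⟨h δ ((le_max_left _ _).trans_lt h1) (h2.mono fun _ => subset_union_left),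
        h' δ ((le_max_right _ _).trans_lt h1) (h2.mono fun _ => subset_union_right)⟩⟩

lemma ev_gt (hT : Reg T) (a : T) : ∀ᶠ δ in cf hT, a < δ :=
  ⟨fun _ => ∅, fun _ => sm_finite hT.inf finite_empty, a, fun _ h _ => h⟩

lemma ev_small (hT : Reg T) {I : Type u} {J : Set I} (hJ : #J < #T) {P : I → T → Prop}
    (h : ∀ i ∈ J, ∀ᶠ δ in cf hT, P i δ) : ∀ᶠ δ in cf hT, ∀ i ∈ J, P i δ := by
  choose F hF a ha using h
  obtain ⟨z, hz⟩ := hT.bdd (range fun i : J => a i.1 i.2) (mk_range_le.trans_lt hJ)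
  refine ⟨fun γ => ⋃ i ∈ (Set.univ : Set J), F i.1 i.2 γ, fun γ => sm_biUnion hT.reg
    (by rwa [mk_univ]) fun i _ => hF i.1 i.2 γ, z, fun δ h1 h2 i hi => ?_⟩
  exact ha i hi δ ((hz _ ⟨⟨i, hi⟩, rfl⟩).trans h1)
    (h2.mono fun γ y hy => mem_iUnion₂.2 ⟨⟨i, hi⟩, mem_univ _, hy⟩)

lemma ev_diag (hT : Reg T) {P : T → T → Prop} (h : ∀ i, ∀ᶠ δ in cf hT, P i δ) :
    ∀ᶠ δ in cf hT, ∀ i < δ, P i δ := by
  choose F hF a ha using h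
  obtain ⟨z⟩ := hT.nonempty
  refine ⟨fun y => {a y} ∪ ⋃ v ∈ Iic y, ⋃ w ∈ Iic y, F v w,
    fun y => sm_union hT.inf (sm_single hT.inf _) (sm_biUnion hT.reg (hT.iic y) fun v _ =>
      sm_biUnion hT.reg (hT.iic y) fun w _ => hF v w), z, fun δ _ h2 i hi => ?_⟩
  refine ha i δ (h2 i hi (Or.inl rfl)) fun w hw y hy => ?_
  exact h2 (max i w) (max_lt hi hw) (Or.inr (mem_iUnion₂.2
    ⟨_, le_max_left _ _, mem_iUnion₂.2 ⟨w, le_max_right _ _, hy⟩⟩))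

lemma ev_rank (hT : Reg T) {I : Type u} {S : Set I} {f : I → T} (hf : InjOn f S)
    {P : I → T → Prop} (h : ∀ i ∈ S, ∀ᶠ δ in cf hT, P i δ) :
    ∀ᶠ δ in cf hT, ∀ i ∈ S, f i < δ → P i δ := by
  have := ev_diag hT (P := fun γ δ => ∀ i ∈ {i ∈ S | f i = γ}, P i δ) fun γ =>
    ev_small hT (sm_finite hT.inf (Set.Subsingleton.finite fun i hi j hj =>
      hf hi.1 hj.1 (hi.2.trans hj.2.symm))) fun i hi => h i hi.1
  exact this.mono fun δ h i hi hl => h _ hl i ⟨hi, rfl⟩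

lemma ev_imp (hT : Reg T) {p : Prop} {P : T → Prop} (h : p → ∀ᶠ δ in cf hT, P δ) :
    ∀ᶠ δ in cf hT, p → P δ := by
  by_cases hp : p
  · exact (h hp).mono fun _ h _ => h
  · exact Eventually.of_forall fun _ h => absurd h hp

lemma sm_rank (hT : Reg T) {I : Type u} {S : Set I} {f : I → T} (hf : InjOn f S) (a : T) :
    #{i ∈ S | f i < a} < #T :=
  lt_of_le_of_lt (mk_le_of_injective (f := fun i => (⟨f i.1, i.2.2⟩ : Iio a)) fun i j h =>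
    Subtype.ext (hf i.2.1 j.2.1 (congrArg Subtype.val h))) (hT.init a)

section
variable {Θ G : Type u} [AddCommGroup G]

open Classical in
/-- the value that the row `(ε, A)` gives to a column with code `β₀` -/
noncomputable def tt (c : T × (T ⊕ G) → T) (ε : T) (A β₀ : Set T) : G :=
  if h : ∃ g, ∃ i < ε, (∀ β < ε, β ∈ β₀ ↔ c (i, Sum.inl β) ∈ A) ∧ c (i, Sum.inr g) ∈ A
  then h.choose else 0

/-- the pattern of work and rest along the ladder `d` -/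
def Pat (d : ℕ → T) (id : T → Set T) (Q : T → AddSubmonoid (T → G)) (M : Set Θ) (rk : Θ → T)
    (𝒟 : Set (Set (Θ × G))) (A : Set T) (t : Θ → G) : Prop :=
  ∀ᶠ n in atTop, ∃ b, d n < b ∧ b < d (n + 1) ∧ id b = A ∩ Iio (d n) ∧
    (∃ u ∈ Q b, ∀ ζ ∈ M, rk ζ < d (n + 1) → t ζ = u (rk ζ)) ∧
    ∀ a < b, ∀ u ∈ Q a, ∃ o ∈ 𝒟, ∀ y ∈ o, y.1 ∈ M ∧ rk y.1 < b ∧ y.2 = t y.1 + u (rk y.1)

/-- fill with zeros -/
def fill (S : Set Θ) (j : Θ → T) (a : T) (s : Set (Θ × G)) : Set (Θ × G) :=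
  s ∪ (fun ζ => (ζ, 0)) '' {ζ ∈ {ζ ∈ S | j ζ < a} | ∀ v, (ζ, v) ∉ s}

lemma fill_mono (S : Set Θ) (j : Θ → T) {a a' : T} (h : a ≤ a') (s : Set (Θ × G)) :
    fill S j a s ⊆ fill S j a' s :=
  union_subset_union_right _ (image_mono fun _ hζ => ⟨⟨hζ.1.1, hζ.1.2.trans_le h⟩, hζ.2⟩)

lemma fill_dom {S : Set Θ} {j : Θ → T} {a : T} (s : Set (Θ × G)) {ζ : Θ} (h : ζ ∈ S)
    (h' : j ζ < a) : ∃ v, (ζ, v) ∈ fill S j a s := by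
  by_cases h1 : ∃ v, (ζ, v) ∈ s
  · obtain ⟨v, hv⟩ := h1
    exact ⟨v, Or.inl hv⟩
  · exact ⟨0, Or.inr ⟨ζ, ⟨⟨h, h'⟩, not_exists.1 h1⟩, rfl⟩⟩

lemma fill_cond (hT : Reg T) {S : Set Θ} {j : Θ → T} (hj : InjOn j S) (a : T) {s : Set (Θ × G)}
    (hs : Cond #T s) (hsS : ∀ p ∈ s, p.1 ∈ S) :
    Cond #T (fill S j a s) ∧ ∀ p ∈ fill S j a s, p.1 ∈ S := by
  refine ⟨⟨sm_union hT.inf hs.1 (sm_image _ (sm_mono (sep_subset _ _) (sm_rank hT hj a))), ?_⟩, ?_⟩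
  · rintro x a b (ha | ⟨ζ, hζ, ha⟩) (hb | ⟨ζ', hζ', hb⟩)
    · exact hs.2 x a b ha hb
    · obtain ⟨rfl, rfl⟩ := Prod.ext_iff.1 hb
      exact absurd ha (hζ'.2 _)
    · obtain ⟨rfl, rfl⟩ := Prod.ext_iff.1 ha
      exact absurd hb (hζ.2 _)
    · exact (Prod.ext_iff.1 ha).2.symm.trans (Prod.ext_iff.1 hb).2
  · rintro p (hp | ⟨ζ, hζ, rfl⟩)
    · exact hsS p hp
    · exact hζ.1.1

open Classical in
/-- a condition, read as a function of the rank -/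
noncomputable def uf (M : Set Θ) (rk : Θ → T) (s : Set (Θ × G)) (i : T) : G :=
  if h : ∃ v, ∃ ζ ∈ M, rk ζ = i ∧ (ζ, v) ∈ s then h.choose else 0

lemma uf_eq {M : Set Θ} {rk : Θ → T} (hr : InjOn rk M) {s : Set (Θ × G)} (hs : Fn s) {ζ : Θ}
    (hζ : ζ ∈ M) {v : G} (hv : (ζ, v) ∈ s) : uf M rk s (rk ζ) = v := by
  have h : ∃ v, ∃ ζ' ∈ M, rk ζ' = rk ζ ∧ (ζ', v) ∈ s := ⟨v, ζ, hζ, rfl, hv⟩
  rw [uf, dif_pos h]
  obtain ⟨ζ', h1, h2, h3⟩ := h.choose_spec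
  obtain rfl := hr h1 hζ h2
  exact hs _ _ _ h3 hv

lemma uf_zero {M : Set Θ} {rk : Θ → T} {s : Set (Θ × G)} {i : T}
    (h : ¬ ∃ v, ∃ ζ ∈ M, rk ζ = i ∧ (ζ, v) ∈ s) : uf M rk s i = 0 := dif_neg h

lemma uf_small {M : Set Θ} {rk : Θ → T} {s : Set (Θ × G)} (hs : #s < #T) :
    #{i | uf M rk s i ≠ 0} < #T := by
  refine sm_mono (fun i hi => ?_) (sm_image (fun p : Θ × G => rk p.1) hs)
  obtain ⟨v, ζ, -, h1, h2⟩ := not_not.1 (mt uf_zero hi)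
  exact ⟨_, h2, h1⟩

/-- the code of a condition -/
def Code (c : T × (T ⊕ G) → T) (b : Θ → Set T) (S : Set Θ) (j : Θ → T) (s : Set (Θ × G)) :
    Set T :=
  c '' {x | ∃ ζ ∈ S, j ζ = x.1 ∧
    ((∃ β ∈ b ζ, x.2 = Sum.inl β) ∨ ∃ v, (ζ, v) ∈ s ∧ x.2 = Sum.inr v)}

lemma chain_fn {s : ℕ → Set (Θ × G)} (hm : Monotone s) (h : ∀ n, Fn (s n)) : Fn (⋃ n, s n) :=
  fn_of_dir fun p hp p' hp' => by
    obtain ⟨n, hn⟩ := mem_iUnion.1 hp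
    obtain ⟨m, hm'⟩ := mem_iUnion.1 hp'
    exact ⟨_, h (max n m), hm (le_max_left _ _) hn, hm (le_max_right _ _) hm'⟩

variable [WellFoundedLT T]

theorem exists_row (hT : Reg T) (hun : ℵ₀ < #T) (hc : Cnt #T) (hω : ∀ μ < #T, μ ^ ℵ₀ < #T)
    [Nonempty Θ] [LinearOrder Θ] (hG : #G ≤ #T) (H : T → AddSubgroup G) (hHm : Monotone H)
    (hH : ∀ g, ∃ a, g ∈ H a) (d : T → ℕ → T)
    (hd : ∀ F, Sm F → ∀ a, ∃ ε, a < ε ∧ Lad (d ε) ε ∧ ∀ n, Cl F (d ε n)) (col : T → T)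
    (hcol : ∀ i F, Sm F → ∀ a, ∃ b x, a < x 0 ∧ Lad x b ∧ (∀ n, Cl F (x n)) ∧ col b = i)
    (Q : T → AddSubmonoid (T → G)) (B : T → T → G) (hQm : Monotone Q)
    (hQs : ∀ a, #(Q a : Set (T → G)) < #T) (hB : ∀ u : T → G, #{i | u i ≠ 0} < #T → ∃ k, B k = u)
    (hQ : ∀ a, ∀ s ∈ Sq a, ∀ u : T → G, (∀ i, ∀ᶠ n in atTop, B (s n) i = u i) → u ∈ Q a)
    (BT : T → Set T) (hBT : ∀ A : Set T, #A < #T → ∃ k, BT k = A)
    (c : T × (T ⊕ G) → T) (hci : Function.Injective c) (b : Θ → Set T)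
    (hb : Function.Injective b) (α : Θ → T) (M : Θ → Set Θ) (rk : Θ → Θ → T)
    (hrk : ∀ η, InjOn (rk η) (M η)) (𝒟 : Θ → Set (Set (Θ × G))) (Dd : Θ → Prop)
    (hD : ∀ η, Dd η → ∀ q, Cond #T q → (∀ p ∈ q, p.1 ∈ M η) →
      ∃ o ∈ 𝒟 η, Cond #T o ∧ q ⊆ o ∧ ∀ p ∈ o, p.1 ∈ M η)
    (q : Set (Θ × G)) (hq : Cond #T q) (a₀ : T) :
    ∃ (ε : T) (A : Set T) (S' : Set Θ), a₀ < ε ∧ Lad (d ε) ε ∧ A ⊆ Iio ε ∧
      (∃ s ∈ Sq ε, A = ⋃ n, BT (s n)) ∧ (∀ y ∈ q, y.1 ∈ S' ∧ tt c ε A (b y.1) = y.2) ∧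
      ∀ η ∈ S', α η < ε ∧ tt c ε A (b η) ∈ H ε ∧ (∀ ζ ∈ M η, rk η ζ < ε → ζ ∈ S') ∧
        (Dd η → Pat (d ε) (fun x => BT (col x)) Q (M η) (rk η) (𝒟 η) A
          fun ζ => tt c ε A (b ζ)) := by
  classical
  have h0 := hT.inf
  obtain ⟨S, hS₀, hS, hSW⟩ := close_off hT.reg hc hG (fun s : Set (Θ × G) => ⋃ p ∈ s, M p.1)
    (fun s hs => le_biUnion h0 hs.le fun p _ => mk_le_of_injective
      (f := fun ζ : M p.1 => rk p.1 ζ.1) fun ζ ζ' h => Subtype.ext (hrk _ ζ.2 ζ'.2 h))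
    (Prod.fst '' q) (sm_image _ hq.1).le
  have hSM : ∀ η ∈ S, M η ⊆ S := fun η hη ζ hζ =>
    hSW {(η, 0)} (sm_single h0 _) (by rintro p rfl; exact hη) (mem_iUnion₂.2 ⟨(η, 0), rfl, hζ⟩)
  obtain ⟨j, hj⟩ : ∃ j : Θ → T, InjOn j S := by
    obtain ⟨j⟩ := (le_def _ _).1 hS
    refine ⟨fun ζ => if h : ζ ∈ S then j ⟨ζ, h⟩ else a₀, fun ζ h ζ' h' e => ?_⟩
    simp only [dif_pos h, dif_pos h'] at e
    exact congrArg Subtype.val (j.injective e)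
  let St : Set (Θ × G) → Prop := fun s => Cond #T s ∧ ∀ p ∈ s, p.1 ∈ S
  obtain ⟨Bs, hBs⟩ := enum_le (T := T) (hc (Θ × G) (S ×ˢ (Set.univ : Set G)) (by
    rw [mk_setProd, mk_univ]; exact mul_le_of_le h0 hS hG))
  have hN : ∀ s : Set (Θ × G), #s < #T → (∀ p ∈ s, p.1 ∈ S) →
      ∀ᶠ δ in cf hT, ∃ i < δ, Bs i = s := fun s h1 h2 => by
    obtain ⟨i, hi⟩ := hBs s ⟨fun p hp => ⟨h2 p hp, mem_univ _⟩, h1⟩
    exact (ev_gt hT i).mono fun δ h => ⟨i, h, hi⟩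
  have hE : ∀ a s, ∃ s', St s → St s' ∧ fill S j a s ⊆ s' ∧ ∀ η ∈ S, j η < a → Dd η →
      ∀ u ∈ Q a, ∃ o ∈ 𝒟 η, ∀ y ∈ o, y.1 ∈ M η ∧ (y.1, y.2 - u (rk η y.1)) ∈ s' := fun a s => by
    by_cases hs : St s
    swap
    · exact ⟨s, fun h => absurd h hs⟩
    obtain ⟨f1, f2⟩ := fill_cond hT hj a hs.1 hs.2
    obtain ⟨s', g1, g2, g3, g4⟩ := work_step hT S (I := Θ × (T → G))
      (J := {η ∈ {η ∈ S | j η < a} | Dd η} ×ˢ (Q a : Set (T → G)))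
      (sm_prod h0 (sm_mono (sep_subset _ _) (sm_rank hT hj a)) (hQs a)) (fun i => M i.1)
      (fun i => 𝒟 i.1) (fun i ζ => i.2 (rk i.1 ζ)) (fun i hi => hSM _ hi.1.1.1)
      (fun i hi => hD _ hi.1.2) _ f1 f2
    exact ⟨s', fun _ => ⟨⟨g1, g2⟩, g3, fun η h1 h2 h3 u hu => g4 (η, u) ⟨⟨⟨h1, h2⟩, h3⟩, hu⟩⟩⟩
  choose Ext hExt using hE
  let Gd : T → Prop := fun δ =>
    (∀ a < δ, ∀ i < δ, St (Bs i) → ∃ k < δ, Bs k = Ext a (Bs i)) ∧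
    (∀ i < δ, St (Bs i) → ∀ y ∈ Bs i, j y.1 < δ ∧ y.2 ∈ H δ ∧ c (j y.1, Sum.inr y.2) < δ) ∧
    (∀ i < δ, St (Bs i) → ∀ η ∈ S, j η < δ → ∃ k < δ, B k = uf (M η) (rk η) (Bs i)) ∧
    (∀ η ∈ S, j η < δ → (∀ ζ ∈ M η, rk η ζ < δ → j ζ < δ) ∧ ∀ ζ ∈ M η, j ζ < δ → rk η ζ < δ) ∧
    (∀ i < δ, ∀ β < δ, c (i, Sum.inl β) < δ) ∧ (∀ x ∈ Set.univ, c x < δ → x.1 < δ) ∧
    ∀ η ∈ S, j η < δ → α η < δ ∧ ∀ ζ ∈ S, j ζ < δ → η ≠ ζ → ∃ β < δ, ¬ (β ∈ b η ↔ β ∈ b ζ)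
  have hGd : ∀ᶠ δ in cf hT, Gd δ := by
    refine (ev_diag hT fun a => ev_diag hT fun i => ev_imp hT fun hs =>
      hN _ (hExt a _ hs).1.1.1 (hExt a _ hs).1.2).and
      ((ev_diag hT fun i => ev_imp hT fun hs => ev_small hT hs.1.1 fun y _ => ?_).and
      ((ev_diag hT fun i => ev_imp hT fun hs => ev_rank hT hj fun η _ => ?_).and
      ((ev_rank hT hj fun η hη => (ev_rank hT (hrk η) fun ζ _ => ev_gt hT _).and
        (ev_rank hT (hj.mono (hSM η hη)) fun ζ _ => ev_gt hT _)).and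
      ((ev_diag hT fun i => ev_diag hT fun β => ev_gt hT _).and
      ((ev_rank hT hci.injOn fun x _ => ev_gt hT _).and
      (ev_rank hT hj fun η _ => (ev_gt hT _).and
        (ev_rank hT hj fun ζ _ => ev_imp hT fun hne => ?_)))))))
    · obtain ⟨a, ha⟩ := hH y.2
      exact (ev_gt hT _).and (((ev_gt hT a).mono fun δ h => hHm h.le ha).and (ev_gt hT _))
    · obtain ⟨k, hk⟩ := hB _ (uf_small (M := M η) (rk := rk η) hs.1.1)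
      exact (ev_gt hT k).mono fun δ h => ⟨k, h, hk⟩
    · obtain ⟨β, hβ⟩ := not_forall.1 fun h => hne (hb (Set.ext h))
      exact (ev_gt hT β).mono fun δ h => ⟨β, h, hβ⟩
  let Gd' : T → Prop := fun δ => Gd δ ∧
    (∀ e < δ, ∀ s ∈ Sq e, (∀ n, St (Bs (s n))) → ∃ k < δ, Bs k = ⋃ n, Bs (s n)) ∧
    ∀ a < δ, ∀ i < δ, ∃ k < δ, BT k = Code c b S j (fill S j a (Bs i)) ∩ Iio a ∧
      ∃ e < δ, ∃ x, a < x 0 ∧ Lad x e ∧ (∀ n, Gd (x n)) ∧ col e = k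
  have hGd' : ∀ᶠ δ in cf hT, Gd' δ := by
    refine hGd.and ((ev_diag hT fun e => ev_small hT (sm_Sq hT hω e) fun s _ =>
      ev_imp hT fun hs => hN _ (sm_seq hT.reg hun fun n => (hs n).1.1) fun p hp => ?_).and
      (ev_diag hT fun a => ev_diag hT fun i => ?_))
    · obtain ⟨n, hn⟩ := mem_iUnion.1 hp
      exact (hs n).2 p hn
    · obtain ⟨k, hk⟩ := hBT (Code c b S j (fill S j a (Bs i)) ∩ Iio a)
        (sm_mono inter_subset_right (hT.init a))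
      obtain ⟨F, hF, z, hz⟩ := hGd
      obtain ⟨e, x, x1, x2, x3, x4⟩ := hcol k F hF (max a z)
      exact ((ev_gt hT k).and (ev_gt hT e)).mono fun δ h => ⟨k, h.1, hk, e, h.2, x,
        (le_max_left _ _).trans_lt x1, x2, fun n => hz _ (((le_max_right _ _).trans_lt x1).trans_le
          (x2.1.monotone (Nat.zero_le n))) (x3 n), x4⟩
  have block : ∀ a a', a < a' → Gd' a' → ∀ i < a, St (Bs i) → ∃ i' < a', St (Bs i') ∧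
      fill S j a (Bs i) ⊆ Bs i' ∧ ∃ e, a < e ∧ e < a' ∧ col e < a' ∧
        BT (col e) = Code c b S j (fill S j a (Bs i)) ∩ Iio a ∧ ∀ η ∈ S, j η < a →
          uf (M η) (rk η) (Bs i') ∈ Q e ∧ (Dd η → ∀ a'' < e, ∀ u ∈ Q a'', ∃ o ∈ 𝒟 η, ∀ y ∈ o,
            y.1 ∈ M η ∧ rk η y.1 < e ∧ (y.1, y.2 - u (rk η y.1)) ∈ Bs i') := by
    intro a a' haa' hg i hi hs
    obtain ⟨k, k1, k2, e, e1, x, x1, x2, x3, x4⟩ := hg.2.2 a haa' i (hi.trans haa')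
    have h1 : ∀ n i, ∃ i', i < x n → St (Bs i) → i' < x (n + 1) ∧ Bs i' = Ext (x n) (Bs i) :=
      fun n i => by
        by_cases h : i < x n ∧ St (Bs i)
        · have hl := x2.1 (Nat.lt_succ_self n)
          obtain ⟨i', h'⟩ := (x3 (n + 1)).1 (x n) hl i (h.1.trans hl) h.2
          exact ⟨i', fun _ _ => h'⟩
        · exact ⟨i, fun a b => absurd ⟨a, b⟩ h⟩
    choose f hf using h1
    obtain ⟨s, hz0, hs0⟩ : ∃ s : ℕ → T, s 0 = i ∧ ∀ n, s (n + 1) = f n (s n) :=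
      ⟨fun n => Nat.rec i (fun n z => f n z) n, rfl, fun _ => rfl⟩
    have hs1 : ∀ n, s n < x n ∧ St (Bs (s n)) := fun n => by
      induction n with
      | zero => rw [hz0]; exact ⟨hi.trans x1, hs⟩
      | succ n ih =>
        have := hf n _ ih.1 ih.2
        rw [hs0]
        exact ⟨this.1, this.2 ▸ (hExt _ _ ih.2).1⟩
    have hs2 : ∀ n, Bs (s (n + 1)) = Ext (x n) (Bs (s n)) := fun n =>
      hs0 n ▸ (hf n _ (hs1 n).1 (hs1 n).2).2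
    have hs3 : Monotone fun n => Bs (s n) := monotone_nat_of_le_succ fun n => by
      rw [hs2]; exact subset_union_left.trans (hExt _ _ (hs1 n).2).2.1
    obtain ⟨i', i1, i2⟩ := hg.2.1 e e1 s (fun n => (hs1 n).1.trans (x2.2.1 n)) fun n => (hs1 n).2
    have hfn : Fn (Bs i') := i2 ▸ chain_fn hs3 fun n => (hs1 n).2.1.2
    have hsub : ∀ n, Bs (s n) ⊆ Bs i' := fun n => i2 ▸ subset_iUnion (fun n => Bs (s n)) n
    refine ⟨i', i1, ⟨⟨i2 ▸ sm_seq hT.reg hun fun n => (hs1 n).2.1.1, hfn⟩, fun p hp => ?_⟩, ?_,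
      e, x1.trans (x2.2.1 0), e1, x4 ▸ k1, x4 ▸ k2, fun η hη hηa => ⟨?_, fun hdd a'' ha u hu => ?_⟩⟩
    · obtain ⟨n, hn⟩ := mem_iUnion.1 (i2 ▸ hp)
      exact (hs1 n).2.2 p hn
    · refine ((fill_mono S j x1.le _).trans ?_).trans (hsub (0 + 1))
      rw [hs2, hz0]
      exact (hExt _ _ hs).2.1
    · have h2 : ∀ n, ∃ k < x n, B k = uf (M η) (rk η) (Bs (s n)) := fun n =>
        (x3 n).2.2.1 _ (hs1 n).1 (hs1 n).2 η hη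
          ((hηa.trans x1).trans_le (x2.1.monotone (Nat.zero_le n)))
      choose k' g1 g2 using h2
      refine hQ e k' (fun n => (g1 n).trans (x2.2.1 n)) _ fun i₁ => ?_
      simp only [g2]
      by_cases h : ∃ v, ∃ ζ ∈ M η, rk η ζ = i₁ ∧ (ζ, v) ∈ Bs i'
      · obtain ⟨v, ζ, hζ, rfl, hv⟩ := h
        obtain ⟨n, hn⟩ := mem_iUnion.1 (i2 ▸ hv)
        refine eventually_atTop.2 ⟨n, fun m hm => ?_⟩
        rw [uf_eq (hrk η) hfn hζ hv, uf_eq (hrk η) (hs1 m).2.1.2 hζ (hs3 hm hn)]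
      · refine Eventually.of_forall fun m => ?_
        rw [uf_zero h, uf_zero]
        rintro ⟨v, ζ, hζ, e, hv⟩
        exact h ⟨v, ζ, hζ, e, hsub m hv⟩
    · obtain ⟨n, hn⟩ := x2.2.2 a'' ha
      have hηn : ∀ m, j η < x m := fun m =>
        (hηa.trans x1).trans_le (x2.1.monotone (Nat.zero_le m))
      obtain ⟨o, o1, o2⟩ := (hExt (x n) _ (hs1 n).2).2.2 η hη (hηn n) hdd u (hQm hn.le hu)
      rw [← hs2] at o2
      refine ⟨o, o1, fun y hy => ⟨(o2 y hy).1, lt_trans ?_ (x2.2.1 (n + 1)), hsub _ (o2 y hy).2⟩⟩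
      exact ((x3 (n + 1)).2.2.2.1 η hη (hηn _)).2 _ (o2 y hy).1
        ((x3 (n + 1)).2.1 _ (hs1 _).1 (hs1 _).2 _ (o2 y hy).2).1
  have hqS : ∀ p ∈ q, p.1 ∈ S := fun p hp => hS₀ ⟨p, hp, rfl⟩
  obtain ⟨i₀, hi₀⟩ := hBs q ⟨fun p hp => ⟨hqS p hp, mem_univ _⟩, hq.1⟩
  obtain ⟨F, hF, z, hz⟩ := hGd'.and (ev_gt hT i₀)
  obtain ⟨ε, ε1, ε2, ε3⟩ := hd F hF (max a₀ z)
  obtain ⟨n₀, hn₀⟩ := ε2.2.2 z ((le_max_right _ _).trans_lt ε1)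
  have hD' := ε2.shift n₀
  set D : ℕ → T := fun n => d ε (n + n₀) with hDdef
  have hg : ∀ n, Gd' (D n) ∧ i₀ < D n := fun n =>
    hz _ (hn₀.trans_le (ε2.1.monotone (by omega))) (ε3 _)
  have block' := fun n => block (D n) (D (n + 1)) (hD'.1 (Nat.lt_succ_self n)) (hg _).1
  choose! f f1 f2 f3 e e1 e2 e3 e4 e5 using block'
  obtain ⟨s, hz0, hs0⟩ : ∃ s : ℕ → T, s 0 = i₀ ∧ ∀ n, s (n + 1) = f n (s n) :=
    ⟨fun n => Nat.rec i₀ (fun n z => f n z) n, rfl, fun _ => rfl⟩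
  have hs1 : ∀ n, s n < D n ∧ St (Bs (s n)) := fun n => by
    induction n with
    | zero => rw [hz0]; exact ⟨(hg 0).2, hi₀ ▸ ⟨hq, hqS⟩⟩
    | succ n ih => rw [hs0]; exact ⟨f1 n _ ih.1 ih.2, f2 n _ ih.1 ih.2⟩
  have hs2 : ∀ n, fill S j (D n) (Bs (s n)) ⊆ Bs (s (n + 1)) := fun n =>
    hs0 n ▸ f3 n _ (hs1 n).1 (hs1 n).2
  have hs3 : Monotone fun n => Bs (s n) := monotone_nat_of_le_succ fun n =>
    subset_union_left.trans (hs2 n)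
  have hfn := chain_fn hs3 fun n => (hs1 n).2.1.2
  set σ := ⋃ n, Bs (s n) with hσ
  have hsub : ∀ n, Bs (s n) ⊆ σ := subset_iUnion (fun n => Bs (s n))
  set A := Code c b S j σ ∩ Iio ε with hA
  have hAn : ∀ n, A ∩ Iio (D n) = Code c b S j (fill S j (D n) (Bs (s n))) ∩ Iio (D n) := by
    intro n
    ext y
    constructor
    · rintro ⟨⟨⟨x, ⟨ζ, hζ, h1, h2⟩, rfl⟩, -⟩, hy⟩
      refine ⟨⟨x, ⟨ζ, hζ, h1, h2.imp_right ?_⟩, rfl⟩, hy⟩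
      rintro ⟨v, hv, h3⟩
      obtain ⟨v', hv'⟩ := fill_dom (j := j) (Bs (s n)) hζ
        (h1 ▸ (hg n).1.1.2.2.2.2.2.1 x (mem_univ _) hy)
      exact ⟨v, hfn _ _ _ (hsub _ (hs2 n hv')) hv ▸ hv', h3⟩
    · rintro ⟨⟨x, ⟨ζ, hζ, h1, h2⟩, rfl⟩, hy⟩
      refine ⟨⟨⟨x, ⟨ζ, hζ, h1, h2.imp_right ?_⟩, rfl⟩, lt_trans hy (hD'.2.1 n)⟩, hy⟩
      rintro ⟨v, hv, h3⟩
      exact ⟨v, hsub _ (hs2 n hv), h3⟩
  have hval : ∀ n, ∀ y ∈ Bs (s n), j y.1 < D n ∧ y.2 ∈ H (D n) ∧ c (j y.1, Sum.inr y.2) < D n :=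
    fun n => (hg n).1.1.2.1 _ (hs1 n).1 (hs1 n).2
  have hcode : ∀ ζ ∈ S, j ζ < ε → ∀ β < ε, β ∈ b ζ ↔ c (j ζ, Sum.inl β) ∈ A := by
    intro ζ hζ h1 β h2
    constructor
    · intro h
      obtain ⟨n, g1, g2⟩ := ((hD'.ev h1).and (hD'.ev h2)).exists
      exact ⟨⟨_, ⟨ζ, hζ, rfl, Or.inl ⟨β, h, rfl⟩⟩, rfl⟩,
        ((hg n).1.1.2.2.2.2.1 _ g1 _ g2).trans (hD'.2.1 n)⟩
    · rintro ⟨⟨x, ⟨ζ', hζ', g1, g2⟩, g3⟩, -⟩
      obtain rfl := hci g3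
      obtain rfl := hj hζ' hζ g1
      rcases g2 with ⟨β', g4, g5⟩ | ⟨v, -, g5⟩
      · obtain rfl := Sum.inl.inj g5
        exact g4
      · cases g5
  have htt : ∀ y ∈ σ, tt c ε A (b y.1) = y.2 := by
    intro y hy
    obtain ⟨n, hn⟩ := mem_iUnion.1 hy
    have hyS := (hs1 n).2.2 y hn
    have hyε := (hval n y hn).1.trans (hD'.2.1 n)
    have h : ∃ g, ∃ i < ε, (∀ β < ε, β ∈ b y.1 ↔ c (i, Sum.inl β) ∈ A) ∧ c (i, Sum.inr g) ∈ A :=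
      ⟨y.2, j y.1, hyε, hcode _ hyS hyε, ⟨_, ⟨y.1, hyS, rfl, Or.inr ⟨y.2, hy, rfl⟩⟩, rfl⟩,
        (hval n y hn).2.2.trans (hD'.2.1 n)⟩
    rw [tt, dif_pos h]
    obtain ⟨i, g1, g2, ⟨x, ⟨ζ, hζ, g3, g4⟩, g5⟩, -⟩ := h.choose_spec
    obtain rfl := hci g5
    simp only at g3 g4
    subst g3
    rcases g4 with ⟨β', -, g5⟩ | ⟨v, g4, g5⟩
    · cases g5
    rw [Sum.inr.inj g5]
    have : y.1 = ζ := by
      by_contra hne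
      obtain ⟨m, m1, m2⟩ := ((hD'.ev hyε).and (hD'.ev g1)).exists
      obtain ⟨β, b1, b2⟩ := ((hg m).1.1.2.2.2.2.2.2 _ hyS m1).2 ζ hζ m2 hne
      have b3 := b1.trans (hD'.2.1 m)
      exact b2 ((g2 β b3).trans (hcode ζ hζ g1 β b3).symm)
    exact hfn ζ _ _ g4 (this ▸ hy)
  refine ⟨ε, A, {ζ ∈ S | j ζ < ε}, (le_max_left _ _).trans_lt ε1, ε2, inter_subset_right,
    ⟨fun n => col (e n (s n)), fun n => (e3 n _ (hs1 n).1 (hs1 n).2).trans (hD'.2.1 _), ?_⟩,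
    fun y hy => ?_, fun η hη => ?_⟩
  · simp only [fun n => e4 n _ (hs1 n).1 (hs1 n).2, ← hAn]
    ext y
    constructor
    · intro hy
      obtain ⟨n, hn⟩ := hD'.2.2 y hy.2
      exact mem_iUnion.2 ⟨n, hy, hn⟩
    · intro hy
      obtain ⟨n, hn⟩ := mem_iUnion.1 hy
      exact hn.1
  · have hy' : y ∈ Bs (s 0) := by rw [hz0, hi₀]; exact hy
    exact ⟨⟨hqS y hy, (hval 0 y hy').1.trans (hD'.2.1 0)⟩, htt y (hsub 0 hy')⟩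
  obtain ⟨n₁, hn₁⟩ := eventually_atTop.1 (hD'.ev hη.2)
  refine ⟨((hg n₁).1.1.2.2.2.2.2.2 η hη.1 (hn₁ _ le_rfl)).1.trans (hD'.2.1 _), ?_,
    fun ζ hζ h => ⟨hSM η hη.1 hζ, ?_⟩, fun hdd => ?_⟩
  · obtain ⟨v, hv⟩ := fill_dom (j := j) (Bs (s n₁)) hη.1 (hn₁ _ le_rfl)
    rw [htt (η, v) (hsub _ (hs2 _ hv))]
    exact hHm (hD'.2.1 _).le (hval _ _ (hs2 _ hv)).2.1
  · obtain ⟨m, m1, m2⟩ := ((hD'.ev h).and (hD'.ev hη.2)).exists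
    exact (((hg m).1.1.2.2.2.1 η hη.1 m2).1 ζ hζ m1).trans (hD'.2.1 m)
  refine eventually_atTop.2 ⟨n₁ + n₀, fun m hm => ?_⟩
  obtain ⟨n, rfl⟩ : ∃ n, m = n + n₀ := ⟨m - n₀, by omega⟩
  have hn : j η < D n := hn₁ n (by omega)
  have hn' : j η < D (n + 1) := hn₁ _ (by omega)
  rw [show d ε (n + n₀ + 1) = D (n + 1) from congrArg (d ε) (by omega)]
  obtain ⟨g1, g2⟩ := e5 n _ (hs1 n).1 (hs1 n).2 η hη.1 hn
  rw [← hs0] at g1 g2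
  refine ⟨e n (s n), e1 n _ (hs1 n).1 (hs1 n).2, e2 n _ (hs1 n).1 (hs1 n).2,
    (e4 n _ (hs1 n).1 (hs1 n).2).trans (hAn n).symm, ⟨_, g1, fun ζ hζ h => ?_⟩,
    fun a ha u hu => ?_⟩
  · by_cases h1 : ∃ v, (ζ, v) ∈ Bs (s (n + 1))
    · obtain ⟨v, hv⟩ := h1
      rw [uf_eq (hrk η) (hs1 _).2.1.2 hζ hv]
      exact htt (ζ, v) (hsub _ hv)
    · rw [uf_zero]
      · exact htt (ζ, 0) (hsub _ (hs2 (n + 1) (Or.inr ⟨ζ, ⟨⟨hSM η hη.1 hζ,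
          ((hg _).1.1.2.2.2.1 η hη.1 hn').1 ζ hζ h⟩, not_exists.1 h1⟩, rfl⟩)))
      · rintro ⟨v, ζ', hζ', e, hv⟩
        obtain rfl := hrk η hζ' hζ e
        exact h1 ⟨v, hv⟩
  · obtain ⟨o, o1, o2⟩ := g2 hdd a ha u hu
    refine ⟨o, o1, fun y hy => ⟨(o2 y hy).1, (o2 y hy).2.1, ?_⟩⟩
    have := htt _ (hsub (n + 1) (o2 y hy).2.2)
    simp only at this ⊢
    rw [this, sub_add_cancel]

end

end Pool.Agent.P.MP_39acbb_lc
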