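import Pool.Agent.P.MP_39acbb_lc.Cols

set_option autoImplicit false
set_option linter.deprecated false

namespace Pool.Agent.P.MP_39acbb_lc

open Cardinal Set

universe u

variable {T L : Type u} [LinearOrder T] [LinearOrder L]

/-- closure points whose cofinality differs from that of `L` -/
lemma exists_nice [WellFoundedLT T] (hT : Reg T) [NoMaxOrder L] {σ : Cardinal.{u}}
    (hσ : σ.IsRegular) (hσT : σ < #T) (hσL : σ ≠ Order.cof L) (F : T → Set T)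
    (hF : ∀ γ, #(F γ) < #T) (a : T) :
    ∃ δ, a < δ ∧ (∀ γ < δ, F γ ⊆ Iio δ) ∧
      ∀ g : T → L, ∃ j, ∀ β < δ, ∃ α, β ≤ α ∧ α < δ ∧ g α < j := by
  classical
  have h0 := hT.inf
  have hW := reg_toType hσ
  have hk : #σ.ord.ToType = σ := mk_ord_toType σ
  obtain ⟨r, hr⟩ := chain_rec (T := σ.ord.ToType) ({a} : Set T) (fun s => #s < #T)
    (fun _ s s' => ∃ b ∈ s', (∀ y ∈ s, y < b) ∧ (∀ y ∈ s, ∀ γ ≤ y, F γ ⊆ Iio b) ∧ ∀ y ∈ s', y ≤ b)
    (fun γ r h => sm_union h0 (sm_single h0 _) (sm_biUnion hT.reg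
      (((hW.init γ).trans_eq hk).trans hσT) fun β hβ => (h β hβ).1))
    (fun γ s hs => by
      obtain ⟨b, hb⟩ := hT.bdd (s ∪ ⋃ y ∈ s, ⋃ γ ∈ Iic y, F γ) (sm_union h0 hs
        (sm_biUnion hT.reg hs fun y _ => sm_biUnion hT.reg (hT.iic y) fun γ _ => hF γ))
      refine ⟨s ∪ {b}, sm_union h0 hs (sm_single h0 _), subset_union_left, b, Or.inr rfl,
        fun y hy => hb y (Or.inl hy), fun y hy γ hγ w hw => hb w (Or.inr
          (mem_iUnion₂.2 ⟨y, hy, mem_iUnion₂.2 ⟨γ, hγ, hw⟩⟩)), ?_⟩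
      rintro y (hy | rfl)
      · exact (hb y (Or.inl hy)).le
      · exact le_rfl)
  choose b hb1 hb2 hb3 hb4 using fun γ => (hr γ).2.2.2
  have hmem : ∀ ξ ξ', ξ < ξ' → b ξ ∈ ({a} : Set T) ∪ ⋃ β ∈ Iio ξ', r β := fun ξ ξ' h =>
    Or.inr (mem_iUnion₂.2 ⟨ξ, h, hb1 ξ⟩)
  have hmono : StrictMono b := fun ξ ξ' h => hb2 ξ' _ (hmem ξ ξ' h)
  have hne : {z | ∀ ξ, b ξ < z}.Nonempty := by
    obtain ⟨z, hz⟩ := hT.bdd (range b) (mk_range_le.trans_lt (hk.trans_lt hσT))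
    exact ⟨z, fun n => hz _ ⟨n, rfl⟩⟩
  let δ := wellFounded_lt.min _ hne
  have hδ : ∀ ξ, b ξ < δ := wellFounded_lt.min_mem _ hne
  have hcof : ∀ γ < δ, ∃ ξ, γ ≤ b ξ := fun γ hγ => by
    by_contra hcon
    push Not at hcon
    exact wellFounded_lt.not_lt_min {z | ∀ ξ, b ξ < z} (x := γ) hcon hγ
  obtain ⟨ξ₀⟩ := hW.nonempty
  refine ⟨δ, (hb2 ξ₀ a (Or.inl rfl)).trans (hδ ξ₀), fun γ hγ w hw => ?_, fun g => ?_⟩
  · obtain ⟨ξ, hξ⟩ := hcof γ hγ
    obtain ⟨ξ', hξ'⟩ := hW.exists_gt ξ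
    exact lt_trans (hb3 ξ' _ (hmem ξ ξ' hξ') γ hξ hw) (hδ ξ')
  · by_contra hcon
    push Not at hcon
    have h1 : ∀ j, ∃ ξ, ∀ ξ', ξ ≤ ξ' → j ≤ g (b ξ') := fun j => by
      obtain ⟨β, hβ, h⟩ := hcon j
      obtain ⟨ξ, hξ⟩ := hcof β hβ
      exact ⟨ξ, fun ξ' h' => h _ (hξ.trans (hmono.monotone h')) (hδ ξ')⟩
    choose x hx using h1
    apply hσL
    apply le_antisymm
    · obtain ⟨Y, hY, hYc⟩ := Order.exists_cof_eq L
      by_contra hlt
      rw [not_le, ← hYc] at hlt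
      obtain ⟨ξ, hξ⟩ := hW.bdd (x '' Y) (by rw [hk]; exact sm_image _ hlt)
      obtain ⟨j, hj⟩ := exists_gt (g (b ξ))
      obtain ⟨j', hj', hjj⟩ := hY j
      exact absurd (hx j' ξ (hξ _ ⟨j', hj', rfl⟩).le) (not_le.2 (hj.trans_le hjj))
    · refine (Order.cof_le (s := range fun ξ => g (b ξ)) fun j => ?_).trans
        (mk_range_le.trans hk.le)
      exact ⟨_, ⟨x j, rfl⟩, hx j _ le_rfl⟩

/-- Shelah's theorem: `2 ^ μ = μ⁺` implies diamond at `μ⁺` for uncountable `μ`. -/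
theorem guess_of_gch {μ : Cardinal.{u}} (hμ : ℵ₀ < μ) (h : 2 ^ μ = Order.succ μ) :
    Guess (Order.succ μ).ord.ToType := by
  classical
  have hreg := isRegular_succ hμ.le
  have hT := reg_toType hreg
  set T := (Order.succ μ).ord.ToType with hTdef
  have hkT : #T = Order.succ μ := mk_ord_toType _
  have h0 := hT.inf
  set L := μ.ord.ToType with hLdef
  have hkL : #L = μ := mk_ord_toType _
  have : NoMaxOrder L := noMaxOrder hμ.le
  have hLT : #L < #T := by rw [hkL, hkT]; exact Order.lt_succ μ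
  have hLi : ∀ j : L, #(Iio j) < μ := fun j => mk_Iio_toType_ord_lt j
  have hLne : Nonempty L := by
    rw [← mk_ne_zero_iff, hkL]; exact (aleph0_pos.trans hμ).ne'
  have hTne := hT.nonempty
  obtain ⟨σ, hσ, hσT, hσL⟩ : ∃ σ : Cardinal.{u}, σ.IsRegular ∧ σ < #T ∧ σ ≠ Order.cof L := by
    by_cases hc : Order.cof L = ℵ₀
    · refine ⟨Order.succ ℵ₀, isRegular_succ le_rfl, ?_, ?_⟩
      · rw [hkT]; exact Order.lt_succ_of_le (Order.succ_le_of_lt hμ)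
      · rw [hc]; exact (Order.lt_succ _).ne'
    · exact ⟨ℵ₀, isRegular_aleph0, by rw [hkT]; exact Order.lt_succ_of_le hμ.le, Ne.symm hc⟩
  -- injections of initial segments into `L`
  have h1 : ∀ δ : T, ∃ u : T → L, InjOn u (Iio δ) := fun δ => by
    have : #(Iio δ) ≤ #L := by
      rw [hkL]; exact Order.le_of_lt_succ ((hT.init δ).trans_eq hkT)
    obtain ⟨e⟩ := (le_def _ _).1 this
    refine ⟨fun x => if hx : x < δ then e ⟨x, hx⟩ else Classical.arbitrary L, fun x hx y hy hxy => ?_⟩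
    simp only [dif_pos (mem_Iio.1 hx), dif_pos (mem_Iio.1 hy)] at hxy
    exact congrArg Subtype.val (e.injective hxy)
  choose u hu using h1
  let A : T → L → Set T := fun δ j => {β | β < δ ∧ u δ β < j}
  have hA : ∀ δ j, #(A δ j) < μ := fun δ j =>
    lt_of_le_of_lt (mk_le_of_injective (f := fun β : A δ j => (⟨u δ β.1, β.2.2⟩ : Iio j))
      fun β β' hβ => Subtype.ext (hu δ β.2.1 β'.2.1 (congrArg (fun z : Iio j => z.1) hβ))) (hLi j)
  -- enumeration of the small sets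
  obtain ⟨X, hX⟩ : ∃ X : T → Set (L × L × T), ∀ s : Set (L × L × T), #s ≤ μ → ∃ β, X β = s := by
    have h2 : #{s : Set (L × L × T) // #s ≤ μ} ≤ #T := by
      refine (mk_bounded_set_le _ _).trans ?_
      have : max #(L × L × T) ℵ₀ ≤ 2 ^ μ := by
        rw [h, ← hkT]
        refine max_le ?_ h0
        rw [mk_prod, mk_prod, lift_id, lift_id, lift_id]
        exact mul_le_of_le h0 hLT.le (mul_le_of_le h0 hLT.le le_rfl)
      refine (power_le_power_right this).trans ?_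
      rw [← power_mul, mul_eq_self hμ.le, h, hkT]
    obtain ⟨e⟩ := (le_def _ _).1 h2
    have : Nonempty {s : Set (L × L × T) // #s ≤ μ} := ⟨⟨∅, by simp⟩⟩
    exact ⟨fun β => (Function.invFun e β).1, fun s hs => ⟨e ⟨s, hs⟩, by
      simp only [Function.leftInverse_invFun e.injective _]⟩⟩
  let Xs : T → L → L → Set T := fun β j τ => {x | (j, τ, x) ∈ X β}
  have lem1 : ∃ j : L, ∀ (Z : L → Set T) (F : T → Set T), (∀ γ, #(F γ) < #T) → ∀ a, ∃ δ, a < δ ∧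
      (∀ γ < δ, F γ ⊆ Iio δ) ∧ ∀ β' < δ, ∃ α ∈ A δ j, ∃ β ∈ A δ j, β' ≤ α ∧
        ∀ τ, Xs β j τ = Z τ ∩ Iio α := by
    by_contra hcon
    push Not at hcon
    choose Z F hF a hbad using hcon
    have h3 : ∀ α : T, ∃ β, X β = {y | y.2.2 ∈ Z y.1 y.2.1 ∧ y.2.2 < α} := fun α => by
      apply hX
      refine le_trans (mk_le_mk_of_subset
        (t := (Set.univ : Set L) ×ˢ (Set.univ : Set L) ×ˢ Iio α) fun y hy => ⟨trivial, trivial, hy.2⟩) ?_
      rw [mk_setProd, mk_setProd, mk_univ, hkL]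
      exact mul_le_of_le hμ.le le_rfl (mul_le_of_le hμ.le le_rfl
        (Order.le_of_lt_succ ((hT.init α).trans_eq hkT)))
    choose f hf using h3
    obtain ⟨a₀, ha₀⟩ := hT.bdd (range a) (mk_range_le.trans_lt hLT)
    obtain ⟨δ, d1, d2, d3⟩ := exists_nice (L := L) hT hσ hσT hσL
      (fun γ => {f γ} ∪ ⋃ j ∈ (Set.univ : Set L), F j γ)
      (fun γ => sm_union h0 (sm_single h0 _) (sm_biUnion hT.reg (by rwa [mk_univ])
        fun j _ => hF j γ)) a₀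
    obtain ⟨j, hj⟩ := d3 (fun α => max (u δ α) (u δ (f α)))
    obtain ⟨β', hβ', hb⟩ := hbad j δ ((ha₀ _ ⟨j, rfl⟩).trans d1)
      (fun γ hγ w hw => d2 γ hγ (Or.inr (mem_iUnion₂.2 ⟨j, trivial, hw⟩)))
    obtain ⟨α, e1, e2, e3⟩ := hj β' hβ'
    obtain ⟨τ, hτ⟩ := hb α ⟨e2, (le_max_left _ _).trans_lt e3⟩ (f α)
      ⟨d2 α e2 (Or.inl rfl), (le_max_right _ _).trans_lt e3⟩ e1
    apply hτ
    ext x
    simp only [Xs, hf α, mem_setOf_eq, mem_inter_iff, mem_Iio]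
  obtain ⟨j, hj⟩ := lem1
  by_contra hng
  let V : (L → Set T) → L → T → Set (T × T) := fun Z τ δ =>
    {y | y.1 ∈ A δ j ∧ y.2 ∈ A δ j ∧ ∀ η < τ, Xs y.2 j η = Z η ∩ Iio y.1}
  let S : (L → Set T) → L → T → Set T := fun Z τ δ => ⋃ y ∈ V Z τ δ, Xs y.2 j τ
  have hV : ∀ Z Z' τ δ, (∀ η < τ, Z η = Z' η) → V Z τ δ = V Z' τ δ := fun Z Z' τ δ hZ => by
    ext y
    refine and_congr_right fun _ => and_congr_right fun _ => forall₂_congr fun η hη => ?_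
    rw [hZ η hη]
  have h4 : ∀ (τ : L) (Z : L → Set T), ∃ (Z' : Set T) (F : T → Set T), (∀ γ, #(F γ) < #T) ∧ ∃ a,
      ∀ ε, a < ε → (∀ γ < ε, F γ ⊆ Iio ε) → Z' ∩ Iio ε ≠ S Z τ ε := fun τ Z => by
    by_contra hcon
    push Not at hcon
    exact hng ⟨S Z τ, hcon⟩
  choose Zb Fb hFb ab hbad using h4
  let Z : L → Set T := (wellFounded_lt (α := L)).fix
    (fun τ rec => Zb τ (fun η => if h : η < τ then rec η h else ∅))
  let Z' : L → L → Set T := fun τ η => if η < τ then Z η else ∅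
  have hZ : ∀ τ, Z τ = Zb τ (Z' τ) := fun τ => by
    show (wellFounded_lt (α := L)).fix _ τ = _
    rw [WellFounded.fix_eq]
    congr 1
  have hVZ : ∀ τ δ, V (Z' τ) τ δ = V Z τ δ := fun τ δ => hV _ _ _ _ fun η hη => if_pos hη
  choose sc hsc using hT.exists_gt
  obtain ⟨a₀, ha₀⟩ := hT.bdd (range fun τ => ab τ (Z' τ)) (mk_range_le.trans_lt hLT)
  obtain ⟨δ, d1, d2, d3⟩ := hj Z (fun γ => {sc γ} ∪ ⋃ τ ∈ (Set.univ : Set L), Fb τ (Z' τ) γ)
    (fun γ => sm_union h0 (sm_single h0 _) (sm_biUnion hT.reg (by rwa [mk_univ])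
      fun τ _ => hFb τ _ γ)) a₀
  have h5 : ∀ τ, ∃ y ∈ V Z τ δ, Xs y.2 j τ ≠ Z τ ∩ Iio y.1 := fun τ => by
    by_contra hcon
    push Not at hcon
    refine hbad τ (Z' τ) δ ((ha₀ _ ⟨τ, rfl⟩).trans d1)
      (fun γ hγ w hw => d2 γ hγ (Or.inr (mem_iUnion₂.2 ⟨τ, trivial, hw⟩))) ?_
    rw [← hZ]
    simp only [S, hVZ]
    ext x
    rw [mem_iUnion₂]
    constructor
    · rintro ⟨hx1, hx2⟩
      obtain ⟨α, hα, β, hβ, e1, e2⟩ := d3 (sc x) (d2 x hx2 (Or.inl rfl))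
      refine ⟨(α, β), ⟨hα, hβ, fun η _ => e2 η⟩, ?_⟩
      rw [e2 τ]
      exact ⟨hx1, (hsc x).trans_le e1⟩
    · rintro ⟨y, hy, hx⟩
      rw [hcon y hy] at hx
      exact ⟨hx.1, lt_trans hx.2 hy.1.1⟩
  choose w hw1 hw2 using h5
  have h6 : #L ≤ #(A δ j ×ˢ A δ j : Set (T × T)) :=
    mk_le_of_injective (f := fun τ => (⟨w τ, (hw1 τ).1, (hw1 τ).2.1⟩ : (A δ j ×ˢ A δ j : Set (T × T))))
      fun τ τ' hτ => by
        have e : w τ = w τ' := congrArg (fun z : (A δ j ×ˢ A δ j : Set (T × T)) => z.1) hτ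
        rcases lt_trichotomy τ τ' with hl | hl | hl
        · exact absurd (e ▸ (hw1 τ').2.2 τ hl) (hw2 τ)
        · exact hl
        · exact absurd (e ▸ (hw1 τ).2.2 τ' hl) (hw2 τ')
  rw [hkL] at h6
  exact absurd (sm_prod hμ.le (hA δ j) (hA δ j)) (not_lt.2 h6)

end Pool.Agent.P.MP_39acbb_lc
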