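import Pool.Agent.P.MP_39acbb_lc.Dia
import Pool.Agent.P.MP_39acbb_lc.Shelah
import Pool.Agent.P.MP_39acbb_lc.CH

set_option autoImplicit false

namespace Pool.Agent.P.MP_39acbb_lc

universe u

lemma not_nodec
    (h : ∀ (G : Type u) [Group G] [TopologicalSpace G] [IsTopologicalGroup G] [T2Space G],
      ¬ DiscreteTopology G →
        ∃ (A : Set G) (x : G), IsNowhereDense A ∧ AccPt x (Filter.principal A))
    (G : Type u) [AddCommGroup G] : ¬ Nodec G := by
  rintro ⟨τ, h1, h2, h3, h4⟩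
  obtain ⟨A, x, hA, hx⟩ := @h (Multiplicative G) _ τ (inferInstance : IsTopologicalGroup
    (Multiplicative G)) h2 h3
  obtain ⟨V, hV, hVA⟩ := h4 A hA x
  obtain ⟨y, hy, hyx⟩ := accPt_iff_nhds.1 hx V hV
  exact hyx (hVA hy)

end Pool.Agent.P.MP_39acbb_lc
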