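import Pool.Agent.P.MP_39acbb_lc.InC
import Pool.Agent.P.MP_39acbb_lc.Key

/-! The group. -/

set_option autoImplicit false
set_option linter.deprecated false
set_option linter.unusedSectionVars false

namespace Pool.Agent.P.MP_39acbb_lc

open Cardinal Set Filter

universe u

variable {T : Type u} [LinearOrder T]

section
variable {R : Type u}

/-- the filtration by levels -/
def HL (lv : R → T) (ε : T) : AddSubgroup (R →₀ ZMod 2) where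
  carrier := {g | ∀ ρ, ε ≤ lv ρ → g ρ = 0}
  zero_mem' := fun _ _ => rfl
  add_mem' := fun {a b} ha hb β h => by simp [ha β h, hb β h]
  neg_mem' := fun {a} ha β h => by simp [ha β h]

lemma HL_mono (lv : R → T) : Monotone (HL lv) := fun _ _ h _ hg β hβ => hg β (h.trans hβ)

lemma single_mem_HL {lv : R → T} {ρ : R} {δ : T} (h : lv ρ < δ) :
    Finsupp.single ρ (1 : ZMod 2) ∈ HL lv δ := fun ρ' hβ =>
  Finsupp.single_eq_of_ne (by rintro rfl; exact absurd h (not_lt.2 hβ))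

lemma sum_not_mem_HL {lv : R → T} {ε : T} {F : Finset R} (hne : F.Nonempty)
    (hF : ∀ ρ ∈ F, lv ρ = ε) : ∑ ρ ∈ F, Finsupp.single ρ (1 : ZMod 2) ∉ HL lv ε := fun h => by
  classical
  obtain ⟨ρ, hρ⟩ := hne
  have := h ρ (hF ρ hρ).ge
  rw [Finsupp.finsetSum_apply] at this
  simp [Finsupp.single_apply, hρ] at this

lemma exists_mem_HL (hT : Reg T) (lv : R → T) (g : R →₀ ZMod 2) : ∃ a, g ∈ HL lv a := by
  obtain ⟨b, hb⟩ := hT.bdd (lv '' g.support) (sm_finite hT.inf (g.support.finite_toSet.image _))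
  refine ⟨b, fun β hβ => ?_⟩
  by_contra h
  exact absurd (hb _ ⟨β, Finsupp.mem_support_iff.2 h, rfl⟩) (not_lt.2 hβ)

lemma ev_mem_HL {lv : R → T} {x : ℕ → T} {ε : T} (h : Lad x ε) {g : R →₀ ZMod 2}
    (hg : g ∈ HL lv ε) : ∀ᶠ n in atTop, g ∈ HL lv (x n) := by
  have : ∀ᶠ n in atTop, ∀ ρ ∈ g.support, lv ρ < x n :=
    (eventually_all_finset _).2 fun ρ hρ => h.ev (by
      by_contra hc
      exact Finsupp.mem_support_iff.1 hρ (hg ρ (not_lt.1 hc)))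
  refine this.mono fun n hn ρ hρ => ?_
  by_contra hc
  exact absurd (hn ρ (Finsupp.mem_support_iff.2 hc)) (not_lt.2 hρ)

lemma top_level (lv : R → T) (t : R → (R →₀ ZMod 2)) (A : Set R)
    (ht : ∀ ρ ∈ A, t ρ ∈ HL lv (lv ρ)) {x : R →₀ ZMod 2}
    (hx : x ∈ AddSubgroup.closure ((fun ρ => Finsupp.single ρ (1 : ZMod 2) - t ρ) '' A)) :
    x = 0 ∨ ∃ (ε : T) (F : Finset R), F.Nonempty ∧ (∀ ρ ∈ F, ρ ∈ A ∧ lv ρ = ε) ∧
      x - ∑ ρ ∈ F, Finsupp.single ρ (1 : ZMod 2) ∈ HL lv ε := by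
  classical
  obtain ⟨F, hF, rfl⟩ := closure_rep bool_G _ A hx
  rcases F.eq_empty_or_nonempty with rfl | hne
  · left; simp
  right
  obtain ⟨ρ₀, h1, h2⟩ := F.exists_max_image lv hne
  refine ⟨lv ρ₀, F.filter fun ρ => lv ρ = lv ρ₀, ⟨ρ₀, by simp [h1]⟩,
    fun ρ hρ => ⟨hF (Finset.mem_filter.1 hρ).1, (Finset.mem_filter.1 hρ).2⟩, ?_⟩
  rw [Finset.sum_sub_distrib, ← Finset.sum_filter_add_sum_filter_not F (fun ρ => lv ρ = lv ρ₀),
    sub_right_comm, add_sub_cancel_left]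
  refine sub_mem (sum_mem fun ρ hρ => ?_)
    (sum_mem fun ρ hρ => HL_mono lv (h2 ρ hρ) (ht ρ (hF hρ)))
  exact single_mem_HL (lt_of_le_of_ne (h2 ρ (Finset.mem_filter.1 hρ).1) (Finset.mem_filter.1 hρ).2)

/-- Rows that follow the pattern are mutually generic. -/
lemma mutual_gen {Θ G : Type u} [AddCommGroup G] {d : ℕ → T} {ε : T} (hd : Lad d ε)
    {id : T → Set T} {Q : T → AddSubmonoid (T → G)} (hQ : Monotone Q) {M : Set Θ} {rk : Θ → T}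
    {𝒟 : Set (Set (Θ × G))} {A : R → Set T} {t : R → Θ → G} {F : Finset R} (hne : F.Nonempty)
    (hP : ∀ ρ ∈ F, Pat d id Q M rk 𝒟 (A ρ) (t ρ)) (hA : ∀ ρ ∈ F, A ρ ⊆ Iio ε)
    (hinj : ∀ ρ ∈ F, ∀ ρ' ∈ F, A ρ = A ρ' → ρ = ρ') {h : G}
    (hh : ∀ᶠ n in atTop, (fun _ => h) ∈ Q (d n)) :
    ∃ o ∈ 𝒟, ∀ y ∈ o, y.1 ∈ M ∧ rk y.1 < ε ∧ y.2 = ∑ ρ ∈ F, t ρ y.1 + h := by
  classical
  have h1 : ∀ᶠ n in atTop, ∀ ρ ∈ F, ∀ ρ' ∈ F, A ρ ∩ Iio (d n) = A ρ' ∩ Iio (d n) → ρ = ρ' :=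
    (eventually_all_finset _).2 fun ρ hρ => (eventually_all_finset _).2 fun ρ' hρ' => by
      by_cases e : ρ = ρ'
      · exact Eventually.of_forall fun _ _ => e
      obtain ⟨β, hβ⟩ := not_forall.1 fun h => e (hinj ρ hρ ρ' hρ' (Set.ext h))
      have hε : β < ε := by
        by_contra hc
        exact hβ ⟨fun h => absurd (hA ρ hρ h) hc, fun h => absurd (hA ρ' hρ' h) hc⟩
      refine (hd.ev hε).mono fun n hn h => absurd ⟨fun g => ?_, fun g => ?_⟩ hβ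
      · exact (h.subset ⟨g, hn⟩).1
      · exact (h.symm.subset ⟨g, hn⟩).1
  obtain ⟨n, n1, n2, n3⟩ := (h1.and (hh.and ((eventually_all_finset F).2 hP))).exists
  have := (⟨d 0⟩ : Nonempty T)
  choose! b b1 b2 b3 b4 b5 using n3
  choose! u u1 u2 using b4
  obtain ⟨ρ₁, r1, r2⟩ := F.exists_max_image b hne
  have h2 : ∀ ρ ∈ F.erase ρ₁, b ρ < b ρ₁ := fun ρ hρ => by
    obtain ⟨g1, g2⟩ := Finset.mem_erase.1 hρ
    refine lt_of_le_of_ne (r2 ρ g2) fun e => g1 (n1 ρ g2 ρ₁ r1 ?_)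
    rw [← b3 ρ g2, ← b3 ρ₁ r1, e]
  obtain ⟨a, a1, a2, a3⟩ : ∃ a < b ρ₁, d n ≤ a ∧ ∀ ρ ∈ F.erase ρ₁, b ρ ≤ a := by
    refine ⟨(insert (d n) ((F.erase ρ₁).image b)).max' (Finset.insert_nonempty _ _), ?_,
      Finset.le_max' _ _ (Finset.mem_insert_self _ _), fun ρ hρ => Finset.le_max' _ _
        (Finset.mem_insert_of_mem (Finset.mem_image_of_mem b hρ))⟩
    rw [Finset.max'_lt_iff]
    intro y hy
    rcases Finset.mem_insert.1 hy with rfl | hy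
    · exact b1 ρ₁ r1
    · obtain ⟨ρ, hρ, rfl⟩ := Finset.mem_image.1 hy
      exact h2 ρ hρ
  obtain ⟨o, o1, o2⟩ := b5 ρ₁ r1 a a1 (∑ ρ ∈ F.erase ρ₁, u ρ + fun _ => h) (add_mem
    (sum_mem fun ρ hρ => hQ (a3 ρ hρ) (u1 ρ (Finset.mem_of_mem_erase hρ))) (hQ a2 n2))
  refine ⟨o, o1, fun y hy => ?_⟩
  obtain ⟨y1, y2, y3⟩ := o2 y hy
  have y4 := y2.trans (b2 ρ₁ r1)
  refine ⟨y1, y4.trans (hd.2.1 _), ?_⟩
  rw [y3, ← Finset.add_sum_erase F _ r1, Pi.add_apply, Finset.sum_apply, add_assoc,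
    Finset.sum_congr rfl fun ρ hρ => u2 ρ (Finset.mem_of_mem_erase hρ) _ y1 y4]

end

theorem nodec_of_closed [WellFoundedLT T] (hT : Reg T) (h1 : ℵ₁ < #T) (hc : Cnt #T)
    (hω : ∀ μ < #T, μ ^ ℵ₀ < #T) :
    ∃ (G : Type u) (_ : AddCommGroup G), #G ≤ #T ∧ Nodec G := by
  classical
  have h0 := hT.inf
  have hun : ℵ₀ < #T := aleph0_lt_aleph_one.trans h1
  obtain ⟨d, hd⟩ := club_guess hT h1
  obtain ⟨col, hcol⟩ := solovay hT hun
  obtain ⟨BT, hBT⟩ := enum_le (T := T) (hc T Set.univ (by rw [mk_univ]))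
  let R := {ρ : T × Set T // ρ.2 ⊆ Iio ρ.1 ∧ ∃ s ∈ Sq ρ.1, ρ.2 = ⋃ n, BT (s n)}
  let lv : R → T := fun ρ => ρ.1.1
  have hfib : ∀ ε, #{ρ : R | lv ρ = ε} < #T := fun ε => by
    refine lt_of_le_of_lt ?_ (sm_image (fun s => ⋃ n, BT (s n)) (sm_Sq hT hω ε))
    refine mk_le_of_injective (f := fun ρ => ⟨ρ.1.1.2, ?_⟩) fun ρ ρ' h => Subtype.ext (Subtype.ext
      (Prod.ext (ρ.2.trans ρ'.2.symm) (congrArg Subtype.val h)))
    obtain ⟨s, h1, h2⟩ := ρ.1.2.2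
    exact ⟨s, ρ.2 ▸ h1, h2.symm⟩
  have hR : #R ≤ #T := by
    rw [← mk_univ]
    refine (mk_le_mk_of_subset fun ρ _ => ?_).trans (le_biUnion h0 (s := (Set.univ : Set T))
      (t := fun ε => {ρ : R | lv ρ = ε}) (by rw [mk_univ]) fun ε _ => (hfib ε).le)
    exact mem_iUnion₂.2 ⟨lv ρ, mem_univ _, rfl⟩
  have hG : #(R →₀ ZMod 2) ≤ #T := by
    rw [← mk_univ]
    refine (mk_le_mk_of_subset fun g _ => ?_).trans ((mk_supp_le (Set.univ : Set R)).trans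
      (max_le h0 (by rwa [mk_univ])))
    exact fun β h => absurd (mem_univ β) h
  have hHs : ∀ a, #(HL lv a : Set (R →₀ ZMod 2)) < #T := fun a => by
    refine lt_of_le_of_lt ((mk_le_mk_of_subset fun g hg => ?_).trans
      (mk_supp_le (⋃ ε ∈ Iio a, {ρ : R | lv ρ = ε})))
      (max_lt hun (sm_biUnion hT.reg (hT.init a) fun ε _ => hfib ε))
    exact fun β h => hg β (not_lt.1 fun hl => h (mem_iUnion₂.2 ⟨lv β, hl, rfl⟩))
  obtain ⟨Q, B, hQm, hQs, hQc, hB, hQ⟩ := exists_Q hT hun hc hω hG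
    (fun a => (HL lv a : Set (R →₀ ZMod 2))) hHs fun _ _ h => HL_mono lv h
  have hθ : ℵ₀ ≤ 2 ^ #T := h0.trans (cantor _).le
  let Θ := (2 ^ #T : Cardinal.{u}).ord.ToType
  have hΘ : #Θ = 2 ^ #T := mk_ord_toType _
  have hne : Nonempty Θ := by
    rw [← mk_ne_zero_iff, hΘ]; exact (aleph0_pos.trans_le hθ).ne'
  have := hT.nonempty
  obtain ⟨b⟩ : Nonempty (Θ ↪ Set T) := (le_def _ _).1 (by rw [hΘ, mk_set])
  obtain ⟨c⟩ : Nonempty (T × (T ⊕ (R →₀ ZMod 2)) ↪ T) := (le_def _ _).1 (by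
    rw [mk_prod, mk_sum, lift_id, lift_id, lift_id]
    exact mul_le_of_le h0 le_rfl (add_le_of_le h0 le_rfl hG))
  obtain ⟨f, hf⟩ := book hθ (Y := Set (R →₀ ZMod 2) × T) (by
    rw [mk_prod, lift_id, lift_id, mk_set]
    exact mul_le_of_le hθ (power_le_power_left two_ne_zero hG) (cantor _).le)
  let X : Θ → Set (R →₀ ZMod 2) := fun η => (f η).1
  let α : Θ → T := fun η => (f η).2
  choose M rk hM hrk hMD using exists_MR (Θ := Θ) hT hc hG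
  let t : R → Θ → (R →₀ ZMod 2) := fun ρ ζ => tt c (lv ρ) ρ.1.2 (b ζ)
  let k : Θ → R → (R →₀ ZMod 2) := fun η ρ => Finsupp.single ρ (1 : ZMod 2) - t ρ η
  let A : (Θ → AddSubgroup (R →₀ ZMod 2)) → Set (Set (Θ × (R →₀ ZMod 2))) → Θ → Set R :=
    fun K 𝒟 η => {ρ | α η ≤ lv ρ ∧ t ρ η ∈ HL lv (lv ρ) ∧ (Dn #T η 𝒟 → Lad (d (lv ρ)) (lv ρ) ∧
      Pat (d (lv ρ)) (fun x => BT (col x)) Q (M η 𝒟) (rk η 𝒟) 𝒟 ρ.1.2 (t ρ) ∧
      ∀ ζ ∈ M η 𝒟, rk η 𝒟 ζ < lv ρ → k ζ ρ ∈ K ζ)}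
  obtain ⟨K, hK'⟩ := col_rec (Θ := Θ)
    (fun η K' => AddSubgroup.closure (k η '' A K' (DD #T K' η (X η)) η))
  have hK : ∀ η, K η = AddSubgroup.closure (k η '' A K (DD #T K η (X η)) η) := fun η => by
    obtain ⟨K', h1, h2⟩ := hK' η
    rw [h2, DD_congr h1]
    congr 2
    ext ρ
    refine and_congr_right fun _ => and_congr_right fun _ => imp_congr_right fun _ =>
      and_congr_right fun _ => and_congr_right fun _ => forall₂_congr fun ζ hζ => ?_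
    rw [h1 ζ (hM _ _ hζ)]
  have htop := fun η x (hx : x ∈ K η) => top_level lv (fun ρ => t ρ η) _ (fun ρ hρ => hρ.2.1)
    (hK η ▸ hx : x ∈ AddSubgroup.closure (k η '' A K (DD #T K η (X η)) η))
  refine ⟨R →₀ ZMod 2, inferInstance, hG,
    final hT.reg hc hG K (fun X₀ S hS => ?_) (fun q hq g₀ => ?_) (fun g hg0 => ?_)⟩
  · obtain ⟨b₀, hb₀⟩ := bdd_toType S (hS.trans_lt (lt_cof_ord_power h0 (by norm_num)))
    obtain ⟨η, hη, hfη⟩ := hf (X₀, Classical.arbitrary T) b₀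
    refine ⟨η, fun ζ hζ => (hb₀ ζ hζ).trans hη, fun hgd g₁ => ?_⟩
    have hX : X η = X₀ := congrArg Prod.fst hfη
    obtain ⟨a, ha⟩ := exists_mem_HL hT lv g₁
    refine sm_mono ?_ (hHs a)
    rintro g ⟨hgX, hgK⟩
    rcases htop η _ hgK with h | ⟨ε, F, F1, F2, h⟩
    · rw [sub_eq_zero.1 h]; exact ha
    rcases le_or_gt a ε with hl | hl
    · exfalso
      have hdn := (hX ▸ hgd).dn
      obtain ⟨ρ₀, hρ₀⟩ := id F1
      have hlad : Lad (d ε) ε := (F2 ρ₀ hρ₀).2 ▸ ((F2 ρ₀ hρ₀).1.2.2 hdn).1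
      obtain ⟨o, o1, o2⟩ := mutual_gen (A := fun ρ : R => ρ.1.2) (t := t) hlad hQm F1
        (fun ρ hρ => (F2 ρ hρ).2 ▸ ((F2 ρ hρ).1.2.2 hdn).2.1)
        (fun ρ hρ => (F2 ρ hρ).2 ▸ ρ.2.1)
        (fun ρ hρ ρ' hρ' e => Subtype.ext (Prod.ext ((F2 ρ hρ).2.trans (F2 ρ' hρ').2.symm) e))
        ((ev_mem_HL hlad (add_mem h (HL_mono lv hl ha))).mono fun n hn => hQc _ _ hn)
      refine o1.2.2 g (fun y hy => ?_) (hX ▸ hgX)
      obtain ⟨y1, y2, y3⟩ := o2 y hy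
      have := (K y.1).sum_mem fun ρ hρ =>
        ((F2 ρ hρ).1.2.2 hdn).2.2 y.1 y1 (y2.trans_eq (F2 ρ hρ).2.symm)
      simp only [k, Finset.sum_sub_distrib] at this
      rw [y3]
      convert this using 1
      abel
    · have := add_mem (add_mem (HL_mono lv hl.le h) (sum_mem fun ρ hρ =>
        single_mem_HL (((F2 ρ hρ).2).trans_lt hl))) ha
      simpa using this
  · obtain ⟨a, ha⟩ := exists_mem_HL hT lv g₀
    obtain ⟨ε, A₀, S', r1, r2, r3, r4, r5, r6⟩ := exists_row hT hun hc hω hG (HL lv) (HL_mono lv)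
      (exists_mem_HL hT lv) d hd col hcol Q B hQm hQs hB hQ BT
      (fun A hA => hBT A ⟨subset_univ _, hA⟩) c c.injective b b.injective α
      (fun η => M η (DD #T K η (X η))) (fun η => rk η (DD #T K η (X η))) (fun η => hrk _ _)
      (fun η => DD #T K η (X η)) (fun η => Dn #T η (DD #T K η (X η)))
      (fun η hη q h1 h2 => by
        obtain ⟨o, o1, o2⟩ := hMD η _ (fun o ho => ⟨ho.1, ho.2.1⟩) hη q h1 h2
        exact ⟨o, o1, o1.1, o2⟩) q hq a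
    let ρ : R := ⟨(ε, A₀), r3, r4⟩
    have key : ∀ η ∈ S', k η ρ ∈ K η := by
      intro η
      induction η using WellFoundedLT.induction with
      | ind η ih =>
        intro hη
        obtain ⟨s1, s2, s3, s4⟩ := r6 η hη
        rw [hK]
        exact AddSubgroup.subset_closure ⟨ρ, ⟨s1.le, s2, fun hdn => ⟨r2, s4 hdn,
          fun ζ hζ hl => ih ζ (hM _ _ hζ) (s3 ζ hζ hl)⟩⟩, rfl⟩
    refine ⟨Finsupp.single ρ 1, fun y hy => (r5 y hy).2 ▸ key _ (r5 y hy).1, fun h => ?_⟩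
    refine sum_not_mem_HL (lv := lv) (ε := ε) (Finset.singleton_nonempty ρ) (by simp [lv, ρ]) ?_
    rw [Finset.sum_singleton, h]
    exact HL_mono lv r1.le ha
  · obtain ⟨a, ha⟩ := exists_mem_HL hT lv g
    obtain ⟨η, -, hfη⟩ := hf (∅, a) (Classical.arbitrary Θ)
    have hα : α η = a := congrArg Prod.snd hfη
    refine ⟨η, fun hgK => ?_⟩
    rcases htop η _ hgK with h | ⟨ε, F, F1, F2, h⟩
    · exact hg0 h
    · obtain ⟨ρ₀, hρ₀⟩ := id F1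
      have hl : a ≤ ε := hα ▸ (F2 ρ₀ hρ₀).2 ▸ (F2 ρ₀ hρ₀).1.1
      have := sub_mem (HL_mono lv hl ha) h
      exact sum_not_mem_HL F1 (fun ρ hρ => (F2 ρ hρ).2) (by simpa using this)

lemma cnt_of_pow (hT : Reg T) (h : ∀ μ < #T, 2 ^ μ ≤ #T) : Cnt #T := by
  classical
  intro Y S hS
  obtain ⟨a₀⟩ := hT.nonempty
  obtain ⟨j, hj⟩ : ∃ j : Y → T, InjOn j S := by
    obtain ⟨j⟩ := (le_def _ _).1 hS
    refine ⟨fun ζ => if h : ζ ∈ S then j ⟨ζ, h⟩ else a₀, fun ζ h ζ' h' e => ?_⟩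
    simp only [dif_pos h, dif_pos h'] at e
    exact congrArg Subtype.val (j.injective e)
  refine (mk_le_mk_of_subset ?_).trans (le_biUnion hT.inf (s := (Set.univ : Set T))
    (t := fun a => 𝒫 {i ∈ S | j i < a}) (by rw [mk_univ]) fun a _ => ?_)
  · rintro c ⟨h1, h2⟩
    obtain ⟨a, ha⟩ := hT.bdd _ (sm_image j h2)
    exact mem_iUnion₂.2 ⟨a, mem_univ _, fun y hy => ⟨h1 hy, ha _ ⟨y, hy, rfl⟩⟩⟩
  · rw [mk_powerset]
    exact h _ (sm_rank hT hj a)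

end Pool.Agent.P.MP_39acbb_lc
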