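import Mathlib

/-! A separated discrete set with a limit point gives a crowded nowhere dense set, unless the
group is extremally disconnected. -/

namespace Pool.Agent.P.MP_39acbb_lc.Sep

open Set Filter Topology

variable {G : Type*} [Group G]

/-- descendants of the node `(a, N)` in the tree of products of elements of `D` -/
inductive Desc (D : Set G) (O : G → Set G) : G → Set G → G → Prop
  | root (a : G) (N : Set G) : Desc D O a N a
  | step (a : G) (N : Set G) (d y : G) : d ∈ D → a * d ∈ N →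
      Desc D O (a * d) (N ∩ {z | a⁻¹ * z ∈ O d}) y → Desc D O a N y

variable {D : Set G} {O : G → Set G}

theorem desc_mem (hO : ∀ d ∈ D, d ∈ O d) {a y : G} {N : Set G} (h : Desc D O a N y) :
    a ∈ N → y ∈ N := by
  induction h with
  | root a N => exact id
  | step a N d y hd hN _ ih => exact fun _ => (ih ⟨hN, by simpa using hO d hd⟩).1

theorem desc_cases {a y : G} {N : Set G} (h : Desc D O a N y) :
    y = a ∨ ∃ d ∈ D, a * d ∈ N ∧ Desc D O (a * d) (N ∩ {z | a⁻¹ * z ∈ O d}) y := by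
  cases h with
  | root => exact Or.inl rfl
  | step _ _ d _ hd hN h => exact Or.inr ⟨d, hd, hN, h⟩

variable [TopologicalSpace G] [IsTopologicalGroup G]

theorem desc_local (hO : ∀ d ∈ D, d ∈ O d) (ho : ∀ d ∈ D, IsOpen (O d))
    (h1 : ∀ d ∈ D, (1 : G) ∉ O d) (hdis : D.PairwiseDisjoint O) {a x : G} {N : Set G}
    (h : Desc D O a N x) : a ∈ N → IsOpen N → ∃ N', IsOpen N' ∧ x ∈ N' ∧ N' ⊆ N ∧
      (∀ y, Desc D O a N y → y ∈ N' → Desc D O x N' y) ∧
      ∀ y, Desc D O x N' y → Desc D O a N y := by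
  induction h with
  | root a N => exact fun ha hN => ⟨N, hN, ha, subset_rfl, fun _ h _ => h, fun _ h => h⟩
  | step a N d x hd hN _ ih =>
    intro _ hNo
    obtain ⟨N', o1, o2, o3, o4, o5⟩ := ih ⟨hN, by simpa using hO d hd⟩
      (hNo.inter ((ho d hd).preimage (continuous_const.mul continuous_id)))
    refine ⟨N', o1, o2, fun z hz => (o3 hz).1, fun y hy hy' => ?_,
      fun y hy => Desc.step a N d y hd hN (o5 y hy)⟩
    have hyd : a⁻¹ * y ∈ O d := (o3 hy').2
    rcases desc_cases hy with rfl | ⟨d', hd', hN', hy2⟩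
    · exact absurd (by simpa using hyd) (h1 d hd)
    · have hyd' : a⁻¹ * y ∈ O d' := (desc_mem hO hy2 ⟨hN', by simpa using hO d' hd'⟩).2
      have : d' = d := by
        by_contra hne
        exact disjoint_left.1 (hdis hd' hd hne) hyd' hyd
      subst this
      exact o4 y hy2 hy'

theorem near {S N : Set G} {x : G} (hS : (1 : G) ∈ closure S) (hN : IsOpen N) (hx : x ∈ N) :
    ∃ s ∈ S, x * s ∈ N := by
  obtain ⟨s, h1, h2⟩ := mem_closure_iff.1 hS {z | x * z ∈ N}
    (hN.preimage (continuous_const.mul continuous_id)) (by simpa using hx)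
  exact ⟨s, h2, h1⟩

theorem tree (hO : ∀ d ∈ D, d ∈ O d) (ho : ∀ d ∈ D, IsOpen (O d))
    (hdis : D.PairwiseDisjoint O) (hD : (1 : G) ∈ closure D) {Q : Set G} (hQ : IsOpen Q)
    (hQ1 : (1 : G) ∈ closure Q) (hQO : ∀ d ∈ D, Disjoint (O d) Q) :
    ∃ A : Set G, A.Nonempty ∧ IsNowhereDense A ∧ Preperfect A := by
  have h1 : ∀ d ∈ D, (1 : G) ∉ O d := fun d hd h => by
    obtain ⟨q, q1, q2⟩ := mem_closure_iff.1 hQ1 _ (ho d hd) h
    exact disjoint_left.1 (hQO d hd) q1 q2
  have h1Q : (1 : G) ∉ Q := fun h => by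
    obtain ⟨d, d1, d2⟩ := mem_closure_iff.1 hD _ hQ h
    exact disjoint_left.1 (hQO d d2) (hO d d2) d1
  refine ⟨{y | Desc D O 1 univ y}, ⟨1, Desc.root _ _⟩, ?_, fun x hx => ?_⟩
  · refine eq_empty_of_forall_notMem fun p hp => ?_
    obtain ⟨x, x1, x2⟩ := mem_closure_iff.1 (interior_subset hp) _ isOpen_interior hp
    obtain ⟨N', o1, o2, -, o4, -⟩ := desc_local hO ho h1 hdis x2 (mem_univ _) isOpen_univ
    obtain ⟨q, q1, q2⟩ := near hQ1 (isOpen_interior.inter o1) ⟨x1, o2⟩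
    obtain ⟨y, ⟨y1, y2⟩, y3⟩ := mem_closure_iff.1 (interior_subset q2.1)
      (N' ∩ {z | x⁻¹ * z ∈ Q}) (o1.inter (hQ.preimage (continuous_const.mul continuous_id)))
      ⟨q2.2, by simpa using q1⟩
    rcases desc_cases (o4 y y3 y1) with rfl | ⟨d, hd, hN, hy⟩
    · exact h1Q (by simpa using y2)
    · exact disjoint_left.1 (hQO d hd) (desc_mem hO hy ⟨hN, by simpa using hO d hd⟩).2 y2
  · obtain ⟨N', o1, o2, -, -, o5⟩ := desc_local hO ho h1 hdis hx (mem_univ _) isOpen_univ
    refine accPt_iff_nhds.2 fun U hU => ?_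
    obtain ⟨V, v1, v2, v3⟩ := mem_nhds_iff.1 hU
    obtain ⟨d, d1, d2⟩ := near hD (v2.inter o1) ⟨v3, o2⟩
    refine ⟨x * d, ⟨v1 d2.1, o5 _ (Desc.step x N' d _ d1 d2.2 (Desc.root _ _))⟩, fun h => ?_⟩
    have : d = 1 := by simpa using h
    exact h1 d d1 (this ▸ hO d d1)

/-- a punctured neighbourhood of the identity splits into two open sets with limit the identity -/
theorem cut (hED : ¬ ExtremallyDisconnected G)
    (hNS : ∀ A : Set G, A.Nonempty → IsNowhereDense A → ¬ Preperfect A) :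
    ∃ P Q W : Set G, IsOpen P ∧ IsOpen Q ∧ IsOpen W ∧ Disjoint P Q ∧ (1 : G) ∈ closure P ∧
      (1 : G) ∈ closure Q ∧ (1 : G) ∈ W ∧ ∀ z ∈ W, z ≠ 1 → z ∈ P ∪ Q := by
  obtain ⟨U, hU, hU'⟩ : ∃ U : Set G, IsOpen U ∧ ¬ IsOpen (closure U) := by
    by_contra hc
    push Not at hc
    exact hED ⟨hc⟩
  have hne : (frontier (closure U)).Nonempty := by
    rw [nonempty_iff_ne_empty]
    exact fun h => hU' (isClopen_iff_frontier_eq_empty.2 h).isOpen
  have hnd : IsNowhereDense (frontier (closure U)) := by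
    rw [IsNowhereDense, isClosed_frontier.closure_eq]
    exact interior_frontier isClosed_closure
  obtain ⟨b, hb, hb'⟩ : ∃ b ∈ frontier (closure U), ¬ AccPt b (𝓟 (frontier (closure U))) := by
    by_contra hc
    push Not at hc
    exact hNS _ hne hnd hc
  rw [accPt_iff_nhds] at hb'
  push Not at hb'
  obtain ⟨V, hV, hV'⟩ := hb'
  obtain ⟨W, w1, w2, w3⟩ := mem_nhds_iff.1 hV
  have hc : Continuous fun z : G => b * z := continuous_const.mul continuous_id
  have tr : ∀ S : Set G, b ∈ closure S → (1 : G) ∈ closure {z | b * z ∈ S} := fun S hS => by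
    have := (Homeomorph.mulLeft b).preimage_closure S
    have h2 : (1 : G) ∈ (Homeomorph.mulLeft b) ⁻¹' closure S := by simpa using hS
    rw [this] at h2
    exact h2
  refine ⟨{z | b * z ∈ interior (closure U)}, {z | b * z ∈ (closure U)ᶜ}, {z | b * z ∈ W},
    isOpen_interior.preimage hc, isClosed_closure.isOpen_compl.preimage hc, w2.preimage hc,
    disjoint_left.2 fun z h1 h2 => h2 (interior_subset h1), tr _ ?_, tr _ ?_, by simpa using w3,
    fun z hz hz1 => ?_⟩
  · have h1 : b ∈ closure U := by simpa using hb.1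
    exact closure_mono (interior_maximal subset_closure hU) h1
  · rw [closure_compl]; exact hb.2
  · by_contra hcon
    simp only [mem_union, mem_ofPred_eq, not_or, mem_compl_iff, not_not] at hcon
    have := hV' (b * z) ⟨w1 hz, subset_closure hcon.2, hcon.1⟩
    exact hz1 (by simpa using this)

theorem main (hED : ¬ ExtremallyDisconnected G) (hO : ∀ d ∈ D, IsOpen (O d) ∧ d ∈ O d)
    (hdis : D.PairwiseDisjoint O) {x : G} (hx : AccPt x (𝓟 D)) :
    ∃ A : Set G, A.Nonempty ∧ IsNowhereDense A ∧ Preperfect A := by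
  by_contra hcon
  push Not at hcon
  obtain ⟨P, Q, W, oP, oQ, oW, hPQ, cP, cQ, h1W, hW⟩ := cut hED hcon
  have hc : Continuous fun z : G => x * z := continuous_const.mul continuous_id
  have key : ∀ P Q : Set G, IsOpen P → IsOpen Q → Disjoint P Q → (1 : G) ∈ closure Q →
      (1 : G) ∉ closure ({z | x * z ∈ D} ∩ P) := fun P Q oP oQ hPQ cQ h => by
    obtain ⟨A, a1, a2, a3⟩ := tree (D := {z | x * z ∈ D} ∩ P)
      (O := fun d => {z | x * z ∈ O (x * d)} ∩ P) (fun d hd => ⟨(hO _ hd.1).2, hd.2⟩)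
      (fun d hd => ((hO _ hd.1).1.preimage hc).inter oP)
      (fun d hd d' hd' hne => disjoint_left.2 fun z h1 h2 =>
        disjoint_left.1 (hdis hd.1 hd'.1 (by simpa using hne)) h1.1 h2.1)
      h oQ cQ (fun d _ => hPQ.mono_left inter_subset_right)
    exact hcon A a1 a2 a3
  have k1 := key P Q oP oQ hPQ cQ
  have k2 := key Q P oQ oP hPQ.symm cP
  have hn : W ∩ ((closure ({z | x * z ∈ D} ∩ P))ᶜ ∩ (closure ({z | x * z ∈ D} ∩ Q))ᶜ) ∈ 𝓝 (1 : G) :=
    (oW.inter (isClosed_closure.isOpen_compl.inter isClosed_closure.isOpen_compl)).mem_nhds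
      ⟨h1W, k1, k2⟩
  have hn' : {y | x⁻¹ * y ∈ W ∩ ((closure ({z | x * z ∈ D} ∩ P))ᶜ ∩
      (closure ({z | x * z ∈ D} ∩ Q))ᶜ)} ∈ 𝓝 x := by
    have h2 : ContinuousAt (fun y : G => x⁻¹ * y) x :=
      (continuous_const.mul continuous_id).continuousAt
    exact h2 (by simpa using hn)
  obtain ⟨y, ⟨y1, y2⟩, y3⟩ := accPt_iff_nhds.1 hx _ hn'
  have y4 : x⁻¹ * y ∈ {z | x * z ∈ D} := by simpa using y2
  rcases hW _ y1.1 (fun h => y3 (by rw [inv_mul_eq_one] at h; exact h.symm)) with h | h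
  · exact y1.2.1 (subset_closure ⟨y4, h⟩)
  · exact y1.2.2 (subset_closure ⟨y4, h⟩)

end Pool.Agent.P.MP_39acbb_lc.Sep
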